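import Mathlib

namespace Pool.Agent.Helper395

open IsLocalRing

/-- A power of an ideal of definition is again one. -/
theorem isAdicComplete_pow {S : Type*} [CommRing S] (J : Ideal S) [h : IsAdicComplete J S]
    (k : ℕ) (hk : k ≠ 0) : IsAdicComplete (J ^ k) S := by
  have hle : ∀ n : ℕ, (J ^ k) ^ n ≤ J ^ n := fun n => by
    rw [← pow_mul]
    exact Ideal.pow_le_pow_right (Nat.le_mul_of_pos_left n (Nat.pos_of_ne_zero hk))
  refine { haus' := ?_, prec' := ?_ }
  · intro x hx
    refine IsHausdorff.haus h.toIsHausdorff x fun n => ?_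
    have := hx n
    rw [SModEq.zero] at this ⊢
    exact Submodule.smul_mono_left (hle n) this
  · intro f hf
    have hf' : ∀ {m n : ℕ}, m ≤ n → f m ≡ f n [SMOD (J ^ m • ⊤ : Submodule S S)] := by
      intro m n hmn
      have := hf hmn
      rw [SModEq.sub_mem] at this ⊢
      exact Submodule.smul_mono_left (hle m) this
    obtain ⟨L, hL⟩ := IsPrecomplete.prec h.toIsPrecomplete hf'
    refine ⟨L, fun n => ?_⟩
    have h1 := hf (m := n) (n := k * n) (Nat.le_mul_of_pos_left n (Nat.pos_of_ne_zero hk))
    have h2 := hL (k * n)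
    rw [← pow_mul] at h1 ⊢
    exact h1.trans h2

/-- Restriction of a polynomial to a line through the origin. -/
theorem coeff_line {K : Type*} [Field K] {n : ℕ} (lam : Fin n → K) (d : ℕ)
    (P : MvPolynomial (Fin n) K) :
    PowerSeries.coeff d (MvPolynomial.aeval
      (fun i => PowerSeries.C (lam i) * (PowerSeries.X : PowerSeries K)) P) =
    MvPolynomial.eval lam (MvPolynomial.homogeneousComponent d P) := by
  induction P using MvPolynomial.induction_on' with
  | monomial x c =>
    have h1 : MvPolynomial.aeval (fun i => PowerSeries.C (lam i) * (PowerSeries.X : PowerSeries K))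
        (MvPolynomial.monomial x c) =
        PowerSeries.C (c * x.prod fun i k => lam i ^ k) * PowerSeries.X ^ x.degree := by
      rw [MvPolynomial.aeval_monomial]
      have h2 : (x.prod fun i k => (PowerSeries.C (lam i) * (PowerSeries.X : PowerSeries K)) ^ k)
          = PowerSeries.C (x.prod fun i k => lam i ^ k) * PowerSeries.X ^ x.degree := by
        simp only [Finsupp.prod, mul_pow, Finset.prod_mul_distrib, map_prod, map_pow,
          Finset.prod_pow_eq_pow_sum]
        rfl
      rw [h2, map_mul, mul_assoc]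
      rfl
    rw [h1, PowerSeries.coeff_C_mul, PowerSeries.coeff_X_pow]
    by_cases hd : d = x.degree
    · subst hd
      rw [if_pos rfl, mul_one, MvPolynomial.homogeneousComponent_eq_self
        (MvPolynomial.isHomogeneous_monomial c rfl), MvPolynomial.eval_monomial]
    · have h3 : MvPolynomial.homogeneousComponent d (MvPolynomial.monomial x c) = 0 := by
        rw [MvPolynomial.homogeneousComponent_of_mem (MvPolynomial.isHomogeneous_monomial c rfl),
          if_neg hd]
      rw [h3, map_zero, if_neg hd, mul_zero]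
  | add p q hp hq => rw [map_add, map_add, map_add, map_add, hp, hq]

theorem exists_arc {F R : Type*} [Field F] [PerfectField F] [CommRing R] [IsLocalRing R]
    [IsNoetherianRing R] [Algebra F R] [Algebra.FormallySmooth F R]
    [Algebra.EssFiniteType F (ResidueField R)] [Infinite (ResidueField R)] (a : R) (ha : a ≠ 0) :
    ∃ θ : R →+* PowerSeries (ResidueField R),
      (∀ x, PowerSeries.constantCoeff (θ x) = residue R x) ∧ θ a ≠ 0 := by
  classical
  set K := ResidueField R with hK
  -- Step 1
  obtain ⟨N, hN⟩ : ∃ N : ℕ, a ∉ maximalIdeal R ^ (N + 1) := by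
    by_contra hcon
    push Not at hcon
    apply ha
    have h1 : a ∈ ⨅ i : ℕ, maximalIdeal R ^ i := by
      rw [Submodule.mem_iInf]
      intro i
      exact Ideal.pow_le_pow_right (Nat.le_succ i) (hcon i)
    rw [Ideal.iInf_pow_eq_bot_of_isLocalRing _ (Ideal.IsPrime.ne_top inferInstance)] at h1
    simpa using h1
  set I := maximalIdeal R ^ (N + 1) with hI
  have hIle : I ≤ maximalIdeal R := Ideal.pow_le_self (Nat.succ_ne_zero N)
  -- the residue map on the truncated ring
  let g : (R ⧸ I) →ₐ[F] K := Ideal.Quotient.liftₐ I (Algebra.algHom F R K) (by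
    intro x hx
    exact (residue_eq_zero_iff x).mpr (hIle hx))
  have hgmk : ∀ x : R, g (Ideal.Quotient.mk I x) = residue R x := fun x => rfl
  have hgs : Function.Surjective g := fun y => by
    obtain ⟨x, rfl⟩ := residue_surjective y
    exact ⟨Ideal.Quotient.mk I x, hgmk x⟩
  have hgker : RingHom.ker (g : (R ⧸ I) →+* K) = (maximalIdeal R).map (Ideal.Quotient.mk I) := by
    ext y
    obtain ⟨x, rfl⟩ := Ideal.Quotient.mk_surjective y
    rw [RingHom.mem_ker]
    change residue R x = 0 ↔ _
    rw [residue_eq_zero_iff, Ideal.mem_map_iff_of_surjective _ Ideal.Quotient.mk_surjective]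
    constructor
    · intro hx; exact ⟨x, hx, rfl⟩
    · rintro ⟨z, hz, hzx⟩
      have : z - x ∈ I := Ideal.Quotient.eq.mp hzx
      have h2 := Ideal.sub_mem _ hz (hIle this)
      simpa using h2
  have hnil : ((maximalIdeal R).map (Ideal.Quotient.mk I)) ^ (N + 1) = ⊥ := by
    rw [← Ideal.map_pow, ← hI, Ideal.map_quotient_self]
  have hgnil : IsNilpotent (RingHom.ker (g : (R ⧸ I) →+* K)) := ⟨N + 1, by rw [hgker, hnil]; rfl⟩
  -- Step 2 : coefficient field
  let σ : K →ₐ[F] (R ⧸ I) := Algebra.FormallySmooth.liftOfSurjective (AlgHom.id F K) g hgs hgnil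
  have hσ : ∀ x : K, g (σ x) = x := fun x =>
    Algebra.FormallySmooth.liftOfSurjective_apply (AlgHom.id F K) g hgs hgnil x
  -- Step 3 : generators
  obtain ⟨n, tt, htt⟩ : ∃ (n : ℕ) (tt : Fin n → R), Ideal.span (Set.range tt) = maximalIdeal R :=
    Submodule.fg_iff_exists_fin_generating_family.mp (IsNoetherian.noetherian (maximalIdeal R))
  let τ : MvPolynomial (Fin n) K →ₐ[F] (R ⧸ I) :=
    { MvPolynomial.eval₂Hom (σ : K →+* (R ⧸ I)) (fun i => Ideal.Quotient.mk I (tt i)) with
      commutes' := by
        intro r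
        change MvPolynomial.eval₂Hom (σ : K →+* (R ⧸ I)) _ (algebraMap F _ r) = _
        rw [IsScalarTower.algebraMap_apply F K (MvPolynomial (Fin n) K), MvPolynomial.algebraMap_eq,
          MvPolynomial.coe_eval₂Hom, MvPolynomial.eval₂_C]
        exact σ.commutes r }
  have hτC : ∀ c, τ (MvPolynomial.C c) = σ c := fun c => MvPolynomial.eval₂_C _ _ _
  have hτX : ∀ i, τ (MvPolynomial.X i) = Ideal.Quotient.mk I (tt i) :=
    fun i => MvPolynomial.eval₂_X _ _ _
  have hgen : ∀ k : ℕ, ∀ y ∈ ((maximalIdeal R).map (Ideal.Quotient.mk I)) ^ k,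
      ∃ P : MvPolynomial (Fin n) K, y - τ P ∈ ((maximalIdeal R).map (Ideal.Quotient.mk I)) ^ (k + 1) := by
    intro k
    induction k with
    | zero =>
      intro y _
      refine ⟨MvPolynomial.C (g y), ?_⟩
      rw [hτC, pow_one, ← hgker, RingHom.mem_ker]
      change g (y - σ (g y)) = 0
      rw [map_sub, hσ, sub_self]
    | succ k ih =>
      intro y hy
      have hspan : (maximalIdeal R).map (Ideal.Quotient.mk I)
          = Ideal.span (Set.range (fun i => Ideal.Quotient.mk I (tt i))) := by
        rw [← htt, Ideal.map_span, ← Set.range_comp]; rfl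
      rw [pow_succ'] at hy
      refine Submodule.mul_induction_on hy ?_ ?_
      · intro u hu v hv
        rw [hspan, Ideal.mem_span_range_iff_exists_fun] at hu
        obtain ⟨c, rfl⟩ := hu
        have : ∀ i, ∃ P : MvPolynomial (Fin n) K,
            c i * v - τ P ∈ ((maximalIdeal R).map (Ideal.Quotient.mk I)) ^ (k + 1) :=
          fun i => ih _ (Ideal.mul_mem_left _ _ hv)
        choose P hP using this
        refine ⟨∑ i, MvPolynomial.X i * P i, ?_⟩
        have : (∑ i, c i * Ideal.Quotient.mk I (tt i)) * v - τ (∑ i, MvPolynomial.X i * P i)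
            = ∑ i, Ideal.Quotient.mk I (tt i) * (c i * v - τ (P i)) := by
          rw [map_sum, Finset.sum_mul, ← Finset.sum_sub_distrib]
          refine Finset.sum_congr rfl fun i _ => ?_
          rw [map_mul, hτX]; ring
        rw [this]
        refine Ideal.sum_mem _ fun i _ => ?_
        rw [pow_succ']
        refine Ideal.mul_mem_mul ?_ (hP i)
        rw [hspan]
        exact Ideal.subset_span ⟨i, rfl⟩
      · rintro u v ⟨P, hP⟩ ⟨Q, hQ⟩
        refine ⟨P + Q, ?_⟩
        have : u + v - τ (P + Q) = (u - τ P) + (v - τ Q) := by rw [map_add]; ring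
        rw [this]
        exact Ideal.add_mem _ hP hQ
  have hτs : Function.Surjective τ := by
    intro y
    have : ∀ k : ℕ, ∃ P : MvPolynomial (Fin n) K,
        y - τ P ∈ ((maximalIdeal R).map (Ideal.Quotient.mk I)) ^ k := by
      intro k
      induction k with
      | zero => exact ⟨0, by simp⟩
      | succ k ih =>
        obtain ⟨P, hP⟩ := ih
        obtain ⟨Q, hQ⟩ := hgen k _ hP
        exact ⟨P + Q, by rw [map_add, ← sub_sub]; exact hQ⟩
    obtain ⟨P, hP⟩ := this (N + 1)
    rw [hnil] at hP
    exact ⟨P, (sub_eq_zero.mp (by simpa using hP)).symm⟩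
  -- the truncated polynomial ring
  let V := MvPolynomial.idealOfVars (Fin n) K
  have hτV : ∀ k, ∀ P ∈ V ^ k, τ P ∈ ((maximalIdeal R).map (Ideal.Quotient.mk I)) ^ k := by
    intro k P hP
    have h1 : τ P ∈ (V ^ k).map (τ : MvPolynomial (Fin n) K →+* (R ⧸ I)) :=
      Ideal.mem_map_of_mem _ hP
    rw [Ideal.map_pow] at h1
    refine Ideal.pow_right_mono ?_ k h1
    rw [Ideal.map_le_iff_le_comap]
    change Ideal.span (Set.range MvPolynomial.X) ≤ _
    rw [Ideal.span_le]
    rintro _ ⟨i, rfl⟩
    change τ (MvPolynomial.X i) ∈ (maximalIdeal R).map (Ideal.Quotient.mk I)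
    rw [hτX]
    apply Ideal.mem_map_of_mem
    rw [← htt]
    exact Ideal.subset_span ⟨i, rfl⟩
  let τ' : (MvPolynomial (Fin n) K ⧸ V ^ (N + 1)) →ₐ[F] (R ⧸ I) :=
    Ideal.Quotient.liftₐ (V ^ (N + 1)) τ (by
      intro P hP
      have := hτV _ P hP
      rw [hnil] at this
      simpa using this)
  have hτ'mk : ∀ P, τ' (Ideal.Quotient.mk _ P) = τ P := fun P => rfl
  have hτ's : Function.Surjective τ' := fun y => by
    obtain ⟨P, rfl⟩ := hτs y
    exact ⟨Ideal.Quotient.mk _ P, rfl⟩
  have hgτ : ∀ P : MvPolynomial (Fin n) K, g (τ P) = MvPolynomial.constantCoeff P := by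
    intro P
    have : (g.comp τ : MvPolynomial (Fin n) K →+* K) = MvPolynomial.constantCoeff := by
      apply MvPolynomial.ringHom_ext
      · intro c
        change g (τ (MvPolynomial.C c)) = _
        rw [hτC, hσ, MvPolynomial.constantCoeff_C]
      · intro i
        change g (τ (MvPolynomial.X i)) = _
        rw [hτX, MvPolynomial.constantCoeff_X, hgmk, residue_eq_zero_iff, ← htt]
        exact Ideal.subset_span ⟨i, rfl⟩
    exact DFunLike.congr_fun this P
  have hτ'nil : IsNilpotent (RingHom.ker (τ' : (MvPolynomial (Fin n) K ⧸ V ^ (N + 1)) →+* (R ⧸ I))) := by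
    refine ⟨N + 1, ?_⟩
    have hle : RingHom.ker (τ' : (MvPolynomial (Fin n) K ⧸ V ^ (N + 1)) →+* (R ⧸ I))
        ≤ V.map (Ideal.Quotient.mk (V ^ (N + 1))) := by
      intro y hy
      obtain ⟨P, rfl⟩ := Ideal.Quotient.mk_surjective y
      apply Ideal.mem_map_of_mem
      rw [RingHom.mem_ker] at hy
      change τ P = 0 at hy
      have h2 := hgτ P
      rw [hy, map_zero] at h2
      rw [← pow_one V, MvPolynomial.mem_pow_idealOfVars_iff']
      intro x hx
      have : x = 0 := by
        have : x.degree = 0 := by omega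
        exact (Finsupp.degree_eq_zero_iff x).mp this
      rw [this]
      exact h2.symm
    have := Ideal.pow_right_mono hle (N + 1)
    rw [← Ideal.map_pow, Ideal.map_quotient_self] at this
    exact le_bot_iff.mp this
  -- Step 4 : lift
  let s : R →ₐ[F] (MvPolynomial (Fin n) K ⧸ V ^ (N + 1)) :=
    Algebra.FormallySmooth.liftOfSurjective (Ideal.Quotient.mkₐ F I) τ' hτ's hτ'nil
  have hs : ∀ x, τ' (s x) = Ideal.Quotient.mk I x := fun x =>
    Algebra.FormallySmooth.liftOfSurjective_apply (Ideal.Quotient.mkₐ F I) τ' hτ's hτ'nil x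
  obtain ⟨Pa, hPa⟩ := Ideal.Quotient.mk_surjective (s a)
  have hPa' : Pa ∉ V ^ (N + 1) := by
    intro h
    have h1 := hτV _ _ h
    rw [hnil] at h1
    have h2 : τ Pa = Ideal.Quotient.mk I a := by rw [← hτ'mk, hPa, hs]
    rw [h2] at h1
    exact hN (Ideal.Quotient.eq_zero_iff_mem.mp (by simpa using h1))
  -- Step 5 : direction
  obtain ⟨d, hd, hd'⟩ : ∃ d, d ≤ N ∧ MvPolynomial.homogeneousComponent d Pa ≠ 0 := by
    rw [MvPolynomial.mem_pow_idealOfVars_iff'] at hPa'
    push Not at hPa'
    obtain ⟨x, hx, hx'⟩ := hPa'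
    refine ⟨x.degree, by omega, fun h0 => hx' ?_⟩
    have := congrArg (MvPolynomial.coeff x) h0
    rw [MvPolynomial.coeff_homogeneousComponent, if_pos rfl, MvPolynomial.coeff_zero] at this
    exact this
  obtain ⟨lam, hlam⟩ : ∃ lam : Fin n → K,
      MvPolynomial.eval lam (MvPolynomial.homogeneousComponent d Pa) ≠ 0 := by
    by_contra hcon
    push Not at hcon
    exact hd' (MvPolynomial.funext fun x => by rw [hcon x, map_zero])
  let ev : MvPolynomial (Fin n) K →ₐ[K] PowerSeries K := MvPolynomial.aeval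
      (fun i => PowerSeries.C (lam i) * (PowerSeries.X : PowerSeries K))
  have hev : ∀ d P, PowerSeries.coeff d (ev P) =
      MvPolynomial.eval lam (MvPolynomial.homogeneousComponent d P) := coeff_line lam
  let J : Ideal (PowerSeries K) := Ideal.span {PowerSeries.X} ^ (N + 1)
  have hJ : ∀ f : PowerSeries K, f ∈ J ↔ ∀ m < N + 1, PowerSeries.coeff m f = 0 := by
    intro f
    change f ∈ Ideal.span {PowerSeries.X} ^ (N + 1) ↔ _
    rw [Ideal.span_singleton_pow, Ideal.mem_span_singleton, PowerSeries.X_pow_dvd_iff]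
  have hevV : ∀ P ∈ V ^ (N + 1), ev P ∈ J := by
    intro P hP
    rw [hJ]
    intro m hm
    rw [hev]
    have : MvPolynomial.homogeneousComponent m P = 0 := by
      ext x
      rw [MvPolynomial.coeff_homogeneousComponent, MvPolynomial.coeff_zero]
      split_ifs with h
      · rw [MvPolynomial.mem_pow_idealOfVars_iff'] at hP
        exact hP x (by omega)
      · rfl
    rw [this, map_zero]
  have : IsAdicComplete J (PowerSeries K) := isAdicComplete_pow _ _ (Nat.succ_ne_zero N)
  let ρ : (MvPolynomial (Fin n) K ⧸ V ^ (N + 1)) →ₐ[F] (PowerSeries K ⧸ J) :=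
    Ideal.Quotient.liftₐ (V ^ (N + 1))
      ((Ideal.Quotient.mkₐ F J).comp (ev.restrictScalars F)) (by
        intro P hP
        exact Ideal.Quotient.eq_zero_iff_mem.mpr (hevV P hP))
  obtain ⟨θ, hθ⟩ := Algebra.FormallySmooth.exists_mkₐ_comp_eq_of_isAdicComplete (ρ.comp s)
  have hθ' : ∀ x, Ideal.Quotient.mk J (θ x) = ρ (s x) := fun x => DFunLike.congr_fun hθ x
  refine ⟨(θ : R →+* PowerSeries K), ?_, ?_⟩
  · intro x
    obtain ⟨P, hP⟩ := Ideal.Quotient.mk_surjective (s x)
    have h1 := hθ' x
    rw [← hP] at h1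
    have h2 : θ x - ev P ∈ J := Ideal.Quotient.eq.mp h1
    rw [hJ] at h2
    have h3 := h2 0 (Nat.succ_pos N)
    rw [map_sub, sub_eq_zero, hev] at h3
    have h4 := hgτ P
    rw [← hτ'mk, hP, hs, hgmk] at h4
    rw [h4]
    change PowerSeries.constantCoeff (θ x) = _
    rw [← PowerSeries.coeff_zero_eq_constantCoeff_apply, h3,
      MvPolynomial.homogeneousComponent_zero, MvPolynomial.eval_C]
    rfl
  · intro h0
    have h1 := hθ' a
    rw [← hPa] at h1
    have h2 : θ a - ev Pa ∈ J := Ideal.Quotient.eq.mp h1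
    rw [hJ] at h2
    have h3 := h2 d (by omega)
    change (θ : R →+* PowerSeries K) a = 0 at h0
    rw [map_sub, hev, show θ a = 0 from h0, map_zero, zero_sub, neg_eq_zero] at h3
    exact hlam h3

end Pool.Agent.Helper395
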