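import Mathlib

namespace Pool.Agent.Helper395

open Polynomial

/-- Every complex number becomes a square in a field extension of `ℂ`. -/
theorem isSquare_algebraMap_complex {F : Type*} [Field F] [Algebra ℂ F] (c : ℂ) :
    IsSquare (algebraMap ℂ F c) := by
  obtain ⟨z, hz⟩ := IsAlgClosed.exists_pow_nat_eq c (n := 2) (by norm_num)
  exact ⟨algebraMap ℂ F z, by rw [← map_mul, ← hz, sq]⟩

/-- The product of the trailing and the leading coefficient of a polynomial. -/
noncomputable def chi {F : Type*} [Field F] (f : F[X]) : F := f.trailingCoeff * f.leadingCoeff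

theorem chi_mul {F : Type*} [Field F] (f g : F[X]) : chi (f * g) = chi f * chi g := by
  simp only [chi, trailingCoeff_mul, leadingCoeff_mul]; ring

theorem chi_ne_zero {F : Type*} [Field F] {f : F[X]} (hf : f ≠ 0) : chi f ≠ 0 :=
  mul_ne_zero (by simpa using hf) (by simpa using hf)

theorem chi_X {F : Type*} [Field F] : chi (X : F[X]) = 1 := by
  simp [chi, trailingCoeff]

theorem chi_one {F : Type*} [Field F] : chi (1 : F[X]) = 1 := by
  simp [chi, trailingCoeff]

theorem chi_C {F : Type*} [Field F] (c : F) : chi (C c) = c ^ 2 := by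
  simp [chi, trailingCoeff, sq]

theorem chi_pow {F : Type*} [Field F] (f : F[X]) (n : ℕ) : chi (f ^ n) = chi f ^ n := by
  induction n with
  | zero => simp [chi_one]
  | succ n ih => rw [pow_succ, chi_mul, ih, pow_succ]

theorem isSquare_chi_sq {F : Type*} [Field F] (f : F[X]) : IsSquare (chi (f ^ 2)) := by
  rw [chi_pow, sq]; exact ⟨_, rfl⟩

theorem isSquare_chi_X_sub_C {F : Type*} [Field F] [Algebra ℂ F] (a : ℂ) :
    IsSquare (chi (X - C (algebraMap ℂ F a))) := by
  by_cases ha : a = 0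
  · subst ha
    rw [map_zero, map_zero, sub_zero, chi_X]
    exact ⟨1, by simp⟩
  · have h0 : (X - C (algebraMap ℂ F a)).coeff 0 = algebraMap ℂ F (-a) := by simp
    have hne : (X - C (algebraMap ℂ F a)).coeff 0 ≠ 0 := by
      rw [h0]; simpa using ha
    have : (X - C (algebraMap ℂ F a)).natTrailingDegree = 0 := by
      rw [natTrailingDegree_eq_zero]; right; exact hne
    rw [chi, trailingCoeff, this, h0, (monic_X_sub_C _).leadingCoeff, mul_one]
    exact isSquare_algebraMap_complex _

theorem isSquare_chi_of_dvd {F : Type*} [Field F] [Algebra ℂ F] (G : ℂ[X]) (hG : G ≠ 0)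
    (f : F[X]) (hf : f ∣ G.map (algebraMap ℂ F)) : IsSquare (chi f) := by
  classical
  have hGF : G.map (algebraMap ℂ F) ≠ 0 :=
    (Polynomial.map_ne_zero_iff (algebraMap ℂ F).injective).mpr hG
  have hsplit : (G.map (algebraMap ℂ F)).Splits :=
    (IsAlgClosed.splits G).map _
  have hfs : f.Splits := hsplit.of_dvd hGF hf
  have hroots : ∀ a ∈ f.roots, ∃ b : ℂ, a = algebraMap ℂ F b := by
    intro a ha
    have h1 : a ∈ (G.map (algebraMap ℂ F)).roots :=
      Multiset.mem_of_le (Polynomial.roots.le_of_dvd hGF hf) ha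
    rw [(IsAlgClosed.splits G).roots_map, Multiset.mem_map] at h1
    obtain ⟨b, _, rfl⟩ := h1
    exact ⟨b, rfl⟩
  rw [hfs.eq_prod_roots, chi_mul, chi_C]
  refine IsSquare.mul ⟨_, sq _⟩ ?_
  generalize f.roots = m at hroots
  induction m using Multiset.induction_on with
  | empty => simp [chi_one]
  | cons a m ih =>
    rw [Multiset.map_cons, Multiset.prod_cons, chi_mul]
    obtain ⟨b, rfl⟩ := hroots a (Multiset.mem_cons_self a m)
    exact IsSquare.mul (isSquare_chi_X_sub_C b)
      (ih fun c hc => hroots c (Multiset.mem_cons_of_mem hc))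

theorem trailingCoeff_add_of_lt {F : Type*} [Field F] {f g : F[X]} (hf : f ≠ 0)
    (h : f.natTrailingDegree < g.natTrailingDegree) :
    (f + g).trailingCoeff = f.trailingCoeff := by
  have hc : (f + g).coeff f.natTrailingDegree = f.coeff f.natTrailingDegree := by
    rw [coeff_add, coeff_eq_zero_of_lt_natTrailingDegree h, add_zero]
  have hne : (f + g).coeff f.natTrailingDegree ≠ 0 := by
    rw [hc]
    exact coeff_natTrailingDegree_ne_zero.mpr hf
  have hfg : f + g ≠ 0 := fun h0 => hne (by rw [h0, coeff_zero])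
  have hd : (f + g).natTrailingDegree = f.natTrailingDegree := by
    apply le_antisymm
    · exact natTrailingDegree_le_of_ne_zero hne
    · apply le_natTrailingDegree hfg
      intro m hm
      rw [coeff_add, coeff_eq_zero_of_lt_natTrailingDegree hm,
        coeff_eq_zero_of_lt_natTrailingDegree (hm.trans h), add_zero]
  rw [trailingCoeff, hd, hc]; rfl

theorem isSquare_chi_form {F : Type*} [Field F] [Algebra ℂ F] (A B : F[X])
    (h0 : X * A ^ 2 - (X ^ 2 - 1) * B ^ 2 ≠ 0) :
    IsSquare (chi (X * A ^ 2 - (X ^ 2 - 1) * B ^ 2)) := by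
  have hneg : ∀ x : F, IsSquare x → IsSquare (-x) := by
    intro x hx
    have h1 : IsSquare (-1 : F) := by simpa using isSquare_algebraMap_complex (F := F) (-1)
    have := h1.mul hx
    rwa [neg_one_mul] at this
  have hX21 : (X ^ 2 - 1 : F[X]) ≠ 0 := by
    have : (X ^ 2 - C (1:F)) ≠ 0 := (monic_X_pow_sub_C (1:F) two_ne_zero).ne_zero
    simpa using this
  have hlc1 : (X ^ 2 - 1 : F[X]).leadingCoeff = 1 := by
    have := (monic_X_pow_sub_C (1:F) two_ne_zero).leadingCoeff
    simpa using this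
  have hdeg1 : (X ^ 2 - 1 : F[X]).natDegree = 2 := by
    have := natDegree_X_pow_sub_C (n := 2) (r := (1:F))
    simpa using this
  have hntd1 : (X ^ 2 - 1 : F[X]).natTrailingDegree = 0 := by
    rw [natTrailingDegree_eq_zero]; right; simp
  have htc1 : (X ^ 2 - 1 : F[X]).trailingCoeff = -1 := by
    rw [trailingCoeff, hntd1]; simp
  have hchi1 : IsSquare (chi (X ^ 2 - 1 : F[X])) := by
    rw [chi, hlc1, htc1, mul_one]
    exact hneg 1 ⟨1, by simp⟩
  by_cases hA : A = 0
  · subst hA
    have e : (X * (0:F[X]) ^ 2 - (X ^ 2 - 1) * B ^ 2) = C (-1) * ((X ^ 2 - 1) * B ^ 2) := by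
      simp
    rw [e, chi_mul, chi_C, chi_mul]
    exact IsSquare.mul ⟨_, sq _⟩ (hchi1.mul (isSquare_chi_sq B))
  by_cases hB : B = 0
  · subst hB
    have e : (X * A ^ 2 - (X ^ 2 - 1) * (0:F[X]) ^ 2) = X * A ^ 2 := by simp
    rw [e, chi_mul, chi_X, one_mul]
    exact isSquare_chi_sq A
  have hXA : X * A ^ 2 ≠ 0 := mul_ne_zero X_ne_zero (pow_ne_zero _ hA)
  have hXB : (X ^ 2 - 1) * B ^ 2 ≠ 0 := mul_ne_zero hX21 (pow_ne_zero _ hB)
  have d1 : (X * A ^ 2).natDegree = 2 * A.natDegree + 1 := by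
    rw [natDegree_mul X_ne_zero (pow_ne_zero _ hA), natDegree_X, natDegree_pow]; ring
  have d2 : ((X ^ 2 - 1) * B ^ 2).natDegree = 2 * B.natDegree + 2 := by
    rw [natDegree_mul hX21 (pow_ne_zero _ hB), hdeg1, natDegree_pow]; ring
  have t1 : (X * A ^ 2).natTrailingDegree = 2 * A.natTrailingDegree + 1 := by
    rw [natTrailingDegree_mul X_ne_zero (pow_ne_zero _ hA), natTrailingDegree_X,
      sq, natTrailingDegree_mul hA hA]; ring
  have t2 : ((X ^ 2 - 1) * B ^ 2).natTrailingDegree = 2 * B.natTrailingDegree := by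
    rw [natTrailingDegree_mul hX21 (pow_ne_zero _ hB), hntd1,
      sq, natTrailingDegree_mul hB hB]; ring
  have l1 : (X * A ^ 2).leadingCoeff = A.leadingCoeff ^ 2 := by
    rw [leadingCoeff_mul, leadingCoeff_X, one_mul, leadingCoeff_pow]
  have l2 : ((X ^ 2 - 1) * B ^ 2).leadingCoeff = B.leadingCoeff ^ 2 := by
    rw [leadingCoeff_mul, hlc1, one_mul, leadingCoeff_pow]
  have s1 : (X * A ^ 2).trailingCoeff = A.trailingCoeff ^ 2 := by
    have : (X : F[X]).trailingCoeff = 1 := by simp [trailingCoeff]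
    rw [trailingCoeff_mul, this, one_mul, sq, trailingCoeff_mul, sq]
  have s2 : ((X ^ 2 - 1) * B ^ 2).trailingCoeff = - B.trailingCoeff ^ 2 := by
    rw [trailingCoeff_mul, htc1, sq, trailingCoeff_mul, sq]; ring
  rw [chi]
  refine IsSquare.mul ?_ ?_
  · rcases lt_or_gt_of_ne (show (X * A ^ 2).natTrailingDegree ≠
      ((X ^ 2 - 1) * B ^ 2).natTrailingDegree by rw [t1, t2]; omega) with hlt | hlt
    · rw [sub_eq_add_neg, trailingCoeff_add_of_lt hXA (by rwa [natTrailingDegree_neg]), s1]
      exact ⟨_, sq _⟩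
    · rw [sub_eq_add_neg, add_comm, trailingCoeff_add_of_lt (neg_ne_zero.mpr hXB)
        (by rwa [natTrailingDegree_neg])]
      have : (-((X ^ 2 - 1) * B ^ 2)).trailingCoeff = B.trailingCoeff ^ 2 := by
        rw [trailingCoeff, natTrailingDegree_neg, coeff_neg]
        change - ((X ^ 2 - 1) * B ^ 2).trailingCoeff = _
        rw [s2]; ring
      rw [this]
      exact ⟨_, sq _⟩
  · rcases lt_or_gt_of_ne (show (X * A ^ 2).natDegree ≠
      ((X ^ 2 - 1) * B ^ 2).natDegree by rw [d1, d2]; omega) with hlt | hlt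
    · rw [leadingCoeff_sub_of_degree_lt' (degree_lt_degree hlt), l2]
      exact hneg _ ⟨_, sq _⟩
    · rw [leadingCoeff_sub_of_degree_lt (degree_lt_degree hlt), l1]
      exact ⟨_, sq _⟩

end Pool.Agent.Helper395
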