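import Pool.Agent.Helper395.Recip

set_option linter.style.haveILetI false

namespace Pool.Agent.Helper395

open Polynomial UniqueFactorizationMonoid

theorem isSquare_prod_algebraic {F : Type} [Field F] [Algebra ℂ F] {A A' L B : Type}
    [CommRing A] [Algebra ℂ A] [CommRing A'] [CommRing L] [CommRing B] [IsDedekindDomain B]
    (G : ℂ[X]) (hG : G ≠ 0) (hXG : X ∣ G) (t r ψ χ : A) (S : Set A)
    (hgen : ∀ x : A, ∃ p ∈ Algebra.adjoin ℂ ({t, r} : Set A), x - p ∈ Ideal.span S)
    (htr : t ^ 2 - r ^ 2 * t = 1) (hψ : ψ * χ - aeval t G ∈ Ideal.span S)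
    (iA : A →+* A') (iF : F →+* A')
    (hC : iA.comp (algebraMap ℂ A) = iF.comp (algebraMap ℂ F))
    (hA' : ∀ x : A', x ∈ Subring.closure (Set.range iA ∪ Set.range iF))
    [Algebra A' L] [IsLocalization.Away (iA (ψ * aeval t G)) L]
    (θ : L →+* B) (hθ : θ.Finite)
    (hS : ∀ j ∈ S, θ (algebraMap A' L (iA j)) = 0) [Algebra F B]
    (hFB : algebraMap F B = θ.comp ((algebraMap A' L).comp iF)) (h : B) (hh : h ≠ 0) :
    IsSquare (((normalizedFactors (Ideal.span {h})).map fun 𝔪 =>
      Algebra.norm F (Ideal.Quotient.mk 𝔪 (θ (algebraMap A' L (iA t))))).prod) := by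
  by_cases hBf : IsField B
  · have : IsUnit h := by
      obtain ⟨y, hy⟩ := hBf.mul_inv_cancel hh
      exact IsUnit.of_mul_eq_one y hy
    rw [Ideal.span_singleton_eq_top.mpr this]
    rw [← Ideal.one_eq_top, normalizedFactors_one, Multiset.map_zero, Multiset.prod_zero]
    exact ⟨1, by simp⟩
  let μ : A →+* B := θ.comp ((algebraMap A' L).comp iA)
  let τ : B := μ t
  let ρ : B := μ r
  have hμS : ∀ x ∈ Ideal.span S, μ x = 0 := by
    intro x hx
    have : Ideal.span S ≤ RingHom.ker μ := Ideal.span_le.mpr fun j hj => hS j hj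
    exact this hx
  have hμC : ∀ z : ℂ, μ (algebraMap ℂ A z) = algebraMap F B (algebraMap ℂ F z) := by
    intro z
    have := congrArg (fun f => θ (algebraMap A' L (f z))) hC
    rw [hFB]
    exact this
  have hρτ : ρ ^ 2 * τ = τ ^ 2 - 1 := by
    have := congrArg μ htr
    simp only [map_sub, map_mul, map_pow, map_one] at this
    change μ r ^ 2 * μ t = μ t ^ 2 - 1
    linear_combination -this
  let GF : F[X] := G.map (algebraMap ℂ F)
  let g : B := μ (aeval t G)
  have hg : g = aeval τ GF := by
    change μ (aeval t G) = aeval τ (G.map (algebraMap ℂ F))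
    rw [aeval_def, hom_eval₂, aeval_def, eval₂_map]
    congr 1
    ext z
    exact hμC z
  have hunit : IsUnit (μ (ψ * aeval t G)) := by
    have := IsLocalization.Away.algebraMap_isUnit (S := L) (iA (ψ * aeval t G))
    exact this.map θ
  have hgu : IsUnit g := by
    rw [map_mul] at hunit
    exact isUnit_of_mul_isUnit_right hunit
  let P := Localization.Away GF
  let lam : P →+* B := IsLocalization.Away.lift GF (g := (aeval τ : F[X] →ₐ[F] B).toRingHom)
    (by change IsUnit (aeval τ GF); rw [← hg]; exact hgu)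
  have hlam : ∀ f : F[X], lam (algebraMap F[X] P f) = aeval τ f := fun f =>
    IsLocalization.Away.lift_eq _ _ _
  letI : Algebra P B := lam.toAlgebra
  have : IsScalarTower F P B := by
    refine IsScalarTower.of_algebraMap_eq fun x => ?_
    rw [IsScalarTower.algebraMap_apply F F[X] P]
    change _ = lam _
    rw [hlam]; simp
  have hGF : GF ≠ 0 := (Polynomial.map_ne_zero_iff (algebraMap ℂ F).injective).mpr hG
  have hM : Submonoid.powers GF ≤ nonZeroDivisors F[X] :=
    powers_le_nonZeroDivisors_of_noZeroDivisors hGF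
  have hdomP : IsDomain P := IsLocalization.isDomain_of_le_nonZeroDivisors P hM
  have hdedP : IsDedekindDomain P := IsLocalization.isDedekindDomain F[X] hM P
  -- finiteness
  have hxunit : IsUnit (algebraMap F[X] P X) := by
    have h1 := IsLocalization.Away.algebraMap_isUnit (S := P) GF
    refine isUnit_of_dvd_unit (map_dvd (algebraMap F[X] P) ?_) h1
    obtain ⟨G', hG'⟩ := hXG
    exact ⟨G'.map (algebraMap ℂ F), by simp [GF, hG']⟩
  obtain ⟨y, hy⟩ := hxunit.exists_right_inv
  have hτ : lam (algebraMap F[X] P X) = τ := by rw [hlam]; simp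
  have hτy : τ * lam y = 1 := by
    rw [← hτ, ← map_mul, hy, map_one]
  have hint : IsIntegral P ρ := by
    refine ⟨X ^ 2 - C ((algebraMap F[X] P (X ^ 2 - 1)) * y),
      monic_X_pow_sub_C _ two_ne_zero, ?_⟩
    rw [eval₂_sub, eval₂_pow, eval₂_X, eval₂_C, map_mul]
    change ρ ^ 2 - lam _ * lam y = 0
    rw [map_sub, map_pow, map_one, map_sub, map_pow, map_one, hτ]
    linear_combination (-(ρ ^ 2)) * hτy + (lam y) * hρτ
  let Q : Subalgebra P B := Algebra.adjoin P {ρ}
  have hQfin : Module.Finite P Q := by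
    refine Module.Finite.of_fg (N := Subalgebra.toSubmodule Q) ?_
    exact hint.fg_adjoin_singleton
  have hmemP : ∀ x : P, lam x ∈ Q := fun x => Q.algebraMap_mem x
  have hmemF : ∀ x : F, algebraMap F B x ∈ Q := by
    intro x
    rw [IsScalarTower.algebraMap_apply F P B]
    exact hmemP _
  have hmem1 : ∀ a : A, μ a ∈ Q := by
    intro a
    obtain ⟨p, hp, hap⟩ := hgen a
    have h1 : μ a = μ p := by
      have := hμS _ hap
      rwa [map_sub, sub_eq_zero] at this
    rw [h1]
    clear h1 hap
    induction hp using Algebra.adjoin_induction with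
    | mem x hx =>
      rcases hx with rfl | rfl
      · change τ ∈ Q
        rw [← hτ]; exact hmemP _
      · exact Algebra.self_mem_adjoin_singleton P _
    | algebraMap z => rw [hμC]; exact hmemF _
    | add x y _ _ hx hy => rw [map_add]; exact Q.add_mem hx hy
    | mul x y _ _ hx hy => rw [map_mul]; exact Q.mul_mem hx hy
  have hmem2 : ∀ x : A', θ (algebraMap A' L x) ∈ Q := by
    intro x
    have hx := hA' x
    induction hx using Subring.closure_induction with
    | mem x hx =>
      rcases hx with ⟨a, rfl⟩ | ⟨f, rfl⟩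
      · exact hmem1 a
      · have := hmemF f
        rw [hFB] at this
        exact this
    | zero => rw [map_zero, map_zero]; exact Q.zero_mem
    | one => rw [map_one, map_one]; exact Q.one_mem
    | add x y _ _ hx hy => rw [map_add, map_add]; exact Q.add_mem hx hy
    | neg x _ hx => rw [map_neg, map_neg]; exact Q.neg_mem hx
    | mul x y _ _ hx hy => rw [map_mul, map_mul]; exact Q.mul_mem hx hy
  obtain ⟨g', hg'⟩ := (IsLocalization.Away.algebraMap_isUnit (S := P) GF).exists_right_inv
  have hgg' : g * lam g' = 1 := by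
    rw [hg, ← hlam, ← map_mul, hg', map_one]
  let β : B := μ (ψ * aeval t G)
  let β' : B := μ χ * (lam g') ^ 2
  have hβ' : β' ∈ Q := Q.mul_mem (hmem1 χ) (Q.pow_mem (hmemP g') 2)
  have hψχ : μ ψ * μ χ = g := by
    have := hμS _ hψ
    rw [map_sub, map_mul, sub_eq_zero] at this
    exact this
  have hββ' : β * β' = 1 := by
    change μ (ψ * aeval t G) * (μ χ * (lam g') ^ 2) = 1
    rw [map_mul]
    change μ ψ * g * (μ χ * (lam g') ^ 2) = 1
    linear_combination (g * lam g' ^ 2) * hψχ + (g * lam g' + 1) * hgg'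
  have hmem3 : ∀ x : L, θ x ∈ Q := by
    intro x
    obtain ⟨n, x', hx'⟩ := IsLocalization.Away.surj (iA (ψ * aeval t G)) x
    have h1 : θ x * β ^ n = θ (algebraMap A' L x') := by
      rw [← hx', map_mul, map_pow]; rfl
    have h2 : θ x = θ (algebraMap A' L x') * β' ^ n := by
      rw [← h1, mul_assoc, ← mul_pow, hββ', one_pow, mul_one]
    rw [h2]
    exact Q.mul_mem (hmem2 x') (Q.pow_mem hβ' n)
  have hfin : Module.Finite P B := by
    let θ' : L →+* Q := θ.codRestrict Q hmem3
    have h1 : (algebraMap Q B).comp θ' = θ := by ext x; rfl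
    have h2 : (algebraMap Q B).Finite := RingHom.Finite.of_comp_finite (f := θ') (h1 ▸ hθ)
    have h3 : Module.Finite Q B := by
      rw [← RingHom.finite_algebraMap]
      exact h2
    exact Module.Finite.trans Q B
  have hinj : Function.Injective (algebraMap P B) := by
    rw [injective_iff_map_eq_zero]
    by_contra hcon
    push Not at hcon
    obtain ⟨x, hx, hx0⟩ := hcon
    apply hBf
    have h1 : ((⊥ : Ideal B).comap (algebraMap P B)) ≠ ⊥ := by
      intro h0
      have : x ∈ (⊥ : Ideal B).comap (algebraMap P B) := by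
        rw [Ideal.mem_comap, hx]; exact Ideal.zero_mem _
      rw [h0] at this
      exact hx0 this
    have h2 : ((⊥ : Ideal B).comap (algebraMap P B)).IsMaximal :=
      (Ideal.IsPrime.comap (algebraMap P B) (K := (⊥ : Ideal B))).isMaximal h1
    have h3 : (⊥ : Ideal B).IsMaximal :=
      Ideal.isMaximal_of_isIntegral_of_isMaximal_comap ⊥ h2
    exact Ring.isField_iff_maximal_bot.mpr h3
  have : FaithfulSMul P B := (faithfulSMul_iff_algebraMap_injective P B).mpr hinj
  exact reciprocity G hG hXG (P := P) τ ρ hτ.symm hρτ h hh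

end Pool.Agent.Helper395
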