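import Pool.Agent.Helper395.Functional
import Pool.Agent.Helper395.FiniteCase

open AlgebraicGeometry CategoryTheory CategoryTheory.Limits UniqueFactorizationMonoid Polynomial

set_option linter.style.haveILetI false

namespace Pool.Agent.Helper395

/-- The property of the local equation of the singularity that is used. -/
def SquareProperty {A : Type} [CommRing A] (t : A) (S : Set A) : Prop :=
  ∀ (D : Type) [CommRing D] [IsDomain D] [IsDiscreteValuationRing D] (θ : A →+* D),
    (∀ j ∈ S, θ j ∈ IsLocalRing.maximalIdeal D) → (∃ j ∈ S, θ j ≠ 0) →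
    IsSquare (IsLocalRing.residue D (θ t))

theorem mem_preimage_basicOpen {A : Type} [CommRing A] {W : Scheme.{0}} (j : W ⟶ Spec (.of A))
    (b : A) (w : W) :
    w ∈ j ⁻¹ᵁ (PrimeSpectrum.basicOpen b) ↔ ptEval j w b ≠ 0 := by
  have h1 : Spec.map (CommRingCat.ofHom (ptEval j w)) (IsLocalRing.closedPoint _) = j w := by
    rw [spec_ptEval]
    exact congrArg j (Scheme.fromSpecResidueField_apply w _)
  change j w ∈ PrimeSpectrum.basicOpen b ↔ _
  rw [← h1]
  change ¬ (ptEval j w b ∈ IsLocalRing.maximalIdeal (W.residueField w)) ↔ _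
  rw [IsLocalRing.maximalIdeal_eq_bot]
  rfl

theorem appLE_secEval {A : Type} [CommRing A] {W W' : Scheme.{0}} (g : W' ⟶ W)
    (a : W ⟶ Spec (.of A)) (U : W.Opens) (V : W'.Opens) (e : V ≤ g ⁻¹ᵁ U) :
    (g.appLE U V e).hom.comp (secEval a U) = secEval (g ≫ a) V := by
  have h := Scheme.Hom.appLE_comp_appLE g a ⊤ U V le_top e
  have h2 : ((Scheme.ΓSpecIso (.of A)).inv ≫ a.appLE ⊤ U le_top) ≫ g.appLE U V e =
      (Scheme.ΓSpecIso (.of A)).inv ≫ (g ≫ a).appLE ⊤ V le_top := by
    rw [Category.assoc, h]
  exact congrArg CommRingCat.Hom.hom h2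

theorem secEval_map {A B : Type} [CommRing A] [CommRing B] {W : Scheme.{0}} (i : B →+* A)
    (a : W ⟶ Spec (.of A)) (U : W.Opens) :
    secEval (a ≫ Spec.map (CommRingCat.ofHom i)) U = (secEval a U).comp i := by
  have h : (Scheme.ΓSpecIso (.of B)).inv ≫
      (a ≫ Spec.map (CommRingCat.ofHom i)).appLE ⊤ U le_top =
      CommRingCat.ofHom i ≫ (Scheme.ΓSpecIso (.of A)).inv ≫ a.appLE ⊤ U le_top := by
    have h1 := Scheme.Hom.comp_appLE a (Spec.map (CommRingCat.ofHom i)) ⊤ U le_top
    have h2 := Scheme.ΓSpecIso_inv_naturality (CommRingCat.ofHom i)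
    calc _ = (Scheme.ΓSpecIso (.of B)).inv ≫
          ((Spec.map (CommRingCat.ofHom i)).app ⊤ ≫ a.appLE _ U le_top) := congrArg _ h1
      _ = ((Scheme.ΓSpecIso (.of B)).inv ≫ (Spec.map (CommRingCat.ofHom i)).appTop) ≫
          a.appLE ⊤ U le_top := (Category.assoc _ _ _).symm
      _ = (CommRingCat.ofHom i ≫ (Scheme.ΓSpecIso (.of A)).inv) ≫ a.appLE ⊤ U le_top :=
          congrArg (· ≫ a.appLE ⊤ U le_top) h2.symm
      _ = _ := Category.assoc _ _ _
  exact congrArg CommRingCat.Hom.hom h

theorem secEval_res {A : Type} [CommRing A] {W : Scheme.{0}}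
    (a : W ⟶ Spec (.of A)) (U : W.Opens) (x : A) (hx : secEval a ⊤ x = 0) :
    secEval a U x = 0 := by
  have h := appLE_secEval (𝟙 W) a ⊤ U le_top
  rw [Category.id_comp] at h
  rw [← h, RingHom.comp_apply, hx, map_zero]

set_option backward.isDefEq.respectTransparency.types false in
theorem isLocalization_secEval (R : CommRingCat.{0}) (b : R) :
    @IsLocalization.Away R _ b Γ(Spec R, PrimeSpectrum.basicOpen b) _
      (secEval (A := R) (𝟙 (Spec R)) (PrimeSpectrum.basicOpen b)).toAlgebra := by
  have h1 : IsLocalization.Away b Γ(Spec R, PrimeSpectrum.basicOpen b) := inferInstance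
  have h2 : (secEval (A := R) (𝟙 (Spec R)) (PrimeSpectrum.basicOpen b)) =
      algebraMap R Γ(Spec R, PrimeSpectrum.basicOpen b) := by
    rw [IsAffineOpen.algebraMap_Spec_obj]
    have : (𝟙 (Spec R) : Spec R ⟶ Spec R).appLE ⊤ (PrimeSpectrum.basicOpen b) le_top =
        (Spec R).presheaf.map (homOfLE le_top).op := by
      simp [Scheme.Hom.appLE]
    exact congrArg (fun f => ((Scheme.ΓSpecIso R).inv ≫ f).hom) this
  convert! h1 using 1
  apply Algebra.algebra_ext
  intro x
  exact congrArg (fun f => f x) h2

theorem claimA {F : Type} [Field F] [Algebra ℂ F] {A A' : Type} [CommRing A] [Algebra ℂ A]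
    [CommRing A'] {W C : Scheme.{0}} (G : ℂ[X]) (hG : G ≠ 0) (hXG : X ∣ G) (t r ψ χ : A)
    (S : Set A) (hgen : ∀ x : A, ∃ p ∈ Algebra.adjoin ℂ ({t, r} : Set A), x - p ∈ Ideal.span S)
    (htr : t ^ 2 - r ^ 2 * t = 1) (hψ : ψ * χ - aeval t G ∈ Ideal.span S)
    (hsq : SquareProperty t S)
    (iA : A →+* A') (iF : F →+* A')
    (hC : iA.comp (algebraMap ℂ A) = iF.comp (algebraMap ℂ F))
    (hA' : ∀ x : A', x ∈ Subring.closure (Set.range iA ∪ Set.range iF))
    (j : W ⟶ Spec (.of A')) [IsOpenImmersion j]
    (hj : PrimeSpectrum.basicOpen (iA ψ) ≤ j.opensRange)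
    [IsIntegral C] [IsLocallyNoetherian C] (hCreg : RegCurve C) (π : C ⟶ W) [IsFinite π]
    (h : C.functionField) (hh : h ≠ 0) (z : ZeroCycle C)
    (hz : ∀ c : ClosedPt C, z c = Scheme.ord h c.1) :
    IsSquare (phi (j ≫ Spec.map (CommRingCat.ofHom iA)) (j ≫ Spec.map (CommRingCat.ofHom iF))
      t (ψ * aeval t G) S (pushforward π z)) := by
  rw [phi_pushforward]
  set a := π ≫ j ≫ Spec.map (CommRingCat.ofHom iA) with ha
  set s := π ≫ j ≫ Spec.map (CommRingCat.ofHom iF) with hs
  have hstalk : ∀ (c : C) (x : A), stalkEval a c x = 0 ↔ secEval a ⊤ x = 0 := by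
    intro c x
    rw [← germ_secEval a ⊤ c trivial, RingHom.comp_apply]
    constructor
    · intro h0
      exact germ_injective_of_isIntegral (X := C) (U := ⊤) c trivial (h0.trans (map_zero _).symm)
    · intro h0; rw [h0, map_zero]
  have htu : t * (t - r ^ 2) = 1 := by linear_combination htr
  by_cases hcase : ∀ x ∈ S, secEval a ⊤ x = 0
  · -- the curve lies over the singular locus
    let b' : A' := iA (ψ * aeval t G)
    let D : (Spec (.of A')).Opens := PrimeSpectrum.basicOpen b'
    have hDj : D ≤ j.opensRange := by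
      refine le_trans ?_ hj
      change PrimeSpectrum.basicOpen b' ≤ PrimeSpectrum.basicOpen (iA ψ)
      rw [show b' = iA ψ * iA (aeval t G) from map_mul iA _ _]
      exact PrimeSpectrum.basicOpen_mul_le_left _ _
    have hDaff : IsAffineOpen D := IsAffineOpen.Spec_basicOpen (R := .of A') b'
    let V : W.Opens := j ⁻¹ᵁ D
    have hV : IsAffineOpen V := hDaff.preimage_of_isOpenImmersion j hDj
    let U : C.Opens := π ⁻¹ᵁ V
    have hU : IsAffineOpen U := hV.preimage π
    have hbU : ∀ c : C, c ∈ U ↔ ptEval a c (ψ * aeval t G) ≠ 0 := by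
      intro c
      have h1 : c ∈ U ↔ c ∈ (π ≫ j) ⁻¹ᵁ D := Iff.rfl
      rw [h1, mem_preimage_basicOpen, ha]
      have h2 := ptEval_map iA (π ≫ j) c
      rw [Category.assoc] at h2
      rw [h2]
      rfl
    rcases isEmpty_or_nonempty U with hemp | hnon
    · apply isSquare_phi_of_locFactor
      intro c hc
      rw [locFactor, dif_neg]
      · exact IsSquare.one
      · intro hcond
        exact hemp.false ⟨c.1, (hbU c.1).mpr hcond.2.1⟩
    · have hded := hCreg.isDedekindDomain U hU
      let L := Γ(Spec (.of A'), D)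
      letI : Algebra A' L := (secEval (𝟙 (Spec (.of A'))) D).toAlgebra
      have hloc : IsLocalization.Away b' L := isLocalization_secEval (.of A') b'
      let θ : L →+* Γ(C, U) := (j.app D ≫ π.app V).hom
      have hθ : θ.Finite := by
        have h1 : (π.app V).hom.Finite := IsFinite.finite_app π V hV
        have h2 : IsIso (j.app D) := j.isIso_app D hDj
        have h3 : (j.app D).hom.Finite :=
          RingHom.Finite.of_surjective _ (ConcreteCategory.bijective_of_isIso (j.app D)).2
        exact h1.comp h3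
      have hθalg : θ.comp (algebraMap A' L) = secEval (π ≫ j) U := by
        have h1 : (j.app D ≫ π.app V) = (π ≫ j).appLE D U le_rfl := by
          rw [Scheme.Hom.app_eq_appLE, Scheme.Hom.app_eq_appLE,
            Scheme.Hom.appLE_comp_appLE]
        have h2 := appLE_secEval (π ≫ j) (𝟙 (Spec (.of A'))) D U le_rfl
        rw [Category.comp_id] at h2
        rw [← h2]
        change (j.app D ≫ π.app V).hom.comp _ = _
        rw [h1]
        rfl
      have hmap : ∀ {K : Type} [CommRing K] (i : K →+* A'),
          secEval (π ≫ j ≫ Spec.map (CommRingCat.ofHom i)) U =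
            θ.comp ((algebraMap A' L).comp i) := by
        intro K _ i
        rw [← RingHom.comp_assoc, hθalg, ← secEval_map, Category.assoc]
      letI : Algebra F Γ(C, U) := (secEval s U).toAlgebra
      have hmain := isSquare_prod_algebraic G hG hXG t r ψ χ S hgen htr hψ iA iF hC hA' θ hθ
        (by
          intro x hx
          have h1 := secEval_res a U x (hcase x hx)
          rw [ha, hmap iA] at h1
          exact h1) (hmap iF)
      refine hCreg.isSquare_prod U hU _ _ ?_ ?_ hmain h hh z hz
      · intro c hc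
        rw [locFactor, dif_neg]
        intro hcond
        exact hc ((hbU c.1).mpr hcond.2.1)
      · intro c hc
        have hmax := hU.primeIdealOf_isMaximal_of_isClosed ⟨c.1, hc⟩ c.2
        have ht0 : ptEval a c.1 t ≠ 0 := by
          intro h0
          have h1 := congrArg (ptEval a c.1) htu
          rw [map_mul, h0, zero_mul, map_one] at h1
          exact zero_ne_one h1
        rw [locFactor_of_pos _ _ _ _ _ _ _ ((hbU c.1).mp hc) ht0]
        · have h1 : θ (algebraMap A' L (iA t)) = secEval a U t := by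
            rw [ha, hmap iA]; rfl
          rw [h1, norm_quotient_eq hU ⟨c.1, hc⟩]
          have h2 := evaluation_secEval s U c.1 hc
          have h3 := evaluation_secEval a U c.1 hc
          change fieldNorm (ptEval s c.1) (ptEval a c.1 t) =
            fieldNorm ((C.evaluation U c.1 hc).hom.comp (secEval s U))
              ((C.evaluation U c.1 hc) (secEval a U t))
          rw [h2, ← h3]
          rfl
        · intro x hx
          have h1 := (hstalk c.1 x).mpr (hcase x hx)
          rw [ptEval, RingHom.comp_apply, h1, map_zero]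
  · -- the generic point lies outside
    push Not at hcase
    obtain ⟨x₀, hx₀, hne⟩ := hcase
    apply isSquare_phi_of_locFactor
    intro c hc
    have hgen : c.1 ≠ genericPoint C := by
      intro hc'
      apply hc
      rw [hz c, hc']
      apply Scheme.ord_eq_zero_of_coheight_neq_one
      rw [coheight_genericPoint]; exact zero_ne_one
    have hdvr := hCreg c.1 hgen
    rw [locFactor]
    split_ifs with hcond
    · have h1 : IsSquare (IsLocalRing.residue (C.presheaf.stalk c.1) (stalkEval a c.1 t)) := by
        apply hsq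
        · intro x hx
          rw [← IsLocalRing.residue_eq_zero_iff]
          exact hcond.1 x hx
        · refine ⟨x₀, hx₀, fun h0 => hne ((hstalk c.1 x₀).mp h0)⟩
      obtain ⟨y, hy⟩ := isSquare_fieldNorm (ptEval s c.1) h1
      have hne' := fieldNorm_ne_zero (ptEval s c.1) hcond.2.2
      have hy0 : y ≠ 0 := by
        rintro rfl
        apply hne'
        rw [mul_zero] at hy
        exact hy
      exact ⟨Units.mk0 y hy0, Units.ext hy⟩
    · exact IsSquare.one

end Pool.Agent.Helper395
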