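import Pool.Agent.Helper395.ClaimA

open AlgebraicGeometry CategoryTheory CategoryTheory.Limits

set_option linter.style.haveILetI false

namespace Pool.Agent.Helper395

theorem arc_of_smooth {F : Type} [Field F] [Algebra ℂ F] {V : Scheme.{0}}
    (s : V ⟶ Spec (.of F)) [hs : Smooth s] (c : V) (x : V.presheaf.stalk c) (hx : x ≠ 0) :
    ∃ θ : V.presheaf.stalk c →+* PowerSeries (IsLocalRing.ResidueField (V.presheaf.stalk c)),
      (∀ y, PowerSeries.constantCoeff (θ y) = IsLocalRing.residue (V.presheaf.stalk c) y) ∧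
        θ x ≠ 0 := by
  have hF0 : CharZero F := charZero_of_injective_algebraMap (algebraMap ℂ F).injective
  have hFinf : Infinite F := inferInstance
  obtain ⟨_, ⟨V', hV', rfl⟩, hcV', -⟩ :=
    V.isBasis_affineOpens.exists_subset_of_mem_open (Set.mem_univ c) isOpen_univ
  have h1 := s.smooth_appLE (isAffineOpen_top _) hV' le_top
  have h2 : (secEval s V').Smooth := by
    have h3 := RingHom.Smooth.respectsIso.2 (s.appLE ⊤ V' le_top).hom
      (Scheme.ΓSpecIso (.of F)).symm.commRingCatIsoToRingEquiv h1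
    exact h3
  letI : Algebra F Γ(V, V') := (secEval s V').toAlgebra
  have h3 : Algebra.Smooth F Γ(V, V') := h2
  let _ := V.presheaf.algebra_section_stalk ⟨c, hcV'⟩
  have h4 := hV'.isLocalization_stalk ⟨c, hcV'⟩
  letI : Algebra F (V.presheaf.stalk c) :=
    ((algebraMap Γ(V, V') (V.presheaf.stalk c)).comp (algebraMap F Γ(V, V'))).toAlgebra
  have : IsScalarTower F Γ(V, V') (V.presheaf.stalk c) :=
    IsScalarTower.of_algebraMap_eq fun _ => rfl
  have h5 : Algebra.FormallySmooth Γ(V, V') (V.presheaf.stalk c) :=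
    Algebra.FormallySmooth.of_isLocalization (hV'.primeIdealOf ⟨c, hcV'⟩).asIdeal.primeCompl
  have h6 : Algebra.FormallySmooth F (V.presheaf.stalk c) :=
    Algebra.FormallySmooth.comp F Γ(V, V') (V.presheaf.stalk c)
  have h7 : IsNoetherianRing Γ(V, V') := Algebra.FiniteType.isNoetherianRing F _
  have h8 : IsNoetherianRing (V.presheaf.stalk c) :=
    IsLocalization.isNoetherianRing (hV'.primeIdealOf ⟨c, hcV'⟩).asIdeal.primeCompl _ h7
  have h9 : Algebra.EssFiniteType Γ(V, V') (V.presheaf.stalk c) :=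
    Algebra.EssFiniteType.of_isLocalization _ (hV'.primeIdealOf ⟨c, hcV'⟩).asIdeal.primeCompl
  have h10 : Algebra.EssFiniteType F (V.presheaf.stalk c) :=
    Algebra.EssFiniteType.comp F Γ(V, V') _
  have h11 : Algebra.EssFiniteType F (IsLocalRing.ResidueField (V.presheaf.stalk c)) :=
    Algebra.EssFiniteType.comp F (V.presheaf.stalk c) _
  have h12 : Infinite (IsLocalRing.ResidueField (V.presheaf.stalk c)) :=
    Infinite.of_injective _ (algebraMap F
      (IsLocalRing.ResidueField (V.presheaf.stalk c))).injective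
  exact exists_arc (F := F) x hx

theorem isOpen_germ_eq_zero {V : Scheme.{0}} (x : Γ(V, ⊤)) :
    IsOpen {v : V | V.presheaf.germ ⊤ v trivial x = 0} := by
  rw [isOpen_iff_forall_mem_open]
  intro v hv
  have hvt : v ∈ (⊤ : V.Opens) := TopologicalSpace.Opens.mem_top v
  obtain ⟨W, hW, i, i', h⟩ := V.presheaf.germ_eq v hvt hvt x 0
    ((show V.presheaf.germ ⊤ v trivial x = 0 from hv).trans (map_zero _).symm)
  refine ⟨W, ?_, W.2, hW⟩
  intro w hw
  have h1 : V.presheaf.germ ⊤ w trivial x = V.presheaf.germ W w hw (V.presheaf.map i.op x) := by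
    rw [TopCat.Presheaf.germ_res_apply]
  change V.presheaf.germ ⊤ w trivial x = 0
  rw [h1, h, map_zero, map_zero]

/-- The elements of `S` do not all vanish near a point of a birational modification. -/
theorem exists_stalkEval_ne_zero {A : Type} [CommRing A] (S : Set A) (hS : S.Finite)
    (hnd : ∀ (𝔭 : Ideal A) (x : A), 𝔭.IsPrime → x ∉ 𝔭 → ¬ ∀ j ∈ S, x * j = 0)
    (U : (Spec (.of A)).Opens) {V : Scheme.{0}} (f : V ⟶ U) (hbir : IsBirationalMorphism f)
    (v : V) : ∃ j ∈ S, stalkEval (f ≫ U.ι) v j ≠ 0 := by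
  by_contra hcon
  push Not at hcon
  let σ := secEval (f ≫ U.ι) ⊤
  have hopen : IsOpen (⋂ j ∈ S, {w : V | V.presheaf.germ ⊤ w trivial (σ j) = 0}) :=
    hS.isOpen_biInter fun j _ => isOpen_germ_eq_zero _
  have hmem : ∀ w, w ∈ (⋂ j ∈ S, {w : V | V.presheaf.germ ⊤ w trivial (σ j) = 0}) ↔
      ∀ j ∈ S, stalkEval (f ≫ U.ι) w j = 0 := by
    intro w
    simp only [Set.mem_iInter, Set.mem_ofPred_eq]
    have : ∀ j, V.presheaf.germ ⊤ w trivial (σ j) = stalkEval (f ≫ U.ι) w j := by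
      intro j
      rw [← germ_secEval (f ≫ U.ι) ⊤ w trivial]; rfl
    simp only [this]
  obtain ⟨V₀, -, hdense, hiso⟩ := hbir
  obtain ⟨v', hv'1, hv'2⟩ := hdense.inter_open_nonempty _ hopen ⟨v, (hmem v).mpr hcon⟩
  rw [hmem] at hv'1
  let g : (f ⁻¹ᵁ V₀).toScheme ⟶ Spec (.of A) := (f ⁻¹ᵁ V₀).ι ≫ f ≫ U.ι
  have hg : IsOpenImmersion g := by
    have : g = (f ∣_ V₀) ≫ V₀.ι ≫ U.ι := by
      simp [g]
    rw [this]
    infer_instance
  let w : (f ⁻¹ᵁ V₀).toScheme := ⟨v', hv'2⟩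
  have h1 : ∀ j ∈ S, stalkEval g w j = 0 := by
    intro j hj
    rw [← stalkEval_naturality (f ⁻¹ᵁ V₀).ι (f ≫ U.ι) w, RingHom.comp_apply]
    exact (congrArg (fun y => ((f ⁻¹ᵁ V₀).ι.stalkMap w).hom y) (hv'1 j hj)).trans (map_zero _)
  have h2 : ∀ j ∈ S, stalkEval (𝟙 (Spec (.of A))) (g w) j = 0 := by
    intro j hj
    have h3 := h1 j hj
    have h4 := stalkEval_naturality g (𝟙 (Spec (.of A))) w
    rw [Category.comp_id] at h4
    rw [← h4, RingHom.comp_apply] at h3
    have : IsIso (g.stalkMap w) := inferInstance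
    exact (map_eq_zero_iff _ (ConcreteCategory.bijective_of_isIso (g.stalkMap w)).1).mp h3
  -- conclude in the affine scheme
  let Y : Scheme.{0} := Spec (.of A)
  let y : Y := g w
  have hT : IsAffineOpen (⊤ : Y.Opens) := isAffineOpen_top Y
  let y' : (⊤ : Y.Opens) := ⟨y, TopologicalSpace.Opens.mem_top y⟩
  let _ := Y.presheaf.algebra_section_stalk y'
  have hloc := hT.isLocalization_stalk y'
  let 𝔮 := (hT.primeIdealOf y').asIdeal
  have h5 : ∀ j ∈ S, ∃ m ∈ 𝔮.primeCompl, m * secEval (𝟙 Y) ⊤ j = 0 := by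
    intro j hj
    have h6 : algebraMap Γ(Y, ⊤) (Y.presheaf.stalk y) (secEval (𝟙 Y) ⊤ j) = 0 := by
      have h7 := h2 j hj
      rw [← germ_secEval (𝟙 Y) ⊤ (g w) trivial, RingHom.comp_apply] at h7
      exact h7
    obtain ⟨m, hm⟩ := (IsLocalization.map_eq_zero_iff 𝔮.primeCompl _ _).mp h6
    exact ⟨m, m.2, hm⟩
  choose! m hm hm' using h5
  let x : Γ(Y, ⊤) := ∏ j ∈ hS.toFinset, m j
  have hx : x ∈ 𝔮.primeCompl :=
    prod_mem fun j hj => hm j (hS.mem_toFinset.mp hj)
  have hx' : ∀ j ∈ S, x * secEval (𝟙 Y) ⊤ j = 0 := by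
    intro j hj
    obtain ⟨c, hc⟩ : m j ∣ x := Finset.dvd_prod_of_mem _ (hS.mem_toFinset.mpr hj)
    rw [hc]
    linear_combination c * hm' j hj
  have hbij : Function.Bijective (secEval (𝟙 Y) ⊤) := by
    have h8 : (𝟙 Y : Y ⟶ Y).appLE ⊤ ⊤ le_top = 𝟙 _ := by simp [Scheme.Hom.appLE]
    have h9 : (Scheme.ΓSpecIso (.of A)).inv ≫ (𝟙 Y : Y ⟶ Y).appLE ⊤ ⊤ le_top =
        (Scheme.ΓSpecIso (.of A)).inv := by rw [h8]; exact Category.comp_id _
    change Function.Bijective ((Scheme.ΓSpecIso (.of A)).inv ≫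
      (𝟙 Y : Y ⟶ Y).appLE ⊤ ⊤ le_top).hom
    rw [h9]
    exact ConcreteCategory.bijective_of_isIso (Scheme.ΓSpecIso (.of A)).inv
  obtain ⟨x', hx''⟩ := hbij.2 x
  refine hnd (𝔮.comap (secEval (𝟙 Y) ⊤)) x' inferInstance ?_ ?_
  · intro hmem'
    apply hx
    rw [← hx'']
    exact hmem'
  · intro j hj
    apply hbij.1
    rw [map_mul, hx'', hx' j hj, map_zero]

theorem flat_stalkMap_injective {V W : Scheme.{0}} (pr : W ⟶ V) [Flat pr] (c : W) :
    Function.Injective (pr.stalkMap c).hom := by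
  algebraize [(pr.stalkMap c).hom]
  have : Module.FaithfullyFlat (V.presheaf.stalk (pr c)) (W.presheaf.stalk c) :=
    @Module.FaithfullyFlat.of_flat_of_isLocalHom _ _ _ _ _ _ _
      (Flat.stalkMap pr c) (pr.toLRSHom.prop c)
  exact ‹RingHom.FaithfullyFlat _›.injective

theorem claimB {F : Type} [Field F] [Algebra ℂ F] {A : Type} [CommRing A] (S : Set A)
    (hS : S.Finite)
    (hnd : ∀ (𝔭 : Ideal A) (x : A), 𝔭.IsPrime → x ∉ 𝔭 → ¬ ∀ j ∈ S, x * j = 0)
    (t b : A) (hsq : SquareProperty t S)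
    (U : (Spec (.of A)).Opens) {V W : Scheme.{0}} (f : V ⟶ U) (hbir : IsBirationalMorphism f)
    (pr : W ⟶ V) [Flat pr] (s : W ⟶ Spec (.of F)) [Smooth s] (c : W) :
    IsSquare (locFactor (pr ≫ f ≫ U.ι) s t b S c) := by
  rw [locFactor]
  split_ifs with hcond
  · obtain ⟨j, hj, hne⟩ := exists_stalkEval_ne_zero S hS hnd U f hbir (pr c)
    have hne' : stalkEval (pr ≫ f ≫ U.ι) c j ≠ 0 := by
      rw [← stalkEval_naturality pr (f ≫ U.ι) c, RingHom.comp_apply]
      exact (map_ne_zero_iff _ (flat_stalkMap_injective pr c)).mpr hne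
    obtain ⟨θ, hθ1, hθ2⟩ := arc_of_smooth s c _ hne'
    let κ := IsLocalRing.ResidueField (W.presheaf.stalk c)
    have h1 : IsSquare (IsLocalRing.residue (PowerSeries κ)
        ((θ.comp (stalkEval (pr ≫ f ≫ U.ι) c)) t)) := by
      apply hsq
      · intro x hx
        rw [PowerSeries.maximalIdeal_eq_span_X, Ideal.mem_span_singleton, PowerSeries.X_dvd_iff,
          RingHom.comp_apply, hθ1]
        exact hcond.1 x hx
      · exact ⟨j, hj, hθ2⟩
    have h2 : IsSquare (ptEval (pr ≫ f ≫ U.ι) c t) := by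
      obtain ⟨z, hz⟩ := h1
      obtain ⟨z', rfl⟩ := IsLocalRing.residue_surjective z
      rw [← map_mul, ← sub_eq_zero, ← map_sub, IsLocalRing.residue_eq_zero_iff,
        PowerSeries.maximalIdeal_eq_span_X, Ideal.mem_span_singleton, PowerSeries.X_dvd_iff,
        map_sub, map_mul, sub_eq_zero, RingHom.comp_apply, hθ1] at hz
      exact ⟨_, hz⟩
    obtain ⟨y, hy⟩ := isSquare_fieldNorm (ptEval s c) h2
    have hne' := fieldNorm_ne_zero (ptEval s c) hcond.2.2
    have hy0 : y ≠ 0 := by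
      rintro rfl
      apply hne'
      rw [mul_zero] at hy
      exact hy
    exact ⟨Units.mk0 y hy0, Units.ext hy⟩
  · exact IsSquare.one

end Pool.Agent.Helper395
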