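import Pool.Agent.Helper395.Point

open AlgebraicGeometry CategoryTheory CategoryTheory.Limits UniqueFactorizationMonoid

set_option linter.style.haveILetI false

namespace Pool.Agent.Helper395

/-! ### Orders of vanishing and factorizations in Dedekind domains -/

theorem count_eq_of_localization {B D : Type*} [CommRing B] [IsDedekindDomain B] [CommRing D]
    [IsDomain D] [IsDiscreteValuationRing D] [Algebra B D] (𝔪 : Ideal B) [h𝔪 : 𝔪.IsMaximal]
    [IsLocalization.AtPrime D 𝔪] (h : B) (n : ℕ)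
    (hn : IsDiscreteValuationRing.addVal D (algebraMap B D h) = n) :
    (normalizedFactors (Ideal.span {h})).count 𝔪 = n := by
  obtain ⟨ϖ, hϖ⟩ := IsDiscreteValuationRing.exists_irreducible D
  have hmax : IsLocalRing.maximalIdeal D = Ideal.span {ϖ} :=
    (IsDiscreteValuationRing.irreducible_iff_uniformizer ϖ).mp hϖ
  have hmem : ∀ k : ℕ, h ∈ 𝔪 ^ k ↔ k ≤ n := by
    intro k
    have h1 : 𝔪 ^ k = ((𝔪 ^ k).map (algebraMap B D)).comap (algebraMap B D) := by
      rcases Nat.eq_zero_or_pos k with rfl | hk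
      · rw [pow_zero, Ideal.one_eq_top, Ideal.map_top, Ideal.comap_top]
      · symm
        have hrad : (𝔪 ^ k).radical = 𝔪 := by
          rw [Ideal.radical_pow _ hk.ne', h𝔪.isPrime.radical]
        apply IsLocalization.under_map_of_isPrimary_disjoint 𝔪.primeCompl D
        · apply Ideal.isPrimary_of_isMaximal_radical
          rw [hrad]; exact h𝔪
        · rw [Set.disjoint_left]
          intro x hx hx'
          exact hx (Ideal.pow_le_self hk.ne' hx')
    rw [h1, Ideal.mem_comap, Ideal.map_pow, IsLocalization.AtPrime.map_eq_maximalIdeal 𝔪 D, hmax,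
      Ideal.span_singleton_pow, Ideal.mem_span_singleton]
    rw [← IsDiscreteValuationRing.addVal_le_iff_dvd, hn, IsDiscreteValuationRing.addVal_pow,
      IsDiscreteValuationRing.addVal_uniformizer hϖ]
    simp
  apply Ideal.count_normalizedFactors_eq
  · rw [Ideal.span_singleton_le_iff_mem]; exact (hmem n).mpr le_rfl
  · rw [Ideal.span_singleton_le_iff_mem]; intro h'; have := (hmem (n+1)).mp h'; omega

/-! ### Regular curves -/

/-- The stalks at all points except the generic one are discrete valuation rings. -/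
def RegCurve (C : Scheme.{0}) [IsIntegral C] : Prop :=
  ∀ x : C, x ≠ genericPoint C → IsDiscreteValuationRing (C.presheaf.stalk x)

section

variable {C : Scheme.{0}} [IsIntegral C] [IsLocallyNoetherian C]

omit [IsLocallyNoetherian C] in
theorem RegCurve.coheight (hC : RegCurve C) (x : C) (hx : x ≠ genericPoint C) :
    Order.coheight x = 1 := by
  have h1 := hC x hx
  have h2 : ringKrullDim (C.presheaf.stalk x) = 1 :=
    IsDiscreteValuationRing.ringKrullDim_eq_one _
  rw [ringKrullDim_stalk_eq_coheight] at h2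
  exact_mod_cast h2

omit [IsLocallyNoetherian C] in
theorem genericPoint_specializes (x : C) : genericPoint C ⤳ x := by
  exact (genericPoint_spec C).specializes (Set.mem_univ x)

omit [IsLocallyNoetherian C] in
theorem coheight_genericPoint : Order.coheight (genericPoint C) = 0 := by
  rw [Order.coheight_eq_zero]
  intro y hy
  exact Scheme.le_iff_specializes.mpr (genericPoint_specializes y)

omit [IsLocallyNoetherian C] in
theorem RegCurve.isClosed (hC : RegCurve C) (x : C) (hx : x ≠ genericPoint C) :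
    IsClosed ({x} : Set C) := by
  have hsp : ∀ y, x ⤳ y → y = x := by
    intro y hxy
    have hy : y ≠ genericPoint C := by
      rintro rfl
      exact hx (hxy.antisymm (genericPoint_specializes x)).eq
    have := hC y hy
    obtain ⟨p, hp⟩ : x ∈ Set.range (C.fromSpecStalk y) := by
      rw [Scheme.range_fromSpecStalk]; exact hxy
    by_cases hpb : p.asIdeal = ⊥
    · exfalso
      apply hx
      obtain ⟨q, hq⟩ : genericPoint C ∈ Set.range (C.fromSpecStalk y) := by
        rw [Scheme.range_fromSpecStalk]; exact genericPoint_specializes y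
      have h1 : x ⤳ genericPoint C := by
        rw [← hq, ← hp]
        apply Specializes.map _ (C.fromSpecStalk y).continuous
        apply (PrimeSpectrum.le_iff_specializes p q).mp
        change p.asIdeal ≤ q.asIdeal
        rw [hpb]; exact bot_le
      exact (h1.antisymm (genericPoint_specializes x)).eq
    · have hmax : p.asIdeal.IsMaximal := p.2.isMaximal hpb
      have : p = IsLocalRing.closedPoint (C.presheaf.stalk y) :=
        PrimeSpectrum.ext (IsLocalRing.eq_maximalIdeal hmax)
      rw [← hp, this, Scheme.fromSpecStalk_closedPoint]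
  have h2 : closure ({x} : Set C) = {x} := by
    refine Set.Subset.antisymm (fun y hy => ?_) subset_closure
    exact hsp y (specializes_iff_mem_closure.mpr hy)
  rw [← h2]; exact isClosed_closure

theorem primeIdealOf_fromSpec {C : Scheme.{0}} {U : C.Opens} (hU : IsAffineOpen U)
    (y : PrimeSpectrum Γ(C, U)) (hy : hU.fromSpec y ∈ U) :
    hU.primeIdealOf ⟨hU.fromSpec y, hy⟩ = y := by
  apply hU.fromSpec.isOpenEmbedding.injective
  exact hU.fromSpec_primeIdealOf ⟨hU.fromSpec y, hy⟩

omit [IsLocallyNoetherian C] in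
theorem fromSpec_bot {U : C.Opens} (hU : IsAffineOpen U) [Nonempty U] (y : PrimeSpectrum Γ(C, U))
    (hy : y.asIdeal = ⊥) : hU.fromSpec y = genericPoint C := by
  have h1 := hU.primeIdealOf_genericPoint
  rw [genericPoint_eq_bot_of_affine] at h1
  have h2 := congrArg hU.fromSpec h1
  rw [hU.fromSpec_primeIdealOf] at h2
  have h3 : y = ⟨0, Ideal.isPrime_bot⟩ := PrimeSpectrum.ext hy
  rw [h3]
  exact h2.symm

omit [IsLocallyNoetherian C] in
theorem primeIdealOf_ne_bot {U : C.Opens} (hU : IsAffineOpen U) (x : U)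
    (hx : x.1 ≠ genericPoint C) : (hU.primeIdealOf x).asIdeal ≠ ⊥ := by
  intro h
  have : Nonempty U := ⟨x⟩
  apply hx
  rw [← fromSpec_bot hU _ h, hU.fromSpec_primeIdealOf]

omit [IsLocallyNoetherian C] in
theorem fromSpec_ne_generic {U : C.Opens} (hU : IsAffineOpen U) (y : PrimeSpectrum Γ(C, U))
    (hy : y.asIdeal ≠ ⊥) : hU.fromSpec y ≠ genericPoint C := by
  intro h
  have hyU : hU.fromSpec y ∈ (U : Set C) := by
    rw [← hU.range_fromSpec]; exact Set.mem_range_self y
  have : Nonempty U := ⟨⟨_, hyU⟩⟩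
  apply hy
  have h1 := hU.primeIdealOf_genericPoint
  rw [genericPoint_eq_bot_of_affine] at h1
  have h2 := primeIdealOf_fromSpec hU y hyU
  have h3 : (⟨hU.fromSpec y, hyU⟩ : U) = ⟨genericPoint C,
    ((genericPoint_spec C).mem_open_set_iff U.isOpen).mpr (by simpa using this)⟩ :=
    Subtype.ext h
  rw [← h2, h3, h1]
  rfl

theorem RegCurve.isDedekindDomain (hC : RegCurve C) (U : C.Opens) (hU : IsAffineOpen U)
    [Nonempty U] : IsDedekindDomain Γ(C, U) := by
  have : IsNoetherianRing Γ(C, U) := IsLocallyNoetherian.component_noetherian ⟨U, hU⟩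
  have : IsDedekindDomainDvr Γ(C, U) := by
    refine { is_dvr_at_nonzero_prime := ?_ }
    intro 𝔭 h𝔭 h𝔭p
    let y : PrimeSpectrum Γ(C, U) := ⟨𝔭, h𝔭p⟩
    have hyU : hU.fromSpec y ∈ (U : Set C) := by
      rw [← hU.range_fromSpec]; exact Set.mem_range_self y
    let _ := C.presheaf.algebra_section_stalk ⟨hU.fromSpec y, hyU⟩
    have h1 := hU.isLocalization_stalk ⟨hU.fromSpec y, hyU⟩
    have h2 := hC (hU.fromSpec y) (fromSpec_ne_generic hU y h𝔭)
    have h3 : IsLocalization.AtPrime (C.presheaf.stalk (hU.fromSpec y)) 𝔭 := by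
      have h4 : (hU.primeIdealOf ⟨hU.fromSpec y, hyU⟩).asIdeal = 𝔭 :=
        congrArg PrimeSpectrum.asIdeal (primeIdealOf_fromSpec hU y hyU)
      simpa only [h4] using h1
    exact IsDiscreteValuationRing.RingEquivClass.isDiscreteValuationRing
      (IsLocalization.algEquiv 𝔭.primeCompl (C.presheaf.stalk (hU.fromSpec y))
        (Localization.AtPrime 𝔭))
  infer_instance

theorem RegCurve.ord_eq (hC : RegCurve C) (U : C.Opens) (hU : IsAffineOpen U)
    [Nonempty U] [IsDedekindDomain Γ(C, U)] (h : Γ(C, U)) (hh : h ≠ 0) (x : U)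
    (hx : x.1 ≠ genericPoint C) :
    Scheme.ord (C.germToFunctionField U h) x.1 =
      ((normalizedFactors (Ideal.span {h})).count (hU.primeIdealOf x).asIdeal : ℤ) := by
  have h1 := hC x.1 hx
  have hco := hC.coheight x.1 hx
  let _ := C.presheaf.algebra_section_stalk x
  have h2 := hU.isLocalization_stalk x
  have hmax : (hU.primeIdealOf x).asIdeal.IsMaximal :=
    (hU.primeIdealOf x).2.isMaximal (primeIdealOf_ne_bot hU x hx)
  have hg0 : C.presheaf.germ U x.1 x.2 h ≠ 0 := by
    intro h0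
    exact hh (germ_injective_of_isIntegral (X := C) x.1 x.2 (h0.trans (map_zero _).symm))
  have hne : IsDiscreteValuationRing.addVal (C.presheaf.stalk x.1)
      (C.presheaf.germ U x.1 x.2 h) ≠ ⊤ := by
    intro htop
    exact hg0 (IsDiscreteValuationRing.addVal_eq_top_iff.mp htop)
  obtain ⟨n, hn⟩ := ENat.ne_top_iff_exists.mp hne
  have h3 := count_eq_of_localization (D := C.presheaf.stalk x.1) (hU.primeIdealOf x).asIdeal
    h n hn.symm
  rw [h3, Scheme.ord_eq_iff hco]
  · rw [Scheme.ordHom, ← Scheme.algebraMap_germ_eq_germToFunctionField _ x.2,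
      Ring.ordFrac_eq_ord _ hg0]
    rw [Ring.ordMonoidWithZeroHom_eq_coe _ (mem_nonZeroDivisors_of_ne_zero hg0) (n := n)]
    rw [Ring.ord_eq_addVal, hn]
  · intro h0
    exact hh (C.germToFunctionField_injective U (h0.trans (map_zero _).symm))

open Classical in
theorem RegCurve.isSquare_prod (hC : RegCurve C) {F : Type*} [Field F] (U : C.Opens)
    (hU : IsAffineOpen U) [Nonempty U] [IsDedekindDomain Γ(C, U)] (u : ClosedPt C → Fˣ)
    (g : Ideal Γ(C, U) → F)
    (hu₁ : ∀ c : ClosedPt C, c.1 ∉ U → u c = 1)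
    (hu₂ : ∀ (c : ClosedPt C) (hc : c.1 ∈ U), (u c : F) = g (hU.primeIdealOf ⟨c.1, hc⟩).asIdeal)
    (hg : ∀ h : Γ(C, U), h ≠ 0 → IsSquare ((normalizedFactors (Ideal.span {h})).map g).prod)
    (h : C.functionField) (hh : h ≠ 0) (z : ZeroCycle C)
    (hz : ∀ c : ClosedPt C, z c = Scheme.ord h c.1) :
    IsSquare (z.prod fun c n => u c ^ n) := by
  have hfr := functionField_isFractionRing_of_isAffineOpen C U hU
  obtain ⟨h₁, h₂, hh₂, rfl⟩ := IsFractionRing.div_surjective (A := Γ(C, U)) h
  have hinj : Function.Injective (algebraMap Γ(C, U) C.functionField) :=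
    IsFractionRing.injective _ _
  have hh₂' : h₂ ≠ 0 := nonZeroDivisors.ne_zero hh₂
  have hh₁' : h₁ ≠ 0 := by
    rintro rfl
    simp at hh
  -- the point attached to an ideal
  let e : ClosedPt C → Ideal Γ(C, U) := fun c =>
    if hc : c.1 ∈ U then (hU.primeIdealOf ⟨c.1, hc⟩).asIdeal else ⊤
  have he : ∀ (c : ClosedPt C) (hc : c.1 ∈ U), e c = (hU.primeIdealOf ⟨c.1, hc⟩).asIdeal :=
    fun c hc => dif_pos hc
  have heinj : Set.InjOn e {c | c.1 ∈ U} := by
    intro c hc c' hc' hcc
    rw [he c hc, he c' hc'] at hcc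
    have h1 := congrArg hU.fromSpec (PrimeSpectrum.ext hcc)
    rw [hU.fromSpec_primeIdealOf, hU.fromSpec_primeIdealOf] at h1
    exact Subtype.ext h1
  have key : ∀ f : Γ(C, U), f ≠ 0 → ∃ T : Finset (ClosedPt C),
      (∀ c ∉ T, u c ^ Scheme.ord (algebraMap Γ(C, U) C.functionField f) c.1 = 1) ∧
      ((∏ c ∈ T, u c ^ Scheme.ord (algebraMap Γ(C, U) C.functionField f) c.1 : Fˣ) : F) =
        ((normalizedFactors (Ideal.span {f})).map g).prod := by
    intro f hf
    have hI : Ideal.span {f} ≠ (⊥ : Ideal Γ(C, U)) := by simpa using hf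
    have hfin : {c : ClosedPt C | c.1 ∈ U ∧
        e c ∈ (normalizedFactors (Ideal.span {f})).toFinset}.Finite := by
      apply Set.Finite.of_finite_image (f := e)
      · apply (Finset.finite_toSet (normalizedFactors (Ideal.span {f})).toFinset).subset
        rintro _ ⟨c, hc, rfl⟩
        exact hc.2
      · exact heinj.mono fun c hc => hc.1
    have hord : ∀ (c : ClosedPt C) (hc : c.1 ∈ U),
        Scheme.ord (algebraMap Γ(C, U) C.functionField f) c.1 =
          ((normalizedFactors (Ideal.span {f})).count (e c) : ℤ) := by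
      intro c hc
      rw [he c hc]
      by_cases hgen : c.1 = genericPoint C
      · have h1 : Order.coheight c.1 ≠ 1 := by
          rw [hgen, coheight_genericPoint]; exact zero_ne_one
        rw [Scheme.ord_eq_zero_of_coheight_neq_one h1]
        symm
        rw [Nat.cast_eq_zero, Multiset.count_eq_zero]
        intro hmem
        apply ne_zero_of_mem_normalizedFactors hmem
        have h2 : (⟨c.1, hc⟩ : U) = ⟨genericPoint C, ((genericPoint_spec C).mem_open_set_iff
          U.isOpen).mpr (by simpa using (⟨⟨c.1, hc⟩⟩ : Nonempty U))⟩ := Subtype.ext hgen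
        rw [h2, hU.primeIdealOf_genericPoint, genericPoint_eq_bot_of_affine]
        rfl
      · exact hC.ord_eq U hU f hf ⟨c.1, hc⟩ hgen
    refine ⟨hfin.toFinset, ?_, ?_⟩
    · intro c hcT
      rw [Set.Finite.mem_toFinset] at hcT
      by_cases hc : c.1 ∈ U
      · have h1 : e c ∉ normalizedFactors (Ideal.span {f}) := by
          intro hmem
          exact hcT ⟨hc, Multiset.mem_toFinset.mpr hmem⟩
        rw [hord c hc, Multiset.count_eq_zero_of_notMem h1]
        simp
      · rw [hu₁ c hc, one_zpow]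
    · rw [Finset.prod_multiset_map_count, Units.coe_prod]
      apply Finset.prod_of_injOn e
      · intro c hc c' hc' hcc
        rw [Finset.mem_coe, Set.Finite.mem_toFinset] at hc hc'
        exact heinj hc.1 hc'.1 hcc
      · intro c hc
        rw [Finset.mem_coe, Set.Finite.mem_toFinset] at hc
        exact hc.2
      · intro 𝔪 h𝔪 hne
        exfalso
        apply hne
        rw [Multiset.mem_toFinset] at h𝔪
        have h𝔪0 : 𝔪 ≠ ⊥ := ne_zero_of_mem_normalizedFactors h𝔪
        have h𝔪p : 𝔪.IsPrime := ((Ideal.mem_normalizedFactors_iff hI).mp h𝔪).1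
        have hyU : hU.fromSpec ⟨𝔪, h𝔪p⟩ ∈ (U : Set C) := by
          rw [← hU.range_fromSpec]; exact Set.mem_range_self _
        have hy1 : hU.fromSpec ⟨𝔪, h𝔪p⟩ ≠ genericPoint C := fromSpec_ne_generic hU _ h𝔪0
        have hy2 := hC.isClosed _ hy1
        obtain ⟨c, hcU, hce⟩ : ∃ c : ClosedPt C, c.1 ∈ U ∧ e c = 𝔪 :=
          ⟨⟨hU.fromSpec ⟨𝔪, h𝔪p⟩, hy2⟩, hyU, (he ⟨hU.fromSpec ⟨𝔪, h𝔪p⟩, hy2⟩ hyU).trans
            (congrArg PrimeSpectrum.asIdeal (primeIdealOf_fromSpec hU ⟨𝔪, h𝔪p⟩ hyU))⟩
        refine ⟨c, ?_, hce⟩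
        rw [Finset.mem_coe, Set.Finite.mem_toFinset]
        refine ⟨hcU, ?_⟩
        rw [hce]
        exact Multiset.mem_toFinset.mpr h𝔪
      · intro c hc
        rw [Set.Finite.mem_toFinset] at hc
        rw [hord c hc.1, zpow_natCast, Units.val_pow_eq_pow_val, hu₂ c hc.1]
        exact congrArg (· ^ _) (congrArg g (he c hc.1).symm)
  obtain ⟨T₁, hT₁, hP₁⟩ := key h₁ hh₁'
  obtain ⟨T₂, hT₂, hP₂⟩ := key h₂ hh₂'
  set k₁ := algebraMap Γ(C, U) C.functionField h₁ with hk₁
  set k₂ := algebraMap Γ(C, U) C.functionField h₂ with hk₂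
  have hk₁0 : k₁ ≠ 0 := by
    rw [hk₁]; exact (map_ne_zero_iff _ hinj).mpr hh₁'
  have hk₂0 : k₂ ≠ 0 := by
    rw [hk₂]; exact (map_ne_zero_iff _ hinj).mpr hh₂'
  have hsub : ∀ c, Scheme.ord (k₁ / k₂) c = Scheme.ord k₁ c - Scheme.ord k₂ c := by
    intro c
    have h1 : k₁ = (k₁ / k₂) * k₂ := (div_mul_cancel₀ _ hk₂0).symm
    have h2 : Scheme.ord k₁ c = Scheme.ord (k₁ / k₂) c + Scheme.ord k₂ c := by
      conv_lhs => rw [h1]
      exact Scheme.ord_mul (div_ne_zero hk₁0 hk₂0) hk₂0
    rw [h2]; ring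
  have hsq : ∀ x : Fˣ, IsSquare (x : F) → IsSquare x := by
    rintro x ⟨y, hy⟩
    have hy0 : y ≠ 0 := by
      rintro rfl
      exact x.ne_zero (by rw [hy, mul_zero])
    exact ⟨Units.mk0 y hy0, Units.ext hy⟩
  let T := T₁ ∪ T₂ ∪ z.support
  have e1 : (z.prod fun c n => u c ^ n) = ∏ c ∈ T, u c ^ z c :=
    Finsupp.prod_of_support_subset z Finset.subset_union_right _ fun c _ => zpow_zero _
  have e2 : ∏ c ∈ T, u c ^ z c =
      (∏ c ∈ T, u c ^ Scheme.ord k₁ c.1) / ∏ c ∈ T, u c ^ Scheme.ord k₂ c.1 := by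
    rw [← Finset.prod_div_distrib]
    refine Finset.prod_congr rfl fun c _ => ?_
    rw [hz c, hsub, zpow_sub, div_eq_mul_inv]
  have e3 : ∏ c ∈ T, u c ^ Scheme.ord k₁ c.1 = ∏ c ∈ T₁, u c ^ Scheme.ord k₁ c.1 := by
    symm
    apply Finset.prod_subset
    · exact Finset.subset_union_left.trans Finset.subset_union_left
    · intro c _ hc; exact hT₁ c hc
  have e4 : ∏ c ∈ T, u c ^ Scheme.ord k₂ c.1 = ∏ c ∈ T₂, u c ^ Scheme.ord k₂ c.1 := by
    symm
    apply Finset.prod_subset
    · exact Finset.subset_union_right.trans Finset.subset_union_left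
    · intro c _ hc; exact hT₂ c hc
  rw [e1, e2, e3, e4]
  refine IsSquare.div (hsq _ ?_) (hsq _ ?_)
  · rw [hP₁]; exact hg h₁ hh₁'
  · rw [hP₂]; exact hg h₂ hh₂'

end

theorem norm_quotient_eq {F : Type*} [Field F] {C : Scheme.{0}} {U : C.Opens}
    (hU : IsAffineOpen U) (x : U) [hx : (hU.primeIdealOf x).asIdeal.IsMaximal]
    [Algebra F Γ(C, U)] (b : Γ(C, U)) :
    Algebra.norm F (Ideal.Quotient.mk (hU.primeIdealOf x).asIdeal b) =
      fieldNorm ((C.evaluation U x.1 x.2).hom.comp (algebraMap F Γ(C, U)))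
        (C.evaluation U x.1 x.2 b) := by
  let _ := C.presheaf.algebra_section_stalk x
  have h2 := hU.isLocalization_stalk x
  let e := IsLocalization.AtPrime.equivQuotMaximalIdeal (hU.primeIdealOf x).asIdeal
    (C.presheaf.stalk x.1)
  letI : Algebra F (C.residueField x.1) :=
    ((C.evaluation U x.1 x.2).hom.comp (algebraMap F Γ(C, U))).toAlgebra
  change _ = Algebra.norm F (C.evaluation U x.1 x.2 b)
  let e' : (Γ(C, U) ⧸ (hU.primeIdealOf x).asIdeal) ≃ₐ[F] C.residueField x.1 :=
    AlgEquiv.ofRingEquiv (f := e) (fun r => rfl)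
  rw [← Algebra.norm_eq_of_algEquiv e']
  rfl

end Pool.Agent.Helper395
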