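import Mathlib

open AlgebraicGeometry CategoryTheory CategoryTheory.Limits

namespace Pool.Agent.Helper395

/-! ### Chow groups of zero-cycles -/

/-- The closed points of a scheme. -/
def ClosedPt (X : Scheme.{0}) : Type := {x : X // IsClosed ({x} : Set X)}

/-- The group of zero-cycles on a scheme: the free abelian group on its closed points. -/
abbrev ZeroCycle (X : Scheme.{0}) : Type := ClosedPt X →₀ ℤ

/-- The image of a closed point under a universally closed (for example proper) morphism. -/
noncomputable def pushPt {X Y : Scheme.{0}} (f : X ⟶ Y) [UniversallyClosed f]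
    (x : ClosedPt X) : ClosedPt Y :=
  ⟨f x.1, by
    have h := f.isClosedMap _ x.2
    rwa [Set.image_singleton] at h⟩

/-- Push-forward of zero-cycles: the closed point `x` goes to `[κ(x) : κ(f x)]` times the
closed point `f x`. -/
noncomputable def pushforward {X Y : Scheme.{0}} (f : X ⟶ Y) [UniversallyClosed f] :
    ZeroCycle X →+ ZeroCycle Y :=
  Finsupp.liftAddHom fun x =>
    (Finsupp.singleAddHom (pushPt f x)).comp (AddMonoidHom.mulLeft (f.residueDegree x.1 : ℤ))

/-- The basic rational equivalences on `X`: push-forwards, under finite morphisms `π : C ⟶ X`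
from regular integral curves `C` (integral locally Noetherian schemes whose local rings at all
points other than the generic point are discrete valuation rings), of divisors of nonzero
rational functions `h` on `C`. -/
def ratGenerators (X : Scheme.{0}) : Set (ZeroCycle X) :=
  {ξ | ∃ (C : Scheme.{0}) (_ : IsIntegral C) (_ : IsLocallyNoetherian C)
      (π : C ⟶ X) (_ : IsFinite π) (h : C.functionField) (z : ZeroCycle C),
      (∀ x : C, x ≠ genericPoint C → IsDiscreteValuationRing (C.presheaf.stalk x)) ∧
      h ≠ 0 ∧ (∀ c : ClosedPt C, z c = Scheme.ord h c.1) ∧ ξ = pushforward π z}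

/-- The subgroup of zero-cycles rationally equivalent to zero, so that `CH₀ X` is the quotient
`ZeroCycle X ⧸ Rat X`. -/
noncomputable def Rat (X : Scheme.{0}) : AddSubgroup (ZeroCycle X) :=
  AddSubgroup.closure (ratGenerators X)

/-- Push-forward along `f` induces a (well defined) isomorphism from
`CH₀ X = ZeroCycle X ⧸ Rat X` to `CH₀ Y = ZeroCycle Y ⧸ Rat Y`. -/
def InducesCH0Iso {X Y : Scheme.{0}} (f : X ⟶ Y) [UniversallyClosed f] : Prop :=
  (∀ z : ZeroCycle X, z ∈ Rat X ↔ pushforward f z ∈ Rat Y) ∧
    ∀ w : ZeroCycle Y, ∃ z : ZeroCycle X, w - pushforward f z ∈ Rat Y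

/-! ### Base change to field extensions of `ℂ` -/

/-- Base change of a complex scheme `X` to a field extension `F` of `ℂ`. -/
noncomputable abbrev baseChange {X : Scheme.{0}} (sX : X ⟶ Spec (.of ℂ)) (F : Type) [Field F]
    [Algebra ℂ F] : Scheme.{0} :=
  pullback sX (Spec.map (CommRingCat.ofHom (algebraMap ℂ F)))

/-- Base change of a morphism `f : X ⟶ Y` of complex schemes to a field extension `F` of `ℂ`. -/
noncomputable def baseChangeMap {X Y : Scheme.{0}} (f : X ⟶ Y) (sY : Y ⟶ Spec (.of ℂ))
    (F : Type) [Field F] [Algebra ℂ F] : baseChange (f ≫ sY) F ⟶ baseChange sY F :=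
  pullback.lift (pullback.fst _ _ ≫ f) (pullback.snd _ _)
    (by rw [Category.assoc]; exact pullback.condition)

theorem baseChangeMap_fst {X Y : Scheme.{0}} (f : X ⟶ Y) (sY : Y ⟶ Spec (.of ℂ)) (F : Type)
    [Field F] [Algebra ℂ F] :
    baseChangeMap f sY F ≫ pullback.fst _ _ = pullback.fst _ _ ≫ f :=
  pullback.lift_fst _ _ _

theorem baseChangeMap_snd {X Y : Scheme.{0}} (f : X ⟶ Y) (sY : Y ⟶ Spec (.of ℂ)) (F : Type)
    [Field F] [Algebra ℂ F] :
    baseChangeMap f sY F ≫ pullback.snd _ _ = pullback.snd _ _ :=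
  pullback.lift_snd _ _ _

theorem isPullback_baseChangeMap {X Y : Scheme.{0}} (f : X ⟶ Y) (sY : Y ⟶ Spec (.of ℂ))
    (F : Type) [Field F] [Algebra ℂ F] :
    IsPullback (baseChangeMap f sY F) (pullback.fst _ _) (pullback.fst _ _) f := by
  refine IsPullback.of_right (h₁₂ := pullback.snd _ _) (h₂₂ := sY)
    (v₁₃ := Spec.map (CommRingCat.ofHom (algebraMap ℂ F))) ?_ ?_ ?_
  · have := (IsPullback.of_hasPullback (f ≫ sY)
      (Spec.map (CommRingCat.ofHom (algebraMap ℂ F)))).flip
    rw [baseChangeMap_snd]
    exact this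
  · exact baseChangeMap_fst f sY F
  · exact (IsPullback.of_hasPullback _ _).flip

instance baseChangeMap_universallyClosed {X Y : Scheme.{0}} (f : X ⟶ Y)
    (sY : Y ⟶ Spec (.of ℂ)) (F : Type) [Field F] [Algebra ℂ F] [UniversallyClosed f] :
    UniversallyClosed (baseChangeMap f sY F) :=
  MorphismProperty.of_isPullback (isPullback_baseChangeMap f sY F).flip ‹_›

/-- The (proper) morphism `f : X ⟶ Y` of complex schemes is universally `CH₀`-trivial: for every
field extension `F` of `ℂ`, push-forward is an isomorphism `CH₀(X_F) → CH₀(Y_F)`. -/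
def UniversallyCH0Trivial {X Y : Scheme.{0}} (f : X ⟶ Y) [UniversallyClosed f]
    (sY : Y ⟶ Spec (.of ℂ)) : Prop :=
  ∀ (F : Type) [Field F] [Algebra ℂ F], InducesCH0Iso (baseChangeMap f sY F)

/-! ### Resolutions and property (U) -/

/-- `X` is a complex variety in the sense of the problem: a separated scheme of finite type
over `ℂ`. -/
def IsVariety {X : Scheme.{0}} (sX : X ⟶ Spec (.of ℂ)) : Prop :=
  IsSeparated sX ∧ LocallyOfFiniteType sX ∧ QuasiCompact sX

/-- A morphism `f : X ⟶ Y` is birational if it restricts to an isomorphism over some dense open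
of `Y` whose preimage is dense in `X`. -/
def IsBirationalMorphism {X Y : Scheme.{0}} (f : X ⟶ Y) : Prop :=
  ∃ V : Y.Opens, Dense (V : Set Y) ∧ Dense ((f ⁻¹ᵁ V : X.Opens) : Set X) ∧ IsIso (f ∣_ V)

/-- The complex scheme `Y` admits a `CH₀`-universally trivial resolution: a proper birational
universally `CH₀`-trivial morphism `f : X ⟶ Y` with `X` smooth over `ℂ`. -/
def HasCH0TrivialResolution {Y : Scheme.{0}} (sY : Y ⟶ Spec (.of ℂ)) : Prop :=
  ∃ (X : Scheme.{0}) (f : X ⟶ Y) (_ : IsProper f),
    Smooth (f ≫ sY) ∧ IsBirationalMorphism f ∧ UniversallyCH0Trivial f sY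

/-- Property (U) of the problem: some Zariski open neighbourhood of `x` in `X` admits a
`CH₀`-universally trivial resolution. -/
def PropertyU {X : Scheme.{0}} (sX : X ⟶ Spec (.of ℂ)) (x : X) : Prop :=
  ∃ U : X.Opens, x ∈ U ∧ HasCH0TrivialResolution (U.ι ≫ sX)

end Pool.Agent.Helper395
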