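import Mathlib

namespace Pool.Agent.Helper395

open IsLocalRing

/-- Key local lemma: the twisted cusp equation forces `t` to be a square in the residue field. -/
theorem isSquare_residue_of_cusp {D : Type*} [CommRing D] [IsDomain D] [IsDiscreteValuationRing D]
    {t p q w : D} (ht : IsUnit t) (hp : p ∈ maximalIdeal D) (hq : q ∈ maximalIdeal D)
    (hw : w ∈ maximalIdeal D) (hne : ¬ (p = 0 ∧ q = 0 ∧ w = 0))
    (h : t * w ^ 2 = (p ^ 2 - t * q ^ 2) ^ 2 + p ^ 5) :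
    IsSquare (residue D t) := by
  obtain ⟨ϖ, hϖ⟩ := IsDiscreteValuationRing.exists_irreducible D
  have hϖ0 : ϖ ≠ 0 := hϖ.ne_zero
  have hmem : ∀ x : D, x ∈ maximalIdeal D ↔ ϖ ∣ x := by
    intro x
    rw [hϖ.maximalIdeal_eq, Ideal.mem_span_singleton]
  -- a nonzero element is not divisible by all powers
  have hfin : ∀ x : D, x ≠ 0 → ∃ n : ℕ, ¬ ϖ ^ n ∣ x := by
    intro x hx
    obtain ⟨n, u, rfl⟩ := IsDiscreteValuationRing.eq_unit_mul_pow_irreducible hx hϖ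
    refine ⟨n + 1, fun hd => hϖ.not_isUnit ?_⟩
    have h1 : ϖ ^ (n + 1) ∣ ϖ ^ n := (Units.dvd_mul_left).mp hd
    rw [pow_succ] at h1
    have h2 : ϖ ^ n * ϖ ∣ ϖ ^ n * 1 := by simpa using h1
    exact isUnit_of_dvd_one ((mul_dvd_mul_iff_left (pow_ne_zero _ hϖ0)).mp h2)
  let P : ℕ → Prop := fun j => ϖ ^ j ∣ p ∧ ϖ ^ j ∣ q ∧ ϖ ^ (2 * j) ∣ w
  have hP0 : P 0 := by simp [P]
  have hPn : ∃ n, ¬ P n := by
    by_contra hcon
    push Not at hcon
    apply hne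
    refine ⟨?_, ?_, ?_⟩
    · by_contra hx
      obtain ⟨n, hn⟩ := hfin p hx
      exact hn (hcon n).1
    · by_contra hx
      obtain ⟨n, hn⟩ := hfin q hx
      exact hn (hcon n).2.1
    · by_contra hx
      obtain ⟨n, hn⟩ := hfin w hx
      exact hn ((pow_dvd_pow ϖ (by omega)).trans (hcon n).2.2)
  obtain ⟨j, hj, hj'⟩ : ∃ j, P j ∧ ¬ P (j + 1) := by
    by_contra hcon
    push Not at hcon
    obtain ⟨n, hn⟩ := hPn
    exact hn (Nat.rec hP0 (fun k hk => hcon k hk) n)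
  obtain ⟨⟨p₀, hp₀⟩, ⟨q₀, hq₀⟩, ⟨w₀, hw₀⟩⟩ := hj
  have hrel : t * w₀ ^ 2 = (p₀ ^ 2 - t * q₀ ^ 2) ^ 2 + ϖ ^ j * p₀ ^ 5 := by
    have hpow : (ϖ ^ (4 * j)) ≠ 0 := pow_ne_zero _ hϖ0
    apply mul_left_cancel₀ hpow
    have e : ϖ ^ (4 * j) = (ϖ ^ j) ^ 4 := by rw [← pow_mul]; ring_nf
    rw [hp₀, hq₀, hw₀] at h
    have e2 : ϖ ^ (2 * j) = (ϖ ^ j) ^ 2 := by rw [← pow_mul]; ring_nf
    rw [e2] at h
    rw [e]
    linear_combination h
  by_cases hcase : ϖ ∣ p₀ ∧ ϖ ∣ q₀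
  · exfalso
    obtain ⟨⟨p₁, hp₁⟩, ⟨q₁, hq₁⟩⟩ := hcase
    have h4 : ϖ ^ 4 ∣ t * w₀ ^ 2 := by
      rw [hrel, hp₁, hq₁]
      exact ⟨(p₁ ^ 2 - t * q₁ ^ 2) ^ 2 + ϖ ^ j * ϖ * p₁ ^ 5, by ring⟩
    have h5 : (ϖ ^ 2) ^ 2 ∣ w₀ ^ 2 := by
      have := (ht.dvd_mul_left).mp h4
      rwa [show (ϖ ^ 2) ^ 2 = ϖ ^ 4 by ring]
    have h6 : ϖ ^ 2 ∣ w₀ := (IsIntegrallyClosed.pow_dvd_pow_iff (by norm_num)).mp h5
    apply hj'
    refine ⟨?_, ?_, ?_⟩
    · rw [hp₀, hp₁]; exact ⟨p₁, by ring⟩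
    · rw [hq₀, hq₁]; exact ⟨q₁, by ring⟩
    · obtain ⟨w₁, hw₁⟩ := h6
      rw [hw₀, hw₁]; exact ⟨w₁, by ring⟩
  · have hj1 : j ≠ 0 := by
      rintro rfl
      apply hcase
      rw [pow_zero, one_mul] at hp₀ hq₀
      exact ⟨(hmem _).mp (hp₀ ▸ hp), (hmem _).mp (hq₀ ▸ hq)⟩
    have hϖr : residue D ϖ = 0 := by
      rw [residue_eq_zero_iff, hmem]
    have hres := congrArg (residue D) hrel
    simp only [map_mul, map_pow, map_sub, map_add, hϖr, zero_pow hj1, zero_mul, add_zero] at hres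
    have hnz : ¬ (residue D p₀ = 0 ∧ residue D q₀ = 0) := by
      rw [residue_eq_zero_iff, residue_eq_zero_iff, hmem, hmem]
      exact hcase
    by_cases hw0 : residue D w₀ = 0
    · rw [hw0] at hres
      have h7 : residue D p₀ ^ 2 = residue D t * residue D q₀ ^ 2 := by
        have : (residue D p₀ ^ 2 - residue D t * residue D q₀ ^ 2) ^ 2 = 0 := by
          rw [← hres]; ring
        have := pow_eq_zero_iff (two_ne_zero) |>.mp this
        exact sub_eq_zero.mp this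
      have hq0 : residue D q₀ ≠ 0 := by
        intro hq0
        apply hnz
        refine ⟨?_, hq0⟩
        rw [hq0] at h7
        have : residue D p₀ ^ 2 = 0 := by rw [h7]; ring
        exact pow_eq_zero_iff two_ne_zero |>.mp this
      refine ⟨residue D p₀ / residue D q₀, ?_⟩
      field_simp
      linear_combination -h7
    · refine ⟨(residue D p₀ ^ 2 - residue D t * residue D q₀ ^ 2) / residue D w₀, ?_⟩
      field_simp
      linear_combination hres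

end Pool.Agent.Helper395
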