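import Pool.Agent.Helper395.GermIso

open AlgebraicGeometry CategoryTheory CategoryTheory.Limits Filter Topology

set_option linter.style.haveILetI false

namespace Pool.Agent.Helper395

/-- Equations of `X`: `a = 0` and `w² = (p² - q²)² + p⁵` in the variables `a, b, p, q, w`. -/
noncomputable def eqX : Fin 2 → MvPolynomial (Fin 5) ℂ :=
  ![MvPolynomial.X 0, MvPolynomial.X 4 ^ 2 -
    (MvPolynomial.X 2 ^ 2 - MvPolynomial.X 3 ^ 2) ^ 2 - MvPolynomial.X 2 ^ 5]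

/-- Equations of `Y`: `t² - r² t = 1` and `t w² = (p² - t q²)² + p⁵` with `t = 1 + τ`,
in the variables `τ, r, p, q, w`. -/
noncomputable def eqY : Fin 2 → MvPolynomial (Fin 5) ℂ :=
  ![(1 + MvPolynomial.X 0) ^ 2 - MvPolynomial.X 1 ^ 2 * (1 + MvPolynomial.X 0) - 1,
    (1 + MvPolynomial.X 0) * MvPolynomial.X 4 ^ 2 -
    (MvPolynomial.X 2 ^ 2 - (1 + MvPolynomial.X 0) * MvPolynomial.X 3 ^ 2) ^ 2 -
    MvPolynomial.X 2 ^ 5]

/-- The coordinate ring of `X`. -/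
abbrev AX : Type := MvPolynomial (Fin 5) ℂ ⧸ Ideal.span (Set.range eqX)

/-- The coordinate ring of `Y`. -/
abbrev AY : Type := MvPolynomial (Fin 5) ℂ ⧸ Ideal.span (Set.range eqY)

/-- The square root function. -/
noncomputable def csqrt (z : ℂ) : ℂ := z ^ (2⁻¹ : ℂ)

theorem csqrt_sq (z : ℂ) : csqrt z ^ 2 = z := by
  rw [csqrt, ← Complex.cpow_nat_mul]
  simp

theorem csqrt_of_sq {z : ℂ} (hz : 0 < z.re) : csqrt (z ^ 2) = z :=
  Complex.sq_cpow_two_inv hz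

theorem csqrt_one : csqrt 1 = 1 := by simp [csqrt]

theorem csqrt_four : csqrt 4 = 2 := by
  have := csqrt_of_sq (z := 2) (by norm_num)
  norm_num at this
  exact this

/-- The function `T`. -/
noncomputable def Tfun (u : Fin 5 → ℂ) : ℂ :=
  (u 1 ^ 2 + csqrt (u 1 ^ 4 + 4 * (1 + u 0))) / 2

/-- The biholomorphic map from the germ of `Y` to the germ of `X`. -/
noncomputable def PhiMap (z : Fin 5 → ℂ) : Fin 5 → ℂ :=
  ![(1 + z 0) ^ 2 - z 1 ^ 2 * (1 + z 0) - 1, z 1, z 2, csqrt (1 + z 0) * z 3,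
    csqrt (1 + z 0) * z 4]

/-- Its inverse. -/
noncomputable def PsiMap (u : Fin 5 → ℂ) : Fin 5 → ℂ :=
  ![Tfun u - 1, u 1, u 2, (csqrt (Tfun u))⁻¹ * u 3, (csqrt (Tfun u))⁻¹ * u 4]

theorem Tfun_zero : Tfun 0 = 1 := by
  simp [Tfun, csqrt_four]

theorem analyticAt_coord (i : Fin 5) (z : Fin 5 → ℂ) :
    AnalyticAt ℂ (fun u : Fin 5 → ℂ => u i) z :=
  (ContinuousLinearMap.proj (R := ℂ) (φ := fun _ : Fin 5 => ℂ) i).analyticAt z

theorem analyticAt_csqrt_comp {f : (Fin 5 → ℂ) → ℂ} {z : Fin 5 → ℂ} (hf : AnalyticAt ℂ f z)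
    (h : f z ∈ Complex.slitPlane) : AnalyticAt ℂ (fun u => csqrt (f u)) z :=
  hf.cpow analyticAt_const h

theorem analyticAt_Tfun : AnalyticAt ℂ Tfun 0 := by
  have h1 : AnalyticAt ℂ (fun u : Fin 5 → ℂ => u 1 ^ 4 + 4 * (1 + u 0)) 0 :=
    ((analyticAt_coord 1 0).pow 4).add
      (analyticAt_const.mul (analyticAt_const.add (analyticAt_coord 0 0)))
  have h2 : AnalyticAt ℂ (fun u : Fin 5 → ℂ => csqrt (u 1 ^ 4 + 4 * (1 + u 0))) 0 :=
    analyticAt_csqrt_comp h1 (by simp)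
  exact (((analyticAt_coord 1 0).pow 2).add h2).div analyticAt_const (by norm_num)

theorem analyticAt_PhiMap : AnalyticAt ℂ PhiMap 0 := by
  have h0 : AnalyticAt ℂ (fun z : Fin 5 → ℂ => 1 + z 0) 0 :=
    analyticAt_const.add (analyticAt_coord 0 0)
  have h1 : AnalyticAt ℂ (fun z : Fin 5 → ℂ => csqrt (1 + z 0)) 0 :=
    analyticAt_csqrt_comp h0 (by simp)
  rw [analyticAt_pi_iff]
  intro i
  fin_cases i
  · exact ((h0.pow 2).sub (((analyticAt_coord 1 0).pow 2).mul h0)).sub analyticAt_const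
  · exact analyticAt_coord 1 0
  · exact analyticAt_coord 2 0
  · exact h1.mul (analyticAt_coord 3 0)
  · exact h1.mul (analyticAt_coord 4 0)

theorem analyticAt_PsiMap : AnalyticAt ℂ PsiMap 0 := by
  have h1 : AnalyticAt ℂ (fun u : Fin 5 → ℂ => csqrt (Tfun u)) 0 :=
    analyticAt_csqrt_comp analyticAt_Tfun (by rw [Tfun_zero]; simp)
  have h2 : AnalyticAt ℂ (fun u : Fin 5 → ℂ => (csqrt (Tfun u))⁻¹) 0 :=
    h1.inv (by rw [Tfun_zero, csqrt_one]; exact one_ne_zero)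
  rw [analyticAt_pi_iff]
  intro i
  fin_cases i
  · exact analyticAt_Tfun.sub analyticAt_const
  · exact analyticAt_coord 1 0
  · exact analyticAt_coord 2 0
  · exact h2.mul (analyticAt_coord 3 0)
  · exact h2.mul (analyticAt_coord 4 0)

theorem PhiMap_zero : PhiMap 0 = 0 := by
  funext i
  fin_cases i <;> simp [PhiMap]

theorem PsiMap_zero : PsiMap 0 = 0 := by
  funext i
  fin_cases i <;> simp [PsiMap, Tfun_zero]

theorem Tfun_eq (u : Fin 5 → ℂ) : Tfun u ^ 2 - u 1 ^ 2 * Tfun u - 1 = u 0 := by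
  have h := csqrt_sq (u 1 ^ 4 + 4 * (1 + u 0))
  rw [Tfun]
  linear_combination h / 4

theorem Phi_Psi : ∀ᶠ u in 𝓝 (0 : Fin 5 → ℂ), PhiMap (PsiMap u) = u := by
  have h1 : ∀ᶠ u in 𝓝 (0 : Fin 5 → ℂ), Tfun u ≠ 0 :=
    analyticAt_Tfun.continuousAt.eventually_ne (by rw [Tfun_zero]; exact one_ne_zero)
  filter_upwards [h1] with u hu
  have h2 : csqrt (Tfun u) ≠ 0 := by
    intro h0
    apply hu
    rw [← csqrt_sq (Tfun u), h0]; simp
  have h3 : (1 : ℂ) + (Tfun u - 1) = Tfun u := by ring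
  funext i
  fin_cases i
  · change (1 + (Tfun u - 1)) ^ 2 - u 1 ^ 2 * (1 + (Tfun u - 1)) - 1 = u 0
    rw [h3]; exact Tfun_eq u
  · rfl
  · rfl
  · change csqrt (1 + (Tfun u - 1)) * ((csqrt (Tfun u))⁻¹ * u 3) = u 3
    rw [h3, mul_inv_cancel_left₀ h2]
  · change csqrt (1 + (Tfun u - 1)) * ((csqrt (Tfun u))⁻¹ * u 4) = u 4
    rw [h3, mul_inv_cancel_left₀ h2]

theorem Psi_Phi : ∀ᶠ z in 𝓝 (0 : Fin 5 → ℂ), PsiMap (PhiMap z) = z := by
  have hc : ContinuousAt (fun z : Fin 5 → ℂ => (2 * (1 + z 0) - z 1 ^ 2).re) 0 := by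
    fun_prop
  have h1 : ∀ᶠ z in 𝓝 (0 : Fin 5 → ℂ), 0 < (2 * (1 + z 0) - z 1 ^ 2).re := by
    refine Filter.Tendsto.eventually_const_lt ?_ hc.tendsto
    simp
  have hc2 : ContinuousAt (fun z : Fin 5 → ℂ => 1 + z 0) 0 :=
    (analyticAt_const.add (analyticAt_coord 0 0)).continuousAt
  have h2 : ∀ᶠ z in 𝓝 (0 : Fin 5 → ℂ), 1 + z 0 ≠ 0 :=
    hc2.eventually_ne (by simp)
  filter_upwards [h1, h2] with z hz hz2
  have hT : Tfun (PhiMap z) = 1 + z 0 := by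
    have h3 : (PhiMap z) 1 ^ 4 + 4 * (1 + (PhiMap z) 0) = (2 * (1 + z 0) - z 1 ^ 2) ^ 2 := by
      change z 1 ^ 4 + 4 * (1 + ((1 + z 0) ^ 2 - z 1 ^ 2 * (1 + z 0) - 1)) = _
      ring
    rw [Tfun, h3, csqrt_of_sq hz]
    change (z 1 ^ 2 + (2 * (1 + z 0) - z 1 ^ 2)) / 2 = _
    ring
  have h4 : csqrt (1 + z 0) ≠ 0 := by
    intro h0
    apply hz2
    rw [← csqrt_sq (1 + z 0), h0]; simp
  funext i
  fin_cases i
  · change Tfun (PhiMap z) - 1 = z 0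
    rw [hT]; ring
  · rfl
  · rfl
  · change (csqrt (Tfun (PhiMap z)))⁻¹ * (csqrt (1 + z 0) * z 3) = z 3
    rw [hT, inv_mul_cancel_left₀ h4]
  · change (csqrt (Tfun (PhiMap z)))⁻¹ * (csqrt (1 + z 0) * z 4) = z 4
    rw [hT, inv_mul_cancel_left₀ h4]

theorem germIso_example (x : Spec (.of AX))
    (hx : ∀ i, Ideal.Quotient.mk (Ideal.span (Set.range eqX)) (MvPolynomial.X i) ∈ x.asIdeal)
    (y : Spec (.of AY))
    (hy : ∀ i, Ideal.Quotient.mk (Ideal.span (Set.range eqY)) (MvPolynomial.X i) ∈ y.asIdeal) :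
    AnalyticGermIso (str AX) x (str AY) y := by
  refine analyticGermIso_of_biholomorphic eqX eqY x hx y hy PhiMap PsiMap analyticAt_PhiMap
    PhiMap_zero analyticAt_PsiMap PsiMap_zero Phi_Psi Psi_Phi ?_
  intro i
  refine Eventually.of_forall fun z => ?_
  have h := csqrt_sq (1 + z 0)
  fin_cases i
  · simp [eqX, eqY, PhiMap]
  · simp only [eqX, eqY, PhiMap]
    simp
    linear_combination (z 4 ^ 2 + 2 * z 2 ^ 2 * z 3 ^ 2 -
      (csqrt (1 + z 0) ^ 2 + (1 + z 0)) * z 3 ^ 4) * h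

end Pool.Agent.Helper395
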