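import Pool.Agent.Helper395.Generic

set_option linter.style.haveILetI false

namespace Pool.Agent.Helper395

open Polynomial

theorem no_poly_sq_X (A D : ℂ[X]) (hD : D ≠ 0) : A ^ 2 ≠ X * D ^ 2 := by
  intro h
  have hA : A ≠ 0 := by
    rintro rfl
    rw [zero_pow two_ne_zero, eq_comm] at h
    exact mul_ne_zero X_ne_zero (pow_ne_zero _ hD) h
  have h3 := congrArg natDegree h
  rw [natDegree_mul X_ne_zero (pow_ne_zero _ hD), natDegree_X, natDegree_pow, natDegree_pow] at h3
  omega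

theorem no_poly_sq_form (B D : ℂ[X]) (hD : D ≠ 0) : B ^ 2 * (X ^ 2 - 1) ≠ D ^ 2 := by
  intro h
  have hB : B ≠ 0 := by
    rintro rfl
    rw [zero_pow two_ne_zero, zero_mul, eq_comm] at h
    exact pow_ne_zero _ hD h
  have e : (X ^ 2 - 1 : ℂ[X]) = (X - C 1) * (X + C 1) := by simp; ring
  have h1 : (X - C 1 : ℂ[X]) ≠ 0 := X_sub_C_ne_zero 1
  have h2 : (X + C 1 : ℂ[X]) ≠ 0 := X_add_C_ne_zero 1
  have h3 := congrArg (rootMultiplicity 1) h
  rw [e, rootMultiplicity_mul (mul_ne_zero (pow_ne_zero _ hB) (mul_ne_zero h1 h2)),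
    rootMultiplicity_mul (mul_ne_zero h1 h2), sq, sq, rootMultiplicity_mul (mul_ne_zero hB hB),
    rootMultiplicity_mul (mul_ne_zero hD hD), rootMultiplicity_X_sub_C_self] at h3
  have h4 : rootMultiplicity 1 (X + C 1 : ℂ[X]) = 0 := by
    apply rootMultiplicity_eq_zero
    simp [IsRoot]
  rw [h4] at h3
  omega

theorem exists_field : ∃ (F : Type) (_ : Field F) (_ : Algebra ℂ F) (t r : F),
    t ^ 2 - r ^ 2 * t = 1 ∧ Transcendental ℂ t ∧ ¬ IsSquare t := by
  let K := FractionRing ℂ[X]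
  let τ : K := algebraMap ℂ[X] K X
  have hinj : Function.Injective (algebraMap ℂ[X] K) := IsFractionRing.injective _ _
  have hτ0 : τ ≠ 0 := (map_ne_zero_iff _ hinj).mpr X_ne_zero
  let δ : K := (τ ^ 2 - 1) / τ
  have hδτ : δ * τ = τ ^ 2 - 1 := div_mul_cancel₀ _ hτ0
  have hA1 : ∀ a : K, a ^ 2 ≠ τ := by
    intro a ha
    obtain ⟨A, D, hD, rfl⟩ := IsFractionRing.div_surjective (A := ℂ[X]) a
    have hD0 : D ≠ 0 := nonZeroDivisors.ne_zero hD
    have hD1 : algebraMap ℂ[X] K D ≠ 0 := (map_ne_zero_iff _ hinj).mpr hD0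
    apply no_poly_sq_X A D hD0
    apply hinj
    rw [div_pow, div_eq_iff (pow_ne_zero _ hD1)] at ha
    rw [map_pow, ha, map_mul, map_pow]
  have hA2 : ∀ a : K, a ^ 2 * δ ≠ τ := by
    intro a ha
    obtain ⟨A, D, hD, rfl⟩ := IsFractionRing.div_surjective (A := ℂ[X]) a
    have hD0 : D ≠ 0 := nonZeroDivisors.ne_zero hD
    have hD1 : algebraMap ℂ[X] K D ≠ 0 := (map_ne_zero_iff _ hinj).mpr hD0
    apply no_poly_sq_form A (X * D) (mul_ne_zero X_ne_zero hD0)
    apply hinj
    simp only [map_mul, map_pow, map_sub, map_one]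
    change algebraMap ℂ[X] K A ^ 2 * (τ ^ 2 - 1) = (τ * algebraMap ℂ[X] K D) ^ 2
    rw [← hδτ]
    have h2 : algebraMap ℂ[X] K A ^ 2 * δ = τ * algebraMap ℂ[X] K D ^ 2 := by
      rw [div_pow, div_mul_eq_mul_div, div_eq_iff (pow_ne_zero _ hD1)] at ha
      exact ha
    linear_combination τ * h2
  have hA3 : ∀ a : K, a ^ 2 ≠ δ := by
    intro a ha
    obtain ⟨A, D, hD, rfl⟩ := IsFractionRing.div_surjective (A := ℂ[X]) a
    have hD0 : D ≠ 0 := nonZeroDivisors.ne_zero hD
    have hD1 : algebraMap ℂ[X] K D ≠ 0 := (map_ne_zero_iff _ hinj).mpr hD0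
    apply hD0
    refine (eq_zero_of_form A D ?_).2
    apply hinj
    simp only [map_mul, map_pow, map_sub, map_one]
    change τ * algebraMap ℂ[X] K A ^ 2 = (τ ^ 2 - 1) * algebraMap ℂ[X] K D ^ 2
    rw [div_pow, div_eq_iff (pow_ne_zero _ hD1)] at ha
    rw [ha]
    linear_combination (algebraMap ℂ[X] K D ^ 2) * hδτ
  let f : K[X] := X ^ 2 - C δ
  have hirr : Irreducible f := X_pow_sub_C_irreducible_of_prime Nat.prime_two hA3
  have hfact : Fact (Irreducible f) := ⟨hirr⟩
  have hmonic : f.Monic := monic_X_pow_sub_C _ two_ne_zero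
  have hdeg : f.natDegree = 2 := natDegree_X_pow_sub_C
  let F := AdjoinRoot f
  let ρ : F := AdjoinRoot.root f
  have hρ : ρ ^ 2 = algebraMap K F δ := by
    have h1 : AdjoinRoot.mk f f = 0 := AdjoinRoot.mk_self
    simp only [f, map_sub, map_pow, AdjoinRoot.mk_X, AdjoinRoot.mk_C] at h1
    exact sub_eq_zero.mp h1
  refine ⟨F, inferInstance, inferInstance, algebraMap K F τ, ρ, ?_, ?_, ?_⟩
  · rw [hρ, ← map_mul, hδτ, ← map_pow, ← map_sub]
    simp
  · intro halg
    obtain ⟨G, hG, hG0⟩ := halg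
    apply hG
    apply hinj
    apply (algebraMap K F).injective
    rw [map_zero, map_zero]
    have h1 : aeval (algebraMap K F τ) G = algebraMap K F (aeval τ G) :=
      aeval_algebraMap_apply F τ G
    have h2 : aeval τ G = algebraMap ℂ[X] K (aeval X G) := aeval_algebraMap_apply K X G
    rw [aeval_X_left_apply] at h2
    rw [← h2, ← h1, hG0]
  · rintro ⟨z, hz⟩
    obtain ⟨g, rfl⟩ := AdjoinRoot.mk_surjective z
    obtain ⟨a, b, hab⟩ : ∃ a b : K, AdjoinRoot.mk f g = AdjoinRoot.mk f (C a * X + C b) := by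
      have h1 : (g %ₘ f).natDegree ≤ 1 := by
        have := natDegree_modByMonic_lt g hmonic (by
          intro h; rw [h] at hdeg; simp at hdeg)
        omega
      obtain ⟨a, b, hab⟩ := exists_eq_X_add_C_of_natDegree_le_one h1
      refine ⟨a, b, ?_⟩
      rw [← hab, AdjoinRoot.mk_eq_mk]
      exact ⟨g /ₘ f, by rw [sub_eq_iff_eq_add, add_comm]; exact (modByMonic_add_div g f).symm⟩
    rw [hab, ← map_mul] at hz
    have h1 : AdjoinRoot.mk f (C (2 * a * b) * X + C (a ^ 2 * δ + b ^ 2 - τ)) = 0 := by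
      have h2 : AdjoinRoot.mk f ((C a * X + C b) * (C a * X + C b)) = AdjoinRoot.mk f (C τ) := by
        rw [← hz]; rfl
      rw [← sub_eq_zero, ← map_sub] at h2
      have h3 : AdjoinRoot.mk f (C (a ^ 2) * f) = 0 := by
        rw [map_mul, AdjoinRoot.mk_self, mul_zero]
      have h4 := congrArg₂ (· - ·) h2 h3
      simp only [sub_zero] at h4
      rw [← map_sub] at h4
      convert h4 using 2
      simp only [f, map_mul, map_add, map_sub, map_pow, map_ofNat]
      ring
    rw [AdjoinRoot.mk_eq_zero] at h1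
    have h2 : C (2 * a * b) * X + C (a ^ 2 * δ + b ^ 2 - τ) = 0 := by
      apply eq_zero_of_dvd_of_natDegree_lt h1
      rw [hdeg]
      exact lt_of_le_of_lt natDegree_linear_le (by norm_num)
    have key : ∀ c₁ c₀ : K, C c₁ * X + C c₀ = 0 → c₁ = 0 ∧ c₀ = 0 := by
      intro c₁ c₀ h
      constructor
      · have := congrArg (coeff · 1) h
        simpa using this
      · have := congrArg (coeff · 0) h
        simpa using this
    obtain ⟨h3, h4⟩ := key _ _ h2
    rcases mul_eq_zero.mp h3 with h5 | h5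
    · have ha : a = 0 := by
        rcases mul_eq_zero.mp h5 with h6 | h6
        · exact absurd h6 two_ne_zero
        · exact h6
      subst ha
      apply hA1 b
      linear_combination h4
    · subst h5
      apply hA2 a
      linear_combination h4

end Pool.Agent.Helper395
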