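import Pool.Agent.Helper395.ExGerm
import Pool.Agent.Helper395.FieldF

open AlgebraicGeometry CategoryTheory CategoryTheory.Limits

set_option linter.style.haveILetI false

namespace Pool.Agent.Helper395

/-- A criterion for the singular locus to be nowhere dense. -/
theorem nowhere_dense_of_arc {A : Type} [CommRing A] (S : Set A)
    (h : ∀ (κ : Type) [Field κ] (θ : A →+* κ), (∀ j ∈ S, θ j = 0) →
      ∃ (R : Type) (_ : CommRing R) (_ : IsDomain R) (ψ : A →+* R) (I : Ideal R) (ι : κ →+* R),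
        I ≠ ⊤ ∧ (∀ x, ψ x - ι (θ x) ∈ I) ∧ ∃ j ∈ S, ψ j ≠ 0) :
    ∀ (𝔭 : Ideal A) (x : A), 𝔭.IsPrime → x ∉ 𝔭 → ¬ ∀ j ∈ S, x * j = 0 := by
  intro 𝔭 x h𝔭 hx hcon
  let κ := FractionRing (A ⧸ 𝔭)
  let θ : A →+* κ := (algebraMap (A ⧸ 𝔭) κ).comp (Ideal.Quotient.mk 𝔭)
  have hθ : ∀ a, θ a = 0 ↔ a ∈ 𝔭 := by
    intro a
    change algebraMap (A ⧸ 𝔭) κ (Ideal.Quotient.mk 𝔭 a) = 0 ↔ _
    rw [map_eq_zero_iff _ (IsFractionRing.injective (A ⧸ 𝔭) κ), Ideal.Quotient.eq_zero_iff_mem]
  obtain ⟨R, _, _, ψ, I, ι, hI, hψ, j, hj, hψj⟩ := h κ θ (by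
    intro j hj
    rw [hθ]
    have : x * j ∈ 𝔭 := by rw [hcon j hj]; exact 𝔭.zero_mem
    exact (h𝔭.mem_or_mem this).resolve_left hx)
  have h1 : ψ x = 0 := by
    have := congrArg ψ (hcon j hj)
    rw [map_mul, map_zero] at this
    exact (mul_eq_zero.mp this).resolve_right hψj
  have h2 := hψ x
  rw [h1, zero_sub, neg_mem_iff] at h2
  have h3 : IsUnit (ι (θ x)) := (IsUnit.mk0 _ (fun h0 => hx ((hθ x).mp h0))).map ι
  exact hI (Ideal.eq_top_of_isUnit_mem _ h2 h3)

section

variable (I : Ideal (MvPolynomial (Fin 5) ℂ))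

/-- The three coordinates vanishing on the distinguished curve. -/
def coordS : Set (MvPolynomial (Fin 5) ℂ ⧸ I) :=
  {Ideal.Quotient.mk I (MvPolynomial.X 2), Ideal.Quotient.mk I (MvPolynomial.X 3),
    Ideal.Quotient.mk I (MvPolynomial.X 4)}

theorem coord_hgen (x : MvPolynomial (Fin 5) ℂ ⧸ I) :
    ∃ p ∈ Algebra.adjoin ℂ ({1 + Ideal.Quotient.mk I (MvPolynomial.X 0),
      Ideal.Quotient.mk I (MvPolynomial.X 1)} : Set (MvPolynomial (Fin 5) ℂ ⧸ I)),
      x - p ∈ Ideal.span (coordS I) := by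
  obtain ⟨P, rfl⟩ := Ideal.Quotient.mk_surjective x
  set t := 1 + Ideal.Quotient.mk I (MvPolynomial.X 0) with ht
  set r := Ideal.Quotient.mk I (MvPolynomial.X 1) with hr
  let Q := Algebra.adjoin ℂ ({t, r} : Set (MvPolynomial (Fin 5) ℂ ⧸ I))
  have htQ : t ∈ Q := Algebra.subset_adjoin (by simp)
  have hrQ : r ∈ Q := Algebra.subset_adjoin (by simp)
  have hX : ∀ i : Fin 5, ∃ p ∈ Q,
      Ideal.Quotient.mk I (MvPolynomial.X i) - p ∈ Ideal.span (coordS I) := by
    intro i
    fin_cases i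
    · exact ⟨t - 1, Q.sub_mem htQ Q.one_mem, by simp [ht]⟩
    · exact ⟨r, hrQ, by simp [hr]⟩
    · exact ⟨0, Q.zero_mem, by
        rw [sub_zero]; exact Ideal.subset_span (by simp [coordS])⟩
    · exact ⟨0, Q.zero_mem, by
        rw [sub_zero]; exact Ideal.subset_span (by simp [coordS])⟩
    · exact ⟨0, Q.zero_mem, by
        rw [sub_zero]; exact Ideal.subset_span (by simp [coordS])⟩
  induction P using MvPolynomial.induction_on with
  | C z => exact ⟨algebraMap ℂ _ z, Q.algebraMap_mem z, by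
      have : Ideal.Quotient.mk I (MvPolynomial.C z) = algebraMap ℂ _ z := rfl
      rw [this, sub_self]; exact Ideal.zero_mem _⟩
  | add P P' h h' =>
    obtain ⟨p, hp, h1⟩ := h
    obtain ⟨p', hp', h2⟩ := h'
    refine ⟨p + p', Q.add_mem hp hp', ?_⟩
    have := Ideal.add_mem _ h1 h2
    rw [map_add]
    convert this using 1
    ring
  | mul_X P i h =>
    obtain ⟨p, hp, h1⟩ := h
    obtain ⟨p', hp', h2⟩ := hX i
    refine ⟨p * p', Q.mul_mem hp hp', ?_⟩
    have := Ideal.add_mem _ (Ideal.mul_mem_right (Ideal.Quotient.mk I (MvPolynomial.X i)) _ h1)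
      (Ideal.mul_mem_left _ p h2)
    rw [map_mul]
    convert this using 1
    ring

end

/-- A homomorphism out of the coordinate ring of `Y`. -/
theorem exists_lift_AY {R : Type} [CommRing R] (i : ℂ →+* R) (t r p q w : R)
    (h₁ : t ^ 2 - r ^ 2 * t - 1 = 0)
    (h₂ : t * w ^ 2 - (p ^ 2 - t * q ^ 2) ^ 2 - p ^ 5 = 0) :
    ∃ ψ : AY →+* R, ψ.comp (algebraMap ℂ AY) = i ∧
      ψ (1 + Ideal.Quotient.mk _ (MvPolynomial.X 0)) = t ∧
      ψ (Ideal.Quotient.mk _ (MvPolynomial.X 1)) = r ∧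
      ψ (Ideal.Quotient.mk _ (MvPolynomial.X 2)) = p ∧
      ψ (Ideal.Quotient.mk _ (MvPolynomial.X 3)) = q ∧
      ψ (Ideal.Quotient.mk _ (MvPolynomial.X 4)) = w := by
  let v : Fin 5 → R := ![t - 1, r, p, q, w]
  let φ : MvPolynomial (Fin 5) ℂ →+* R := MvPolynomial.eval₂Hom i v
  have hφX : ∀ k, φ (MvPolynomial.X k) = v k := fun k => MvPolynomial.eval₂Hom_X' i v k
  have hker : ∀ a ∈ Ideal.span (Set.range eqY), φ a = 0 := by
    intro a ha
    have : Ideal.span (Set.range eqY) ≤ RingHom.ker φ := by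
      rw [Ideal.span_le]
      rintro _ ⟨k, rfl⟩
      change φ (eqY k) = 0
      fin_cases k
      · simp only [eqY, Fin.zero_eta, Matrix.cons_val_zero, map_sub, map_mul, map_pow, map_add,
          map_one, hφX]
        change (1 + (t - 1)) ^ 2 - r ^ 2 * (1 + (t - 1)) - 1 = 0
        linear_combination h₁
      · simp only [eqY, Fin.mk_one, Matrix.cons_val_one, Matrix.cons_val_zero, map_sub, map_mul,
          map_pow, map_add, map_one, hφX]
        change (1 + (t - 1)) * w ^ 2 - (p ^ 2 - (1 + (t - 1)) * q ^ 2) ^ 2 - p ^ 5 = 0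
        linear_combination h₂
    exact this ha
  refine ⟨Ideal.Quotient.lift _ φ hker, ?_, ?_, hφX 1, hφX 2, hφX 3, hφX 4⟩
  · ext c
    exact MvPolynomial.eval₂Hom_C i v c
  · rw [map_add, map_one]
    have : (Ideal.Quotient.lift _ φ hker) (Ideal.Quotient.mk _ (MvPolynomial.X 0)) = t - 1 :=
      hφX 0
    rw [this]; ring

theorem eqY_zero : eqY 0 = (1 + MvPolynomial.X 0) ^ 2 -
    MvPolynomial.X 1 ^ 2 * (1 + MvPolynomial.X 0) - 1 := rfl

theorem eqY_one : eqY 1 = (1 + MvPolynomial.X 0) * MvPolynomial.X 4 ^ 2 -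
    (MvPolynomial.X 2 ^ 2 - (1 + MvPolynomial.X 0) * MvPolynomial.X 3 ^ 2) ^ 2 -
    MvPolynomial.X 2 ^ 5 := rfl

theorem AY_rel₁ (r t : AY) (ht : t = 1 + Ideal.Quotient.mk _ (MvPolynomial.X 0))
    (hr : r = Ideal.Quotient.mk _ (MvPolynomial.X 1)) : t ^ 2 - r ^ 2 * t = 1 := by
  have h : Ideal.Quotient.mk (Ideal.span (Set.range eqY)) (eqY 0) = 0 :=
    Ideal.Quotient.eq_zero_iff_mem.mpr (Ideal.subset_span ⟨0, rfl⟩)
  rw [eqY_zero] at h
  simp only [map_sub, map_mul, map_pow, map_add, map_one] at h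
  rw [ht, hr]
  linear_combination h

theorem AY_rel₂ (t p q w : AY) (ht : t = 1 + Ideal.Quotient.mk _ (MvPolynomial.X 0))
    (hp : p = Ideal.Quotient.mk _ (MvPolynomial.X 2))
    (hq : q = Ideal.Quotient.mk _ (MvPolynomial.X 3))
    (hw : w = Ideal.Quotient.mk _ (MvPolynomial.X 4)) :
    t * w ^ 2 = (p ^ 2 - t * q ^ 2) ^ 2 + p ^ 5 := by
  have h : Ideal.Quotient.mk (Ideal.span (Set.range eqY)) (eqY 1) = 0 :=
    Ideal.Quotient.eq_zero_iff_mem.mpr (Ideal.subset_span ⟨1, rfl⟩)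
  rw [eqY_one] at h
  simp only [map_sub, map_mul, map_pow, map_add, map_one] at h
  rw [ht, hp, hq, hw]
  linear_combination h

theorem AY_squareProperty : SquareProperty (A := AY)
    (1 + Ideal.Quotient.mk _ (MvPolynomial.X 0)) (coordS (Ideal.span (Set.range eqY))) := by
  intro D _ _ _ θ hθ hne
  set I := Ideal.span (Set.range eqY)
  have h1 := AY_rel₁ _ _ rfl rfl
  have h2 := congrArg θ (AY_rel₂ _ _ _ _ rfl rfl rfl rfl)
  simp only [map_mul, map_pow, map_sub, map_add, map_one] at h2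
  have hu : IsUnit (θ (1 + Ideal.Quotient.mk I (MvPolynomial.X 0))) := by
    apply IsUnit.map
    refine IsUnit.of_mul_eq_one (1 + Ideal.Quotient.mk I (MvPolynomial.X 0) -
      Ideal.Quotient.mk I (MvPolynomial.X 1) ^ 2) ?_
    linear_combination h1
  have hp := hθ (Ideal.Quotient.mk I (MvPolynomial.X 2)) (by simp [coordS, I])
  have hq := hθ (Ideal.Quotient.mk I (MvPolynomial.X 3)) (by simp [coordS, I])
  have hw := hθ (Ideal.Quotient.mk I (MvPolynomial.X 4)) (by simp [coordS, I])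
  refine isSquare_residue_of_cusp hu hp hq hw ?_ ?_
  · rintro ⟨e1, e2, e3⟩
    obtain ⟨j, hj, hj0⟩ := hne
    rcases hj with rfl | rfl | rfl
    · exact hj0 e1
    · exact hj0 e2
    · exact hj0 e3
  · rw [map_add, map_one]
    exact h2

open Polynomial in
theorem AY_nowhere_dense : ∀ (𝔭 : Ideal AY) (x : AY), 𝔭.IsPrime → x ∉ 𝔭 →
    ¬ ∀ j ∈ coordS (Ideal.span (Set.range eqY)), x * j = 0 := by
  apply nowhere_dense_of_arc
  intro κ _ θ hθ
  set I := Ideal.span (Set.range eqY)
  set t := θ (1 + Ideal.Quotient.mk I (MvPolynomial.X 0)) with ht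
  set r := θ (Ideal.Quotient.mk I (MvPolynomial.X 1)) with hr
  have hrel := congrArg θ (AY_rel₁ _ _ rfl rfl)
  simp only [map_sub, map_mul, map_pow, map_one] at hrel
  rw [← ht, ← hr] at hrel
  have ht0 : t ≠ 0 := by
    intro h0
    rw [h0] at hrel
    simp at hrel
  let m : κ[X] := C t * X ^ 2 - 1
  have hdeg : m.natDegree = 2 := by
    have : m = C t * X ^ 2 + C 0 * X + C (-1) := by simp [m]; ring
    rw [this]
    exact natDegree_quadratic ht0
  have hm0 : m ≠ 0 := by
    intro h0; rw [h0] at hdeg; simp at hdeg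
  obtain ⟨ψ, hψC, hψt, hψr, hψp, hψq, hψw⟩ := exists_lift_AY
    (C.comp (θ.comp (algebraMap ℂ AY))) (C t) (C r) m 0 (X * m ^ 2)
    (by
      have e1 : (C t ^ 2 - C r ^ 2 * C t - 1 : κ[X]) = C (t ^ 2 - r ^ 2 * t - 1) := by
        simp only [C_sub, C_mul, C_pow, C_1]
      rw [e1, show t ^ 2 - r ^ 2 * t - 1 = 0 by linear_combination hrel, C_0])
    (by
      simp only [m]
      ring)
  refine ⟨κ[X], inferInstance, inferInstance, ψ, Ideal.span {m}, C, ?_, ?_, ?_⟩
  · rw [Ne, Ideal.span_singleton_eq_top]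
    intro hu
    have := natDegree_eq_zero_of_isUnit hu
    omega
  · intro x
    obtain ⟨P, rfl⟩ := Ideal.Quotient.mk_surjective x
    induction P using MvPolynomial.induction_on with
    | C z =>
      have h1 : Ideal.Quotient.mk I (MvPolynomial.C z) = algebraMap ℂ AY z := rfl
      rw [h1]
      have h2 := congrArg (fun f => f z) hψC
      have h3 : ψ (algebraMap ℂ AY z) = C (θ (algebraMap ℂ AY z)) := h2
      rw [h3, sub_self]
      exact Ideal.zero_mem _
    | add P P' h h' =>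
      have := Ideal.add_mem _ h h'
      rw [map_add, map_add, map_add, map_add]
      convert this using 1
      ring
    | mul_X P i h =>
      have hi : ψ (Ideal.Quotient.mk I (MvPolynomial.X i)) -
          C (θ (Ideal.Quotient.mk I (MvPolynomial.X i))) ∈ Ideal.span {m} := by
        have hθ2 : θ (Ideal.Quotient.mk I (MvPolynomial.X 2)) = 0 := hθ _ (by simp [coordS, I])
        have hθ3 : θ (Ideal.Quotient.mk I (MvPolynomial.X 3)) = 0 := hθ _ (by simp [coordS, I])
        have hθ4 : θ (Ideal.Quotient.mk I (MvPolynomial.X 4)) = 0 := hθ _ (by simp [coordS, I])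
        fin_cases i
        · have e1 : ψ (Ideal.Quotient.mk I (MvPolynomial.X 0)) = C t - 1 := by
            rw [← hψt, map_add, map_one]; ring
          have e2 : θ (Ideal.Quotient.mk I (MvPolynomial.X 0)) = t - 1 := by
            rw [ht, map_add, map_one]; ring
          change ψ (Ideal.Quotient.mk I (MvPolynomial.X 0)) -
            C (θ (Ideal.Quotient.mk I (MvPolynomial.X 0))) ∈ _
          rw [e1, e2, C_sub, C_1, sub_self]
          exact Ideal.zero_mem _
        · change ψ (Ideal.Quotient.mk I (MvPolynomial.X 1)) - C r ∈ _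
          rw [hψr, sub_self]
          exact Ideal.zero_mem _
        · change ψ (Ideal.Quotient.mk I (MvPolynomial.X 2)) -
            C (θ (Ideal.Quotient.mk I (MvPolynomial.X 2))) ∈ _
          rw [hψp, hθ2, C_0, sub_zero]
          exact Ideal.mem_span_singleton_self m
        · change ψ (Ideal.Quotient.mk I (MvPolynomial.X 3)) -
            C (θ (Ideal.Quotient.mk I (MvPolynomial.X 3))) ∈ _
          rw [hψq, hθ3, C_0, sub_zero]
          exact Ideal.zero_mem _
        · change ψ (Ideal.Quotient.mk I (MvPolynomial.X 4)) -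
            C (θ (Ideal.Quotient.mk I (MvPolynomial.X 4))) ∈ _
          rw [hψw, hθ4, C_0, sub_zero, sq, ← mul_assoc]
          exact Ideal.mul_mem_left _ _ (Ideal.mem_span_singleton_self m)
      have := Ideal.add_mem _
        (Ideal.mul_mem_right (ψ (Ideal.Quotient.mk I (MvPolynomial.X i))) _ h)
        (Ideal.mul_mem_left _ (C (θ (Ideal.Quotient.mk I P))) hi)
      rw [map_mul, map_mul, map_mul, map_mul]
      convert this using 1
      ring
  · refine ⟨Ideal.Quotient.mk I (MvPolynomial.X 2), by simp [coordS, I], ?_⟩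
    rw [hψp]
    exact hm0

theorem AY_not_propertyU (y : Spec (.of AY))
    (hy : ∀ i, Ideal.Quotient.mk (Ideal.span (Set.range eqY)) (MvPolynomial.X i) ∈ y.asIdeal) :
    ¬ PropertyU (str AY) y := by
  obtain ⟨F, _, _, t, r, htr, htrans, hsq⟩ := exists_field
  obtain ⟨ψ, hψC, hψt, hψr, hψp, hψq, hψw⟩ := exists_lift_AY (algebraMap ℂ F) t r 0 0 0
    (by linear_combination htr) (by ring)
  let ε : AY →ₐ[ℂ] F := { ψ with commutes' := fun c => congrArg (fun f => f c) hψC }
  have hεψ : ∀ x, ε x = ψ x := fun _ => rfl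
  set I := Ideal.span (Set.range eqY)
  have hεS : ∀ j ∈ coordS I, ε j = 0 := by
    intro j hj
    rcases hj with rfl | rfl | rfl
    · exact hψp
    · exact hψq
    · exact hψw
  have hrel := AY_rel₁ _ _ rfl rfl
  have htrans' : Transcendental ℂ (ε (1 + Ideal.Quotient.mk I (MvPolynomial.X 0))) := by
    rw [hεψ, hψt]; exact htrans
  refine not_propertyU (1 + Ideal.Quotient.mk I (MvPolynomial.X 0))
    (Ideal.Quotient.mk I (MvPolynomial.X 1)) (coordS I) ?_ (coord_hgen I) hrel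
    AY_squareProperty AY_nowhere_dense ψ hψC hεS ?_ ?_ y ?_
  · unfold coordS; exact Set.toFinite _
  · rw [hψt]; exact hsq
  · intro x hx
    exact generic_norm _ _ (coordS I) (coord_hgen I) hrel ε hεS htrans' x hx
  · intro x hx
    have h1 := ker_le_span _ _ (coordS I) (coord_hgen I) hrel ε hεS htrans' x hx
    have h2 : Ideal.span (coordS I) ≤ y.asIdeal := by
      rw [Ideal.span_le]
      rintro j hj
      rcases hj with rfl | rfl | rfl
      · exact hy 2
      · exact hy 3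
      · exact hy 4
    exact h2 h1

end Pool.Agent.Helper395
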