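import Pool.Agent.Helper395.XPush
import Pool.Agent.Helper395.ExNotU

open AlgebraicGeometry CategoryTheory CategoryTheory.Limits

set_option linter.style.haveILetI false

namespace Pool.Agent.Helper395

theorem propertyU_of_product {S T Y : Scheme.{0}} (sS : S ⟶ Spec (.of ℂ)) [IsSeparated sS]
    [LocallyOfFiniteType sS] (f : T ⟶ S) [IsProper f] (hsm : Smooth (f ≫ sS))
    (hbir : IsBirationalMorphism f) (p : Y ⟶ S) (b : Y ⟶ Spec (.of (Polynomial ℂ)))
    (h : IsPullback p b sS (str (Polynomial ℂ))) (y : Y) : PropertyU (p ≫ sS) y := by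
  refine ⟨⊤, trivial, ?_⟩
  have h' : IsPullback ((⊤ : Y.Opens).ι ≫ p) ((⊤ : Y.Opens).ι ≫ b) sS (str (Polynomial ℂ)) := by
    have e : ∀ (Z : Scheme.{0}) (g : Y ⟶ Z), g = Y.topIso.inv ≫ (⊤ : Y.Opens).ι ≫ g := by
      intro Z g
      rw [← Category.assoc, Scheme.toIso_inv_ι, Category.id_comp]
    refine IsPullback.of_iso h Y.topIso.symm (Iso.refl _) (Iso.refl _) (Iso.refl _)
      ?_ ?_ ?_ ?_
    · rw [Iso.refl_hom, Category.comp_id]; exact e _ _
    · rw [Iso.refl_hom, Category.comp_id]; exact e _ _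
    · rw [Iso.refl_hom, Iso.refl_hom, Category.comp_id, Category.id_comp]
    · rw [Iso.refl_hom, Iso.refl_hom, Category.comp_id, Category.id_comp]
  have := hasResolution_of_product sS f hsm hbir _ _ h'
  rwa [Category.assoc] at this

theorem AX_propertyU (x : Spec (.of AX)) : PropertyU (str AX) x := by
  have := locallyOfFiniteType_str OS
  have h := propertyU_of_product (str OS) resol.f smooth_resol birational_resol _ _
    isPullback_AX x
  have e : Spec.map (CommRingCat.ofHom (iotaS : OS →+* AX)) ≫ str OS = str AX := by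
    change Spec.map _ ≫ Spec.map _ = _
    rw [← Spec.map_comp, ← CommRingCat.ofHom_comp]
    congr 2
    exact iotaS.comp_algebraMap
  rwa [e] at h

theorem isVariety_str (A : Type) [CommRing A] [Algebra ℂ A] [Algebra.FiniteType ℂ A] :
    IsVariety (str A) :=
  ⟨inferInstance, locallyOfFiniteType_str A, inferInstance⟩

theorem exists_origin (e : Fin 2 → MvPolynomial (Fin 5) ℂ)
    (he : ∀ i, MvPolynomial.eval 0 (e i) = 0) :
    ∃ x : PrimeSpectrum (MvPolynomial (Fin 5) ℂ ⧸ Ideal.span (Set.range e)),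
      IsClosed ({x} : Set (PrimeSpectrum (MvPolynomial (Fin 5) ℂ ⧸ Ideal.span (Set.range e)))) ∧
      ∀ i, Ideal.Quotient.mk (Ideal.span (Set.range e)) (MvPolynomial.X i) ∈ x.asIdeal := by
  let k : (MvPolynomial (Fin 5) ℂ ⧸ Ideal.span (Set.range e)) →+* ℂ :=
    Ideal.Quotient.lift _ (MvPolynomial.eval 0) (by
      intro a ha
      have : Ideal.span (Set.range e) ≤ RingHom.ker (MvPolynomial.eval (0 : Fin 5 → ℂ)) := by
        rw [Ideal.span_le]
        rintro _ ⟨i, rfl⟩
        exact he i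
      exact this ha)
  have hk : Function.Surjective k := by
    intro c
    exact ⟨Ideal.Quotient.mk _ (MvPolynomial.C c), MvPolynomial.eval_C c⟩
  have hmax : (RingHom.ker k).IsMaximal := RingHom.ker_isMaximal_of_surjective k hk
  refine ⟨⟨RingHom.ker k, hmax.isPrime⟩, ?_, ?_⟩
  · rw [PrimeSpectrum.isClosed_singleton_iff_isMaximal]
    exact hmax
  · intro i
    change k (Ideal.Quotient.mk _ (MvPolynomial.X i)) = 0
    change MvPolynomial.eval (0 : Fin 5 → ℂ) (MvPolynomial.X i) = 0
    rw [MvPolynomial.eval_X]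
    rfl

theorem main : ∃ (X Y : Scheme.{0}) (sX : X ⟶ Spec (.of ℂ)) (sY : Y ⟶ Spec (.of ℂ)) (x : X) (y : Y),
    IsVariety sX ∧ IsVariety sY ∧ IsClosed ({x} : Set X) ∧ IsClosed ({y} : Set Y) ∧
    AnalyticGermIso sX x sY y ∧ PropertyU sX x ∧ ¬ PropertyU sY y := by
  obtain ⟨x, hxc, hx⟩ := exists_origin eqX (by
    intro i
    fin_cases i
    · simp [eqX]
    · simp [eqX])
  obtain ⟨y, hyc, hy⟩ := exists_origin eqY (by
    intro i
    fin_cases i
    · simp [eqY]
    · simp [eqY])
  exact ⟨Spec (.of AX), Spec (.of AY), str AX, str AY, x, y, isVariety_str AX, isVariety_str AY,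
    hxc, hyc, germIso_example x hx y hy, AX_propertyU x, AY_not_propertyU y hy⟩

end Pool.Agent.Helper395
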