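import Mathlib

namespace Pool.Agent.Helper395

/-- If `L` contains a square root of the nonsquare `d`, norms from `L` to `K` are values of the
form `a² - d b²`. -/
theorem norm_eq_sub_sq {K L : Type*} [Field K] [Field L] [Algebra K L] [FiniteDimensional K L]
    (d : K) (hd : ¬ IsSquare d) (ρ : L) (hρ : ρ ^ 2 = algebraMap K L d) (h : L) :
    ∃ a b : K, Algebra.norm K h = a ^ 2 - d * b ^ 2 := by
  classical
  have hint : IsIntegral K ρ := Algebra.IsIntegral.isIntegral ρ
  have hirr : Irreducible (Polynomial.X ^ 2 - Polynomial.C d : Polynomial K) := by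
    rw [Polynomial.irreducible_iff_roots_eq_zero_of_degree_le_three]
    · rw [Multiset.eq_zero_iff_forall_notMem]
      intro x hx
      rw [Polynomial.mem_roots'] at hx
      apply hd
      refine ⟨x, ?_⟩
      have := hx.2
      simp only [Polynomial.IsRoot.def, Polynomial.eval_sub, Polynomial.eval_pow,
        Polynomial.eval_X, Polynomial.eval_C] at this
      linear_combination -this
    · rw [Polynomial.natDegree_X_pow_sub_C]
    · rw [Polynomial.natDegree_X_pow_sub_C]; norm_num
  have hmin : minpoly K ρ = Polynomial.X ^ 2 - Polynomial.C d := by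
    symm
    apply minpoly.eq_of_irreducible_of_monic hirr
    · simp [hρ]
    · exact Polynomial.monic_X_pow_sub_C d two_ne_zero
  let E := IntermediateField.adjoin K {ρ}
  let pb : PowerBasis K E := IntermediateField.adjoin.powerBasis hint
  have hdim : pb.dim = 2 := by
    change (minpoly K ρ).natDegree = 2
    rw [hmin, Polynomial.natDegree_X_pow_sub_C]
  let bs : Module.Basis (Fin 2) K E := pb.basis.reindex (finCongr hdim)
  have hgen : (pb.gen : L) = ρ := by
    simp [pb]
  have hb0 : bs 0 = 1 := by
    simp [bs, PowerBasis.basis_eq_pow]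
  have hb1 : bs 1 = pb.gen := by
    simp [bs, PowerBasis.basis_eq_pow]
  have hsq : pb.gen * pb.gen = algebraMap K E d := by
    apply Subtype.ext
    change (pb.gen : L) * (pb.gen : L) = algebraMap K L d
    rw [hgen, ← hρ]; ring
  let y : E := Algebra.norm E h
  have hy : Algebra.norm K h = Algebra.norm K y := (Algebra.norm_norm).symm
  let a := bs.repr y 0
  let b := bs.repr y 1
  have hyab : y = algebraMap K E a + algebraMap K E b * pb.gen := by
    have := bs.sum_repr y
    rw [Fin.sum_univ_two, hb0, hb1] at this
    rw [← this]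
    simp [Algebra.smul_def, a, b]
  refine ⟨a, b, ?_⟩
  rw [hy, Algebra.norm_eq_matrix_det bs, Matrix.det_fin_two]
  have e0 : y * bs 0 = a • bs 0 + b • bs 1 := by
    rw [hb0, hb1, hyab]; simp [Algebra.smul_def]
  have e1 : y * bs 1 = (d * b) • bs 0 + a • bs 1 := by
    rw [hb0, hb1, hyab]
    simp only [Algebra.smul_def, map_mul]
    linear_combination (algebraMap K E b) * hsq
  have r00 : Algebra.leftMulMatrix bs y 0 0 = a := by
    rw [Algebra.leftMulMatrix_eq_repr_mul, e0]; simp
  have r10 : Algebra.leftMulMatrix bs y 1 0 = b := by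
    rw [Algebra.leftMulMatrix_eq_repr_mul, e0]; simp
  have r01 : Algebra.leftMulMatrix bs y 0 1 = d * b := by
    rw [Algebra.leftMulMatrix_eq_repr_mul, e1]; simp
  have r11 : Algebra.leftMulMatrix bs y 1 1 = a := by
    rw [Algebra.leftMulMatrix_eq_repr_mul, e1]; simp
  rw [r00, r10, r01, r11]; ring

end Pool.Agent.Helper395
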