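import Pool.Agent.Helper395.Chi
import Pool.Agent.Helper395.NormForm

namespace Pool.Agent.Helper395

open Polynomial UniqueFactorizationMonoid

section
variable {F : Type*} [Field F] [Algebra ℂ F] (G : ℂ[X])
  {P : Type*} [CommRing P] [Algebra F[X] P]

/-- `c` represents the class of the ideal `I`. -/
def Rel (F : Type*) [Field F] {P : Type*} [CommRing P] [Algebra F[X] P] (I : Ideal P) (c : F) :
    Prop :=
  ∃ d : F[X], d ≠ 0 ∧ I = Ideal.span {algebraMap F[X] P d} ∧ IsSquare (c * chi d)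

omit [Algebra ℂ F] in
theorem Rel.mul {I J : Ideal P} {a b : F} (h₁ : Rel F I a) (h₂ : Rel F J b) :
    Rel F (I * J) (a * b) := by
  obtain ⟨d, hd, rfl, hd'⟩ := h₁
  obtain ⟨e, he, rfl, he'⟩ := h₂
  refine ⟨d * e, mul_ne_zero hd he, ?_, ?_⟩
  · rw [Ideal.span_singleton_mul_span_singleton, map_mul]
  · have e1 : a * b * chi (d * e) = (a * chi d) * (b * chi e) := by rw [chi_mul]; ring
    rw [e1]
    exact hd'.mul he'

omit [Algebra ℂ F] in
theorem Rel.one : Rel F (1 : Ideal P) 1 :=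
  ⟨1, one_ne_zero, by simp, by rw [chi_one]; exact ⟨1, by simp⟩⟩

omit [Algebra ℂ F] in
theorem Rel.pow {I : Ideal P} {a : F} (h : Rel F I a) (n : ℕ) : Rel F (I ^ n) (a ^ n) := by
  induction n with
  | zero => rw [pow_zero, pow_zero]; exact Rel.one
  | succ n ih => rw [pow_succ, pow_succ]; exact ih.mul h

omit [Algebra ℂ F] in
theorem Rel.multiset {ι : Type*} (m : Multiset ι) (f : ι → Ideal P) (g : ι → F)
    (h : ∀ i ∈ m, Rel F (f i) (g i)) : Rel F (m.map f).prod (m.map g).prod := by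
  induction m using Multiset.induction_on with
  | empty => simpa using Rel.one
  | cons a m ih =>
    rw [Multiset.map_cons, Multiset.map_cons, Multiset.prod_cons, Multiset.prod_cons]
    exact (h a (Multiset.mem_cons_self a m)).mul
      (ih fun i hi => h i (Multiset.mem_cons_of_mem hi))

/-- The norm of the coordinate at a maximal ideal of the localized polynomial ring. -/
theorem rel_maximal [IsLocalization.Away (G.map (algebraMap ℂ F)) P] (hXG : X ∣ G)
    [Algebra F P] [IsScalarTower F F[X] P]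
    (𝔭 : Ideal P) [h𝔭 : 𝔭.IsMaximal] (hbot : 𝔭 ≠ ⊥) :
    Rel F 𝔭 (Algebra.norm F (Ideal.Quotient.mk 𝔭 (algebraMap F[X] P X))) := by
  classical
  let GF := G.map (algebraMap ℂ F)
  let q : Ideal F[X] := 𝔭.comap (algebraMap F[X] P)
  have hq : q.IsPrime := Ideal.IsPrime.comap _
  have hmap : q.map (algebraMap F[X] P) = 𝔭 :=
    IsLocalization.map_under (Submonoid.powers GF) P 𝔭
  obtain ⟨π, hπ⟩ := (IsPrincipalIdealRing.principal q).principal
  have hπ' : q = Ideal.span {π} := hπ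
  have hπ0 : π ≠ 0 := by
    rintro rfl
    apply hbot
    rw [← hmap, hπ']; simp
  have hqbot : q ≠ ⊥ := by
    rw [hπ']; simpa using hπ0
  have hqmax : q.IsMaximal := hq.isMaximal hqbot
  have hirr : Irreducible π := by
    have : Prime π := (Ideal.span_singleton_prime hπ0).mp (hπ' ▸ hq)
    exact this.irreducible
  have hGq : GF ∉ q := by
    intro hG
    apply h𝔭.ne_top
    apply Ideal.eq_top_of_isUnit_mem _ (show algebraMap F[X] P GF ∈ 𝔭 from hG)
    exact IsLocalization.Away.algebraMap_isUnit GF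
  have hπ00 : π.coeff 0 ≠ 0 := by
    intro h0
    apply hGq
    have hXπ : X ∣ π := X_dvd_iff.mpr h0
    have hass : π ∣ X := irreducible_X.dvd_symm hirr hXπ
    rw [hπ', Ideal.mem_span_singleton]
    refine hass.trans ?_
    obtain ⟨G', hG'⟩ := hXG
    exact ⟨G'.map (algebraMap ℂ F), by simp [GF, hG']⟩
  -- the residue field
  let _ : Field (P ⧸ 𝔭) := Ideal.Quotient.field 𝔭
  let x : P ⧸ 𝔭 := Ideal.Quotient.mk 𝔭 (algebraMap F[X] P X)
  have haeval : ∀ g : F[X], aeval x g = Ideal.Quotient.mk 𝔭 (algebraMap F[X] P g) := by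
    intro g
    have h1 : (aeval x : F[X] →ₐ[F] (P ⧸ 𝔭)) =
        ((Ideal.Quotient.mkₐ F 𝔭).comp (IsScalarTower.toAlgHom F F[X] P)) := by
      apply Polynomial.algHom_ext
      simp [x]
    rw [h1]; rfl
  have hroot : aeval x π = 0 := by
    rw [haeval, Ideal.Quotient.eq_zero_iff_mem]
    change π ∈ q
    rw [hπ']; exact Ideal.mem_span_singleton_self π
  have hmin : π * C (π.leadingCoeff)⁻¹ = minpoly F x := minpoly.eq_of_irreducible hirr hroot
  have hint : IsIntegral F x := by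
    rw [← minpoly.ne_zero_iff, ← hmin]
    exact mul_ne_zero hπ0 (by simpa using hπ0)
  have hadj : Algebra.adjoin F {x} = ⊤ := by
    rw [eq_top_iff]
    rintro y -
    have hsurj := IsLocalization.surjective_quotientMap_of_maximal_of_localization
      (Submonoid.powers GF) P (I := 𝔭) (J := q) (H := le_rfl) hqmax
    obtain ⟨z, hz⟩ := hsurj y
    obtain ⟨g, rfl⟩ := Ideal.Quotient.mk_surjective z
    have : y = aeval x g := by rw [haeval, ← hz]; rfl
    rw [this]
    exact Polynomial.aeval_mem_adjoin_singleton F x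
  let pb := PowerBasis.ofAdjoinEqTop hint hadj
  have hgen : pb.gen = x := PowerBasis.ofAdjoinEqTop_gen hint hadj
  have hnorm : Algebra.norm F x = (-1) ^ pb.dim * (π.coeff 0 * π.leadingCoeff⁻¹) := by
    rw [← hgen, Algebra.PowerBasis.norm_gen_eq_coeff_zero_minpoly, hgen, ← hmin]
    simp
  refine ⟨π, hπ0, ?_, ?_⟩
  · rw [← hmap, hπ', Ideal.map_span, Set.image_singleton]
  · change IsSquare (Algebra.norm F x * chi π)
    rw [hnorm, chi]
    have htc : π.trailingCoeff = π.coeff 0 := by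
      rw [trailingCoeff, (natTrailingDegree_eq_zero).mpr (Or.inr hπ00)]
    rw [htc]
    have hlc : π.leadingCoeff ≠ 0 := by simpa using hπ0
    have : (-1) ^ pb.dim * (π.coeff 0 * π.leadingCoeff⁻¹) * (π.coeff 0 * π.leadingCoeff)
        = (-1) ^ pb.dim * (π.coeff 0) ^ 2 := by field_simp
    rw [this]
    refine IsSquare.mul (IsSquare.pow _ ?_) ⟨_, sq _⟩
    simpa using isSquare_algebraMap_complex (F := F) (-1)

/-- The reciprocity law. -/
theorem reciprocity [IsLocalization.Away (G.map (algebraMap ℂ F)) P] (hG : G ≠ 0) (hXG : X ∣ G)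
    [Algebra F P] [IsScalarTower F F[X] P]
    {B : Type*} [CommRing B] [IsDedekindDomain B] [Algebra P B] [Module.Finite P B]
    [FaithfulSMul P B] [Algebra F B] [IsScalarTower F P B] (t ρ : B)
    (ht : t = algebraMap P B (algebraMap F[X] P X)) (hρ : ρ ^ 2 * t = t ^ 2 - 1)
    (h : B) (hh : h ≠ 0) :
    IsSquare (((normalizedFactors (Ideal.span {h})).map
      fun 𝔪 => Algebra.norm F (Ideal.Quotient.mk 𝔪 t)).prod) := by
  classical
  let GF := G.map (algebraMap ℂ F)
  have hGF : GF ≠ 0 := (Polynomial.map_ne_zero_iff (algebraMap ℂ F).injective).mpr hG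
  have hM : Submonoid.powers GF ≤ nonZeroDivisors F[X] :=
    powers_le_nonZeroDivisors_of_noZeroDivisors hGF
  have hdomP : IsDomain P := IsLocalization.isDomain_of_le_nonZeroDivisors P hM
  have hinjP : Function.Injective (algebraMap F[X] P) := IsLocalization.injective P hM
  have hdedP : IsDedekindDomain P := IsLocalization.isDedekindDomain F[X] hM P
  have : CharZero F := charZero_of_injective_algebraMap (algebraMap ℂ F).injective
  have hunitG : IsUnit (algebraMap F[X] P GF) := IsLocalization.Away.algebraMap_isUnit GF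
  have : CharZero P := charZero_of_injective_algebraMap (algebraMap F P).injective
  have hinjB : Function.Injective (algebraMap P B) := FaithfulSMul.algebraMap_injective P B
  -- the class of the norm ideal
  have hI : Ideal.span {h} ≠ (⊥ : Ideal B) := by simpa using hh
  have key : ∀ 𝔪 ∈ normalizedFactors (Ideal.span {h}),
      Rel F (Ideal.relNorm P 𝔪) (Algebra.norm F (Ideal.Quotient.mk 𝔪 t)) := by
    intro 𝔪 h𝔪
    have h𝔪0 : 𝔪 ≠ ⊥ := ne_zero_of_mem_normalizedFactors h𝔪
    rw [Ideal.mem_normalizedFactors_iff hI] at h𝔪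
    have h𝔪p : 𝔪.IsPrime := h𝔪.1
    have h𝔪m : 𝔪.IsMaximal := h𝔪p.isMaximal h𝔪0
    let 𝔭 : Ideal P := 𝔪.under P
    have h𝔭m : 𝔭.IsMaximal := Ideal.isMaximal_comap_of_isIntegral_of_isMaximal 𝔪
    have h𝔭0 : 𝔭 ≠ ⊥ := by
      intro h0
      exact h𝔪0 (Ideal.eq_bot_of_comap_eq_bot h0)
    have : 𝔪.LiesOver 𝔭 := ⟨rfl⟩
    rw [Ideal.relNorm_eq_pow_of_isMaximal 𝔪 𝔭]
    have h1 := (rel_maximal (F := F) G hXG 𝔭 h𝔭0).pow (𝔪.inertiaDeg P)
    have h2 : Algebra.norm F (Ideal.Quotient.mk 𝔪 t) =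
        (Algebra.norm F (Ideal.Quotient.mk 𝔭 (algebraMap F[X] P X))) ^ (𝔪.inertiaDeg P) := by
      let _ : Field (P ⧸ 𝔭) := Ideal.Quotient.field 𝔭
      let _ : Field (B ⧸ 𝔪) := Ideal.Quotient.field 𝔪
      have h3 : Ideal.Quotient.mk 𝔪 t = algebraMap (P ⧸ 𝔭) (B ⧸ 𝔪)
          (Ideal.Quotient.mk 𝔭 (algebraMap F[X] P X)) := by
        rw [ht]; rfl
      rw [h3, ← Algebra.norm_norm (S := P ⧸ 𝔭), Algebra.norm_algebraMap, map_pow,
        Ideal.inertiaDeg_eq_of_isMaximal 𝔭 𝔪]
    rw [h2]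
    exact h1
  have hprod := Rel.multiset (F := F) (normalizedFactors (Ideal.span {h}))
    (fun 𝔪 => Ideal.relNorm P 𝔪) (fun 𝔪 => Algebra.norm F (Ideal.Quotient.mk 𝔪 t)) key
  have hrel : ((normalizedFactors (Ideal.span {h})).map fun 𝔪 => Ideal.relNorm P 𝔪).prod
      = Ideal.span {Algebra.intNorm P B h} := by
    rw [← Ideal.relNorm_singleton, ← map_multiset_prod, Ideal.prod_normalizedFactors_eq_self hI]
  rw [hrel] at hprod
  obtain ⟨d₀, hd₀, hspan, hsq⟩ := hprod
  set c := ((normalizedFactors (Ideal.span {h})).map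
      fun 𝔪 => Algebra.norm F (Ideal.Quotient.mk 𝔪 t)).prod with hc
  -- it remains to see that `chi d₀` is a square
  suffices hd₀sq : IsSquare (chi d₀) by
    have h1 := hsq.div hd₀sq
    rwa [mul_div_assoc, div_self (chi_ne_zero hd₀), mul_one] at h1
  -- the norm
  let K := FractionRing P
  let L := FractionRing B
  let _ : Algebra K L := FractionRing.liftAlgebra P L
  have : IsScalarTower P K L := FractionRing.isScalarTower_liftAlgebra P L
  have : FiniteDimensional K L := by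
    infer_instance
  let ι : F[X] →+* K := (algebraMap P K).comp (algebraMap F[X] P)
  have hι : Function.Injective ι := (IsFractionRing.injective P K).comp hinjP
  have hfrac : ∀ a : K, ∃ A D : F[X], D ≠ 0 ∧ a * ι D = ι A := by
    intro a
    obtain ⟨p₁, ⟨p₂, hp₂⟩, rfl⟩ := IsLocalization.exists_mk'_eq (nonZeroDivisors P) a
    obtain ⟨n, A, hA⟩ := IsLocalization.Away.surj GF p₁
    obtain ⟨m, D, hD⟩ := IsLocalization.Away.surj GF p₂
    refine ⟨A * GF ^ m, D * GF ^ n, ?_, ?_⟩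
    · refine mul_ne_zero ?_ (pow_ne_zero _ hGF)
      rintro rfl
      rw [map_zero] at hD
      have h1 : algebraMap F[X] P GF ^ m ≠ 0 := pow_ne_zero _ hunitG.ne_zero
      exact nonZeroDivisors.ne_zero hp₂ ((mul_eq_zero.mp hD).resolve_right h1)
    · have e1 : IsLocalization.mk' K p₁ ⟨p₂, hp₂⟩ * algebraMap P K p₂ = algebraMap P K p₁ :=
        IsLocalization.mk'_spec K p₁ ⟨p₂, hp₂⟩
      simp only [ι, RingHom.comp_apply, map_mul, map_pow]
      rw [← hD, ← hA]
      simp only [map_mul, map_pow]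
      rw [← e1]; ring
  have hX0 : ι X ≠ 0 := (map_ne_zero_iff ι hι).mpr X_ne_zero
  have hX21 : (X ^ 2 - 1 : F[X]).natDegree = 2 := by
    have := natDegree_X_pow_sub_C (n := 2) (r := (1:F))
    simpa using this
  have hX21' : (X ^ 2 - 1 : F[X]) ≠ 0 := by
    intro h0; rw [h0] at hX21; simp at hX21
  let δ : K := ι (X ^ 2 - 1) / ι X
  have hδ : ¬ IsSquare δ := by
    rintro ⟨s, hs⟩
    obtain ⟨A, D, hD, hAD⟩ := hfrac s
    have h1 : ι ((X ^ 2 - 1) * D ^ 2) = ι (X * A ^ 2) := by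
      simp only [map_mul, map_pow, ← hAD]
      have : ι (X ^ 2 - 1) = s * s * ι X := by
        rw [← hs]; exact (div_mul_cancel₀ _ hX0).symm
      rw [this]; ring
    have h2 := hι h1
    have hA : A ≠ 0 := by
      rintro rfl
      have h3 : (X ^ 2 - 1) * D ^ 2 ≠ 0 := mul_ne_zero hX21' (pow_ne_zero _ hD)
      apply h3; rw [h2]; simp
    have h3 := congrArg natDegree h2
    rw [natDegree_mul hX21' (pow_ne_zero _ hD), natDegree_mul X_ne_zero (pow_ne_zero _ hA),
      hX21, natDegree_X, natDegree_pow, natDegree_pow] at h3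
    omega
  have hρL : (algebraMap B L ρ) ^ 2 = algebraMap K L δ := by
    have e1 : algebraMap K L (ι X) = algebraMap B L t := by
      rw [ht]
      simp only [ι, RingHom.comp_apply]
      rw [← IsScalarTower.algebraMap_apply P K L, ← IsScalarTower.algebraMap_apply P B L]
    have e2 : algebraMap K L (ι (X ^ 2 - 1)) = algebraMap B L (t ^ 2 - 1) := by
      simp only [map_sub, map_pow, map_one, e1]
    have e3 : algebraMap B L t ≠ 0 := by
      rw [← e1]; exact (_root_.map_ne_zero _).mpr hX0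
    simp only [δ, map_div₀]
    rw [e1, e2, ← hρ, map_mul, map_pow]
    exact (mul_div_cancel_right₀ _ e3).symm
  obtain ⟨a, b, hab⟩ := norm_eq_sub_sq δ hδ (algebraMap B L ρ) hρL (algebraMap B L h)
  have hN : algebraMap P K (Algebra.intNorm P B h) = a ^ 2 - δ * b ^ 2 := by
    rw [Algebra.algebraMap_intNorm (L := L), hab]
  obtain ⟨A₁, D₁, hD₁, hA₁⟩ := hfrac a
  obtain ⟨B₁, D₂, hD₂, hB₁⟩ := hfrac b
  obtain ⟨u, hu⟩ : Associated (Algebra.intNorm P B h) (algebraMap F[X] P d₀) :=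
    Ideal.span_singleton_eq_span_singleton.mp hspan
  obtain ⟨n, u₀, hu₀⟩ := IsLocalization.Away.surj GF (u : P)
  obtain ⟨m, v₀, hv₀⟩ := IsLocalization.Away.surj GF ((u⁻¹ : Pˣ) : P)
  have huv : u₀ * v₀ = GF ^ (n + m) := by
    apply hinjP
    rw [map_mul, ← hu₀, ← hv₀, map_pow]
    have : (u : P) * ((u⁻¹ : Pˣ) : P) = 1 := u.mul_inv
    linear_combination (algebraMap F[X] P GF ^ (n + m)) * this
  set M : F[X] := X * (A₁ * D₂) ^ 2 - (X ^ 2 - 1) * (B₁ * D₁) ^ 2 with hMdef
  have hmain : d₀ * GF ^ n * X * (D₁ * D₂) ^ 2 = u₀ * M := by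
    apply hι
    have e1 : ι d₀ = (a ^ 2 - δ * b ^ 2) * algebraMap P K u := by
      simp only [ι, RingHom.comp_apply]
      rw [← hu, map_mul, hN]
    have e2 : ι u₀ = algebraMap P K u * ι GF ^ n := by
      simp only [ι, RingHom.comp_apply]
      rw [← hu₀, map_mul, map_pow]
    have e3 : δ * ι X = ι (X ^ 2 - 1) := div_mul_cancel₀ _ hX0
    simp only [hMdef, map_mul, map_pow, map_sub] at e3 ⊢
    rw [← hA₁, ← hB₁, e1, e2]
    linear_combination (-(algebraMap P K u) * ι GF ^ n * (b * ι D₂ * ι D₁) ^ 2) * e3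
  have hne : M ≠ 0 := by
    intro h0
    rw [h0, mul_zero] at hmain
    have : d₀ * GF ^ n * X * (D₁ * D₂) ^ 2 ≠ 0 :=
      mul_ne_zero (mul_ne_zero (mul_ne_zero hd₀ (pow_ne_zero _ hGF)) X_ne_zero)
        (pow_ne_zero _ (mul_ne_zero hD₁ hD₂))
    exact this hmain
  have hchi := congrArg chi hmain
  rw [chi_mul, chi_mul, chi_mul, chi_mul, chi_X, mul_one, chi_pow] at hchi
  have hGsq : IsSquare (chi GF) := isSquare_chi_of_dvd G hG GF dvd_rfl
  have hMsq : IsSquare (chi M) := isSquare_chi_form _ _ hne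
  have hu₀sq : IsSquare (chi u₀) := by
    refine isSquare_chi_of_dvd (G ^ (n + m)) (pow_ne_zero _ hG) u₀ ?_
    rw [Polynomial.map_pow]
    exact ⟨v₀, huv.symm⟩
  have hfin : chi d₀ = chi u₀ * chi M / (chi GF ^ n * chi ((D₁ * D₂) ^ 2)) := by
    rw [eq_div_iff, ← hchi]
    · ring
    · exact mul_ne_zero (pow_ne_zero _ (chi_ne_zero hGF))
        (chi_ne_zero (pow_ne_zero _ (mul_ne_zero hD₁ hD₂)))
  rw [hfin]
  exact (hu₀sq.mul hMsq).div ((hGsq.pow n).mul (isSquare_chi_sq _))

end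

end Pool.Agent.Helper395
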