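import Pool.Agent.Helper395.Curve
import Pool.Agent.Helper395.Recip
import Pool.Agent.Helper395.DvrLemma
import Pool.Agent.Helper395.Arc

open AlgebraicGeometry CategoryTheory CategoryTheory.Limits UniqueFactorizationMonoid

set_option linter.style.haveILetI false

namespace Pool.Agent.Helper395

section

variable {A : Type} [CommRing A] {F : Type} [Field F] {W C : Scheme.{0}}

open Classical in
/-- The local factor: the norm of `t` at the points where the elements of `S` vanish and `b`
does not vanish. -/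
noncomputable def locFactor (a : W ⟶ Spec (.of A)) (s : W ⟶ Spec (.of F)) (t b : A) (S : Set A)
    (w : W) : Fˣ :=
  if h : (∀ j ∈ S, ptEval a w j = 0) ∧ ptEval a w b ≠ 0 ∧ ptEval a w t ≠ 0 then
    Units.mk0 (fieldNorm (ptEval s w) (ptEval a w t)) (fieldNorm_ne_zero _ h.2.2) else 1

theorem locFactor_of_pos (a : W ⟶ Spec (.of A)) (s : W ⟶ Spec (.of F)) (t b : A) (S : Set A)
    (w : W) (h₁ : ∀ j ∈ S, ptEval a w j = 0) (h₂ : ptEval a w b ≠ 0) (h₃ : ptEval a w t ≠ 0) :
    (locFactor a s t b S w : F) = fieldNorm (ptEval s w) (ptEval a w t) := by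
  rw [locFactor, dif_pos ⟨h₁, h₂, h₃⟩]
  rfl

theorem locFactor_comp (π : C ⟶ W) (a : W ⟶ Spec (.of A)) (s : W ⟶ Spec (.of F)) (t b : A)
    (S : Set A) (c : C) :
    locFactor (π ≫ a) (π ≫ s) t b S c = locFactor a s t b S (π c) ^ π.residueDegree c := by
  have hA : ∀ x : A, ptEval (π ≫ a) c x = (π.residueFieldMap c).hom (ptEval a (π c) x) := by
    intro x
    rw [← ptEval_naturality]; rfl
  have hF : ptEval (π ≫ s) c = (π.residueFieldMap c).hom.comp (ptEval s (π c)) :=
    (ptEval_naturality π s c).symm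
  have hinj : Function.Injective (π.residueFieldMap c).hom := RingHom.injective _
  by_cases h : (∀ j ∈ S, ptEval a (π c) j = 0) ∧ ptEval a (π c) b ≠ 0 ∧ ptEval a (π c) t ≠ 0
  · apply Units.ext
    rw [locFactor_of_pos, Units.val_pow_eq_pow_val, locFactor_of_pos _ _ _ _ _ _ h.1 h.2.1 h.2.2,
      hA, hF, fieldNorm_comp]
    · rfl
    · intro j hj; rw [hA, h.1 j hj, map_zero]
    · rw [hA]; exact (map_ne_zero_iff _ hinj).mpr h.2.1
    · rw [hA]; exact (map_ne_zero_iff _ hinj).mpr h.2.2
  · have h' : ¬ ((∀ j ∈ S, ptEval (π ≫ a) c j = 0) ∧ ptEval (π ≫ a) c b ≠ 0 ∧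
        ptEval (π ≫ a) c t ≠ 0) := by
      intro h'
      apply h
      refine ⟨fun j hj => ?_, ?_, ?_⟩
      · have := h'.1 j hj
        rw [hA] at this
        exact (map_eq_zero_iff _ hinj).mp this
      · have := h'.2.1
        rw [hA] at this
        exact (map_ne_zero_iff _ hinj).mp this
      · have := h'.2.2
        rw [hA] at this
        exact (map_ne_zero_iff _ hinj).mp this
    rw [locFactor, dif_neg h', locFactor, dif_neg h, one_pow]

/-- The functional on zero-cycles given by the local factors. -/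
noncomputable def phi (a : W ⟶ Spec (.of A)) (s : W ⟶ Spec (.of F)) (t b : A) (S : Set A)
    (z : ZeroCycle W) : Fˣ :=
  z.prod fun c n => locFactor a s t b S c.1 ^ n

theorem phi_add (a : W ⟶ Spec (.of A)) (s : W ⟶ Spec (.of F)) (t b : A) (S : Set A)
    (z z' : ZeroCycle W) : phi a s t b S (z + z') = phi a s t b S z * phi a s t b S z' := by
  classical
  exact Finsupp.prod_add_index' (fun _ => zpow_zero _) (fun _ _ _ => zpow_add _ _ _)

theorem phi_zero (a : W ⟶ Spec (.of A)) (s : W ⟶ Spec (.of F)) (t b : A) (S : Set A) :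
    phi a s t b S (0 : ZeroCycle W) = 1 := Finsupp.prod_zero_index

theorem phi_neg (a : W ⟶ Spec (.of A)) (s : W ⟶ Spec (.of F)) (t b : A) (S : Set A)
    (z : ZeroCycle W) : phi a s t b S (-z) = (phi a s t b S z)⁻¹ := by
  have h := phi_add a s t b S (-z) z
  rw [neg_add_cancel, phi_zero] at h
  exact eq_inv_of_mul_eq_one_left h.symm

theorem phi_single (a : W ⟶ Spec (.of A)) (s : W ⟶ Spec (.of F)) (t b : A) (S : Set A)
    (c : ClosedPt W) (n : ℤ) :
    phi a s t b S (Finsupp.single c n) = locFactor a s t b S c.1 ^ n :=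
  Finsupp.prod_single_index (zpow_zero _)

theorem phi_pushforward (π : C ⟶ W) [UniversallyClosed π] (a : W ⟶ Spec (.of A))
    (s : W ⟶ Spec (.of F)) (t b : A) (S : Set A) (z : ZeroCycle C) :
    phi a s t b S (pushforward π z) = phi (π ≫ a) (π ≫ s) t b S z := by
  induction z using Finsupp.induction_linear with
  | zero => rw [map_zero, phi_zero, phi_zero]
  | add z z' h h' => rw [map_add, phi_add, phi_add, h, h']
  | single c n =>
    rw [phi_single, locFactor_comp]
    have : pushforward π (Finsupp.single c n) =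
        Finsupp.single (pushPt π c) ((π.residueDegree c.1 : ℤ) * n) := by
      rw [pushforward, Finsupp.liftAddHom_apply_single]
      rfl
    rw [this, phi_single, zpow_mul, zpow_natCast]
    rfl

/-- If all local factors are squares then so is the value on every cycle. -/
theorem isSquare_phi_of_locFactor (a : W ⟶ Spec (.of A)) (s : W ⟶ Spec (.of F)) (t b : A)
    (S : Set A) (z : ZeroCycle W)
    (h : ∀ c : ClosedPt W, z c ≠ 0 → IsSquare (locFactor a s t b S c.1)) :
    IsSquare (phi a s t b S z) := by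
  apply Finset.isSquare_prod
  intro c hc
  exact (h c (Finsupp.mem_support_iff.mp hc)).zpow _

end

end Pool.Agent.Helper395
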