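import Pool.Agent.Helper395.Recip

set_option linter.style.haveILetI false

namespace Pool.Agent.Helper395

open Polynomial

/-- A parity argument. -/
theorem eq_zero_of_form (a b : ℂ[X]) (h : X * a ^ 2 = (X ^ 2 - 1) * b ^ 2) : a = 0 ∧ b = 0 := by
  have hX21 : (X ^ 2 - 1 : ℂ[X]).natDegree = 2 := by
    have := natDegree_X_pow_sub_C (n := 2) (r := (1:ℂ))
    simpa using this
  have hX21' : (X ^ 2 - 1 : ℂ[X]) ≠ 0 := by
    intro h0; rw [h0] at hX21; simp at hX21
  by_cases ha : a = 0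
  · subst ha
    refine ⟨rfl, ?_⟩
    rw [zero_pow two_ne_zero, mul_zero, eq_comm, mul_eq_zero] at h
    exact pow_eq_zero_iff two_ne_zero |>.mp (h.resolve_left hX21')
  · by_cases hb : b = 0
    · subst hb
      rw [zero_pow two_ne_zero, mul_zero, mul_eq_zero] at h
      exact absurd (pow_eq_zero_iff two_ne_zero |>.mp (h.resolve_left X_ne_zero)) ha
    · exfalso
      have h3 := congrArg natDegree h
      rw [natDegree_mul X_ne_zero (pow_ne_zero _ ha), natDegree_mul hX21' (pow_ne_zero _ hb),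
        hX21, natDegree_X, natDegree_pow, natDegree_pow] at h3
      omega

section

variable {A : Type} [CommRing A] [Algebra ℂ A] {F : Type} [Field F] [Algebra ℂ F]

theorem exists_normal_form (t r : A) (S : Set A)
    (hgen : ∀ x : A, ∃ p ∈ Algebra.adjoin ℂ ({t, r} : Set A), x - p ∈ Ideal.span S)
    (htr : t ^ 2 - r ^ 2 * t = 1) (x : A) :
    ∃ (n : ℕ) (a b : ℂ[X]), t ^ n * x - (aeval t a + aeval t b * r) ∈ Ideal.span S := by
  obtain ⟨p, hp, hxp⟩ := hgen x
  suffices h : ∃ (n : ℕ) (a b : ℂ[X]), t ^ n * p - (aeval t a + aeval t b * r) ∈ Ideal.span S by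
    obtain ⟨n, a, b, hab⟩ := h
    refine ⟨n, a, b, ?_⟩
    have := Ideal.add_mem _ hab (Ideal.mul_mem_left _ (t ^ n) hxp)
    convert this using 1
    ring
  clear hxp
  induction hp using Algebra.adjoin_induction with
  | mem y hy =>
    rcases hy with rfl | rfl
    · refine ⟨0, X, 0, ?_⟩
      simp
    · refine ⟨0, 0, 1, ?_⟩
      simp
  | algebraMap z =>
    refine ⟨0, C z, 0, ?_⟩
    simp
  | add y z _ _ hy hz =>
    obtain ⟨n, a, b, h1⟩ := hy
    obtain ⟨m, a', b', h2⟩ := hz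
    refine ⟨n + m, X ^ m * a + X ^ n * a', X ^ m * b + X ^ n * b', ?_⟩
    have := Ideal.add_mem _ (Ideal.mul_mem_left _ (t ^ m) h1) (Ideal.mul_mem_left _ (t ^ n) h2)
    convert this using 1
    simp only [map_add, map_mul, map_pow, aeval_X]
    ring
  | mul y z _ _ hy hz =>
    obtain ⟨n, a, b, h1⟩ := hy
    obtain ⟨m, a', b', h2⟩ := hz
    refine ⟨n + m + 1, X * (a * a') + (X ^ 2 - 1) * (b * b'), X * (a * b' + a' * b), ?_⟩
    have := Ideal.add_mem _ (Ideal.mul_mem_left _ (t ^ (m + 1) * z) h1)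
      (Ideal.mul_mem_left _ (t * (aeval t a + aeval t b * r)) h2)
    convert this using 1
    simp only [map_add, map_mul, map_pow, aeval_X, map_sub, map_one]
    linear_combination (-(aeval t b * aeval t b')) * htr

theorem generic_norm (t r : A) (S : Set A)
    (hgen : ∀ x : A, ∃ p ∈ Algebra.adjoin ℂ ({t, r} : Set A), x - p ∈ Ideal.span S)
    (htr : t ^ 2 - r ^ 2 * t = 1) (ε : A →ₐ[ℂ] F) (hεS : ∀ j ∈ S, ε j = 0)
    (htrans : Transcendental ℂ (ε t)) (ψ : A) (hψ : ε ψ ≠ 0) :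
    ∃ (χ : A) (G : ℂ[X]), G ≠ 0 ∧ X ∣ G ∧ ε (aeval t G) ≠ 0 ∧
      ψ * χ - aeval t G ∈ Ideal.span S := by
  obtain ⟨n, a, b, hab⟩ := exists_normal_form t r S hgen htr ψ
  have hεspan : ∀ x ∈ Ideal.span S, ε x = 0 := by
    intro x hx
    have : Ideal.span S ≤ RingHom.ker ε := Ideal.span_le.mpr fun j hj => hεS j hj
    exact this hx
  have hG0 : (X * a ^ 2 - (X ^ 2 - 1) * b ^ 2 : ℂ[X]) ≠ 0 := by
    intro h0
    obtain ⟨rfl, rfl⟩ := eq_zero_of_form a b (sub_eq_zero.mp h0)
    have h1 := hεspan _ hab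
    simp only [map_mul, map_pow, map_zero, zero_mul, add_zero, sub_zero] at h1
    have h2 : ε t ≠ 0 := by
      intro h0
      apply htrans
      rw [h0]
      exact isAlgebraic_zero
    rcases mul_eq_zero.mp h1 with h3 | h3
    · exact pow_ne_zero n h2 h3
    · exact hψ h3
  refine ⟨t ^ n * (aeval t a - aeval t b * r) * t ^ 2, (X * a ^ 2 - (X ^ 2 - 1) * b ^ 2) * X,
    mul_ne_zero hG0 X_ne_zero, dvd_mul_left _ _, ?_, ?_⟩
  · rw [← aeval_algHom_apply]
    intro h0
    have := (transcendental_iff.mp htrans) _ h0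
    exact mul_ne_zero hG0 X_ne_zero this
  · have := Ideal.mul_mem_left _ ((aeval t a - aeval t b * r) * t ^ 2) hab
    convert this using 1
    simp only [map_mul, map_sub, map_pow, aeval_X, map_one]
    linear_combination ((aeval t b) ^ 2 * t) * htr

theorem ker_le_span (t r : A) (S : Set A)
    (hgen : ∀ x : A, ∃ p ∈ Algebra.adjoin ℂ ({t, r} : Set A), x - p ∈ Ideal.span S)
    (htr : t ^ 2 - r ^ 2 * t = 1) (ε : A →ₐ[ℂ] F) (hεS : ∀ j ∈ S, ε j = 0)
    (htrans : Transcendental ℂ (ε t)) (x : A) (hx : ε x = 0) : x ∈ Ideal.span S := by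
  obtain ⟨n, a, b, hab⟩ := exists_normal_form t r S hgen htr x
  have hεspan : ∀ x ∈ Ideal.span S, ε x = 0 := by
    intro x hx
    have : Ideal.span S ≤ RingHom.ker ε := Ideal.span_le.mpr fun j hj => hεS j hj
    exact this hx
  have h1 := hεspan _ hab
  rw [map_sub, map_mul, hx, mul_zero, zero_sub, neg_eq_zero, map_add, map_mul] at h1
  have h2 : aeval (ε t) (X * a ^ 2 - (X ^ 2 - 1) * b ^ 2) = 0 := by
    have e1 : ε (aeval t a) = aeval (ε t) a := (aeval_algHom_apply ε t a).symm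
    have e2 : ε (aeval t b) = aeval (ε t) b := (aeval_algHom_apply ε t b).symm
    rw [e1, e2] at h1
    have h3 := congrArg ε htr
    simp only [map_sub, map_mul, map_pow, map_one] at h3
    simp only [map_mul, map_sub, map_pow, aeval_X, map_one]
    linear_combination (ε t * (aeval (ε t) a - aeval (ε t) b * ε r)) * h1 -
      (aeval (ε t) b) ^ 2 * h3
  have h4 := (transcendental_iff.mp htrans) _ h2
  obtain ⟨rfl, rfl⟩ := eq_zero_of_form a b (sub_eq_zero.mp h4)
  simp only [map_zero, zero_mul, add_zero, sub_zero] at hab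
  have htu : (t - r ^ 2) * t = 1 := by linear_combination htr
  have h5 := Ideal.mul_mem_left _ ((t - r ^ 2) ^ n) hab
  have h6 : (t - r ^ 2) ^ n * (t ^ n * x) = x := by
    rw [← mul_assoc, ← mul_pow, htu, one_pow, one_mul]
  rwa [h6] at h5

end

end Pool.Agent.Helper395
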