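import Mathlib

open AlgebraicGeometry CategoryTheory CategoryTheory.Limits

namespace Pool.Agent.Helper395

/-! ### Germs of holomorphic functions -/

/-- The ring of germs at the origin of `ℂⁿ` of complex valued functions. -/
def FunGerm (n : ℕ) : Type := Filter.Germ (nhds (0 : Fin n → ℂ)) ℂ

noncomputable instance FunGerm.commRing (n : ℕ) : CommRing (FunGerm n) :=
  Filter.Germ.instCommRing

/-- The germ at the origin of a function on `ℂⁿ`. -/
noncomputable def germOf {n : ℕ} (f : (Fin n → ℂ) → ℂ) : FunGerm n :=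
  (f : Filter.Germ (nhds (0 : Fin n → ℂ)) ℂ)

/-- The germ is the germ of a function that is holomorphic (complex analytic) at the origin. -/
def IsHol {n : ℕ} (g : FunGerm n) : Prop :=
  ∃ f : (Fin n → ℂ) → ℂ, AnalyticAt ℂ f 0 ∧ g = germOf f

theorem isHol_mul {n : ℕ} {a b : FunGerm n} (ha : IsHol a) (hb : IsHol b) : IsHol (a * b) := by
  obtain ⟨f, hf, rfl⟩ := ha
  obtain ⟨g, hg, rfl⟩ := hb
  exact ⟨f * g, hf.mul hg, rfl⟩

theorem isHol_add {n : ℕ} {a b : FunGerm n} (ha : IsHol a) (hb : IsHol b) : IsHol (a + b) := by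
  obtain ⟨f, hf, rfl⟩ := ha
  obtain ⟨g, hg, rfl⟩ := hb
  exact ⟨f + g, hf.add hg, rfl⟩

theorem isHol_neg {n : ℕ} {a : FunGerm n} (ha : IsHol a) : IsHol (-a) := by
  obtain ⟨f, hf, rfl⟩ := ha
  exact ⟨-f, hf.neg, rfl⟩

theorem isHol_one {n : ℕ} : IsHol (1 : FunGerm n) := ⟨1, analyticAt_const, rfl⟩

theorem isHol_zero {n : ℕ} : IsHol (0 : FunGerm n) := ⟨0, analyticAt_const, rfl⟩

theorem isHol_eval {n : ℕ} (P : MvPolynomial (Fin n) ℂ) :
    IsHol (germOf fun z => MvPolynomial.eval z P) :=
  ⟨_, AnalyticOnNhd.eval_mvPolynomial P 0 (Set.mem_univ _), rfl⟩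

/-- The subring of germs of holomorphic functions. -/
noncomputable def holSubring (n : ℕ) : Subring (FunGerm n) where
  carrier := {g | IsHol g}
  mul_mem' := isHol_mul
  one_mem' := isHol_one
  add_mem' := isHol_add
  zero_mem' := isHol_zero
  neg_mem' := isHol_neg

/-- The ring `ℂ{z₁, …, zₙ}` of germs at the origin of `ℂⁿ` of holomorphic functions. -/
def HolGerm (n : ℕ) : Type := holSubring n

noncomputable instance HolGerm.commRing (n : ℕ) : CommRing (HolGerm n) :=
  Subring.toCommRing (holSubring n)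

/-- The germ at the origin of the function defined by a polynomial. -/
noncomputable def polyGerm {n : ℕ} (P : MvPolynomial (Fin n) ℂ) : HolGerm n :=
  ⟨germOf fun z => MvPolynomial.eval z P, isHol_eval P⟩

/-! ### The local analytic algebra of a closed subscheme of affine space at the origin -/

/-- The ideal of `ℂ{z₁, …, zₙ}` generated by the polynomials in `I`. -/
noncomputable def germIdeal {n : ℕ} (I : Ideal (MvPolynomial (Fin n) ℂ)) : Ideal (HolGerm n) :=
  Ideal.span (polyGerm '' (I : Set (MvPolynomial (Fin n) ℂ)))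

/-- The local ring `ℂ{z₁, …, zₙ} ⧸ I` at the origin of the complex analytic space defined in
`ℂⁿ` by the polynomials in `I`. -/
def AnalyticRing {n : ℕ} (I : Ideal (MvPolynomial (Fin n) ℂ)) : Type :=
  HolGerm n ⧸ germIdeal I

noncomputable instance AnalyticRing.commRing {n : ℕ} (I : Ideal (MvPolynomial (Fin n) ℂ)) :
    CommRing (AnalyticRing I) :=
  Ideal.Quotient.commRing (germIdeal I)

/-- The constant `a`, as an element of the local analytic ring. -/
noncomputable def AnalyticRing.const {n : ℕ} (I : Ideal (MvPolynomial (Fin n) ℂ)) (a : ℂ) :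
    AnalyticRing I :=
  Ideal.Quotient.mk (germIdeal I) (polyGerm (MvPolynomial.C a))

/-- The local analytic rings of `V(I)` and `V(J)` at the origin are isomorphic as
`ℂ`-algebras. -/
def AnalyticRingIso {n m : ℕ} (I : Ideal (MvPolynomial (Fin n) ℂ))
    (J : Ideal (MvPolynomial (Fin m) ℂ)) : Prop :=
  ∃ e : AnalyticRing I ≃+* AnalyticRing J, ∀ a : ℂ,
    e (AnalyticRing.const I a) = AnalyticRing.const J a

/-! ### Presentations of schemes near a point -/

/-- The coordinate ring `ℂ[z₁, …, zₙ] ⧸ I` of the closed subscheme `V(I)` of affine space. -/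
def CoordRing {n : ℕ} (I : Ideal (MvPolynomial (Fin n) ℂ)) : Type :=
  MvPolynomial (Fin n) ℂ ⧸ I

noncomputable instance CoordRing.commRing {n : ℕ} (I : Ideal (MvPolynomial (Fin n) ℂ)) :
    CommRing (CoordRing I) :=
  Ideal.Quotient.commRing I

/-- The restriction of polynomials to `V(I)`. -/
noncomputable def CoordRing.mk {n : ℕ} (I : Ideal (MvPolynomial (Fin n) ℂ)) :
    MvPolynomial (Fin n) ℂ →+* CoordRing I :=
  Ideal.Quotient.mk I

/-- The closed subscheme `V(I)` of affine space. -/
noncomputable def closedSub {n : ℕ} (I : Ideal (MvPolynomial (Fin n) ℂ)) : Scheme.{0} :=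
  Spec (.of (CoordRing I))

/-- The structure morphism of `V(I)`. -/
noncomputable def closedSubStr {n : ℕ} (I : Ideal (MvPolynomial (Fin n) ℂ)) :
    closedSub I ⟶ Spec (.of ℂ) :=
  Spec.map (CommRingCat.ofHom ((CoordRing.mk I).comp MvPolynomial.C))

/-- The point `p` of `V(I)` is the origin of affine space: the coordinates vanish at `p`. -/
def IsOrigin {n : ℕ} (I : Ideal (MvPolynomial (Fin n) ℂ)) (p : closedSub I) : Prop :=
  ∀ k, CoordRing.mk I (MvPolynomial.X k) ∈ PrimeSpectrum.asIdeal p

/-- A presentation of the complex scheme `X` near the point `x`: an isomorphism over `ℂ` of a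
closed subscheme `V(I)` of affine space `𝔸ⁿ` with an open neighbourhood of `x`, taking the
origin to `x`. -/
structure LocalPresentation {X : Scheme.{0}} (sX : X ⟶ Spec (.of ℂ)) (x : X) (n : ℕ) where
  /-- the equations -/
  I : Ideal (MvPolynomial (Fin n) ℂ)
  /-- the open immersion of `V(I)` in `X` -/
  j : closedSub I ⟶ X
  isOpenImmersion : IsOpenImmersion j
  comp_str : j ≫ sX = closedSubStr I
  /-- the origin -/
  pt : closedSub I
  isOrigin : IsOrigin I pt
  map_pt : j pt = x

/-- The germs of complex analytic spaces `(Xᵃⁿ, x)` and `(Yᵃⁿ, y)` are isomorphic: for some local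
presentations, the local analytic rings `ℂ{z₁, …, zₙ} ⧸ I` and `ℂ{z₁, …, zₘ} ⧸ J`
(the local rings of `Xᵃⁿ` at `x` and of `Yᵃⁿ` at `y`) are isomorphic as `ℂ`-algebras. -/
def AnalyticGermIso {X Y : Scheme.{0}} (sX : X ⟶ Spec (.of ℂ)) (x : X)
    (sY : Y ⟶ Spec (.of ℂ)) (y : Y) : Prop :=
  ∃ (n m : ℕ) (P : LocalPresentation sX x n) (Q : LocalPresentation sY y m),
    AnalyticRingIso P.I Q.I

end Pool.Agent.Helper395
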