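import Pool.Agent.Helper395.Present

open AlgebraicGeometry CategoryTheory CategoryTheory.Limits Filter Topology

set_option linter.style.haveILetI false

namespace Pool.Agent.Helper395

variable {n : ℕ}

/-- Pull-back of germs of holomorphic functions along a germ of holomorphic maps. -/
noncomputable def pull (Φ : (Fin n → ℂ) → (Fin n → ℂ)) (hΦ : AnalyticAt ℂ Φ 0)
    (hΦ0 : Φ 0 = 0) : HolGerm n →+* HolGerm n where
  toFun g := ⟨Filter.Germ.compTendsto g.1 Φ (by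
      have h := hΦ.continuousAt.tendsto
      rwa [hΦ0] at h), by
    obtain ⟨f, hf, hg⟩ := g.2
    refine ⟨f ∘ Φ, ?_, ?_⟩
    · exact AnalyticAt.comp (by rwa [hΦ0]) hΦ
    · rw [hg]; rfl⟩
  map_one' := Subtype.ext rfl
  map_zero' := Subtype.ext rfl
  map_add' := by
    rintro ⟨_, f, hf, rfl⟩ ⟨_, g, hg, rfl⟩
    exact Subtype.ext rfl
  map_mul' := by
    rintro ⟨_, f, hf, rfl⟩ ⟨_, g, hg, rfl⟩
    exact Subtype.ext rfl

theorem pull_pull (Φ Ψ : (Fin n → ℂ) → (Fin n → ℂ)) (hΦ : AnalyticAt ℂ Φ 0)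
    (hΦ0 : Φ 0 = 0) (hΨ : AnalyticAt ℂ Ψ 0) (hΨ0 : Ψ 0 = 0)
    (h : ∀ᶠ z in 𝓝 (0 : Fin n → ℂ), Φ (Ψ z) = z) (g : HolGerm n) :
    pull Ψ hΨ hΨ0 (pull Φ hΦ hΦ0 g) = g := by
  obtain ⟨_, f, hf, rfl⟩ := g
  apply Subtype.ext
  apply Filter.Germ.coe_eq.mpr
  filter_upwards [h] with z hz
  change f (Φ (Ψ z)) = f z
  rw [hz]

/-- Pull-back along a germ of biholomorphic maps is an isomorphism. -/
noncomputable def pullEquiv (Φ Ψ : (Fin n → ℂ) → (Fin n → ℂ)) (hΦ : AnalyticAt ℂ Φ 0)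
    (hΦ0 : Φ 0 = 0) (hΨ : AnalyticAt ℂ Ψ 0) (hΨ0 : Ψ 0 = 0)
    (h : ∀ᶠ z in 𝓝 (0 : Fin n → ℂ), Φ (Ψ z) = z)
    (h' : ∀ᶠ z in 𝓝 (0 : Fin n → ℂ), Ψ (Φ z) = z) : HolGerm n ≃+* HolGerm n :=
  RingEquiv.ofRingHom (pull Φ hΦ hΦ0) (pull Ψ hΨ hΨ0)
    (RingHom.ext fun g => pull_pull Ψ Φ hΨ hΨ0 hΦ hΦ0 h' g)
    (RingHom.ext fun g => pull_pull Φ Ψ hΦ hΦ0 hΨ hΨ0 h g)

theorem pull_polyGerm (Φ : (Fin n → ℂ) → (Fin n → ℂ)) (hΦ : AnalyticAt ℂ Φ 0)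
    (hΦ0 : Φ 0 = 0) (P Q : MvPolynomial (Fin n) ℂ)
    (h : ∀ᶠ z in 𝓝 (0 : Fin n → ℂ), MvPolynomial.eval (Φ z) P = MvPolynomial.eval z Q) :
    pull Φ hΦ hΦ0 (polyGerm P) = polyGerm Q := by
  apply Subtype.ext
  apply Filter.Germ.coe_eq.mpr
  exact h

theorem polyGerm_add (P Q : MvPolynomial (Fin n) ℂ) :
    polyGerm (P + Q) = polyGerm P + polyGerm Q :=
  Subtype.ext (congrArg germOf (funext fun z => map_add (MvPolynomial.eval z) P Q))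

theorem polyGerm_mul (P Q : MvPolynomial (Fin n) ℂ) :
    polyGerm (P * Q) = polyGerm P * polyGerm Q :=
  Subtype.ext (congrArg germOf (funext fun z => map_mul (MvPolynomial.eval z) P Q))

theorem polyGerm_zero : polyGerm (0 : MvPolynomial (Fin n) ℂ) = 0 :=
  Subtype.ext (congrArg germOf (funext fun z => map_zero (MvPolynomial.eval z)))

theorem germIdeal_span (S : Set (MvPolynomial (Fin n) ℂ)) :
    germIdeal (Ideal.span S) = Ideal.span (polyGerm '' S) := by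
  apply le_antisymm
  · rw [germIdeal, Ideal.span_le]
    rintro _ ⟨P, hP, rfl⟩
    induction hP using Submodule.span_induction with
    | mem P hP => exact Ideal.subset_span ⟨P, hP, rfl⟩
    | zero => rw [polyGerm_zero]; exact Ideal.zero_mem _
    | add P Q _ _ hP hQ => rw [polyGerm_add]; exact Ideal.add_mem _ hP hQ
    | smul a P _ hP => rw [smul_eq_mul, polyGerm_mul]; exact Ideal.mul_mem_left _ _ hP
  · exact Ideal.span_mono (Set.image_mono Ideal.subset_span)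

theorem analyticRingIso_of_biholomorphic {k : ℕ} (P Q : Fin k → MvPolynomial (Fin n) ℂ)
    (Φ Ψ : (Fin n → ℂ) → (Fin n → ℂ)) (hΦ : AnalyticAt ℂ Φ 0)
    (hΦ0 : Φ 0 = 0) (hΨ : AnalyticAt ℂ Ψ 0) (hΨ0 : Ψ 0 = 0)
    (h : ∀ᶠ z in 𝓝 (0 : Fin n → ℂ), Φ (Ψ z) = z)
    (h' : ∀ᶠ z in 𝓝 (0 : Fin n → ℂ), Ψ (Φ z) = z)
    (hPQ : ∀ i, ∀ᶠ z in 𝓝 (0 : Fin n → ℂ),
      MvPolynomial.eval (Φ z) (P i) = MvPolynomial.eval z (Q i)) :
    AnalyticRingIso (Ideal.span (Set.range P)) (Ideal.span (Set.range Q)) := by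
  let E := pullEquiv Φ Ψ hΦ hΦ0 hΨ hΨ0 h h'
  have hE : ∀ P Q : MvPolynomial (Fin n) ℂ,
      (∀ᶠ z in 𝓝 (0 : Fin n → ℂ), MvPolynomial.eval (Φ z) P = MvPolynomial.eval z Q) →
      E (polyGerm P) = polyGerm Q := fun P Q hh => pull_polyGerm Φ hΦ hΦ0 P Q hh
  have hI : germIdeal (Ideal.span (Set.range Q)) =
      (germIdeal (Ideal.span (Set.range P))).map (E : HolGerm n →+* HolGerm n) := by
    rw [germIdeal_span, germIdeal_span, Ideal.map_span]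
    congr 1
    rw [← Set.range_comp, ← Set.range_comp, ← Set.range_comp]
    congr 1
    funext i
    exact (hE _ _ (hPQ i)).symm
  refine ⟨Ideal.quotientEquiv (germIdeal (Ideal.span (Set.range P)))
    (germIdeal (Ideal.span (Set.range Q))) E hI, ?_⟩
  intro c
  refine (Ideal.quotientEquiv_mk _ _ E hI _).trans ?_
  have h2 : E (polyGerm (MvPolynomial.C c)) = polyGerm (MvPolynomial.C c) := by
    apply hE
    exact Eventually.of_forall fun z => by simp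
  exact congrArg (Ideal.Quotient.mk (germIdeal (Ideal.span (Set.range Q)))) h2

theorem analyticGermIso_of_biholomorphic {k : ℕ} (P Q : Fin k → MvPolynomial (Fin n) ℂ)
    (x : Spec (.of (MvPolynomial (Fin n) ℂ ⧸ Ideal.span (Set.range P))))
    (hx : ∀ i, Ideal.Quotient.mk (Ideal.span (Set.range P)) (MvPolynomial.X i) ∈ x.asIdeal)
    (y : Spec (.of (MvPolynomial (Fin n) ℂ ⧸ Ideal.span (Set.range Q))))
    (hy : ∀ i, Ideal.Quotient.mk (Ideal.span (Set.range Q)) (MvPolynomial.X i) ∈ y.asIdeal)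
    (Φ Ψ : (Fin n → ℂ) → (Fin n → ℂ)) (hΦ : AnalyticAt ℂ Φ 0)
    (hΦ0 : Φ 0 = 0) (hΨ : AnalyticAt ℂ Ψ 0) (hΨ0 : Ψ 0 = 0)
    (h : ∀ᶠ z in 𝓝 (0 : Fin n → ℂ), Φ (Ψ z) = z)
    (h' : ∀ᶠ z in 𝓝 (0 : Fin n → ℂ), Ψ (Φ z) = z)
    (hPQ : ∀ i, ∀ᶠ z in 𝓝 (0 : Fin n → ℂ),
      MvPolynomial.eval (Φ z) (P i) = MvPolynomial.eval z (Q i)) :
    AnalyticGermIso (str (MvPolynomial (Fin n) ℂ ⧸ Ideal.span (Set.range P))) x
      (str (MvPolynomial (Fin n) ℂ ⧸ Ideal.span (Set.range Q))) y :=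
  ⟨n, n, tautPresentation _ x hx, tautPresentation _ y hy,
    analyticRingIso_of_biholomorphic P Q Φ Ψ hΦ hΦ0 hΨ hΨ0 h h' hPQ⟩

end Pool.Agent.Helper395
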