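import Mathlib

open AlgebraicGeometry CategoryTheory CategoryTheory.Limits

set_option linter.style.haveILetI false

namespace Pool.Agent.Helper395

section

variable {D U₁ U₂ : Scheme.{0}} (d₁ : D ⟶ U₁) (d₂ : D ⟶ U₂) [IsOpenImmersion d₁]
  [IsOpenImmersion d₂]

instance span_openImmersion {i j : WalkingSpan} (f : i ⟶ j) :
    IsOpenImmersion ((span d₁ d₂).map f) := by
  match i, j, f with
  | _, _, WidePushoutShape.Hom.id X =>
    have : (span d₁ d₂).map (WidePushoutShape.Hom.id X : X ⟶ X) = 𝟙 _ :=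
      (span d₁ d₂).map_id X
    rw [this]
    infer_instance
  | _, _, WidePushoutShape.Hom.init WalkingPair.left => exact ‹IsOpenImmersion d₁›
  | _, _, WidePushoutShape.Hom.init WalkingPair.right => exact ‹IsOpenImmersion d₂›

instance : IsOpenImmersion (pushout.inl d₁ d₂) :=
  inferInstanceAs (IsOpenImmersion (colimit.ι (span d₁ d₂) WalkingSpan.left))

instance : IsOpenImmersion (pushout.inr d₁ d₂) :=
  inferInstanceAs (IsOpenImmersion (colimit.ι (span d₁ d₂) WalkingSpan.right))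

theorem pushout_jointly_surjective (x : (pushout d₁ d₂ : Scheme.{0})) :
    (∃ y, pushout.inl d₁ d₂ y = x) ∨ (∃ y, pushout.inr d₁ d₂ y = x) := by
  obtain ⟨i, xi, h⟩ := Scheme.IsLocallyDirected.ι_jointly_surjective (span d₁ d₂) x
  match i, xi, h with
  | none, xi, h =>
    left
    refine ⟨d₁ xi, ?_⟩
    have e : colimit.ι (span d₁ d₂) none = d₁ ≫ pushout.inl d₁ d₂ :=
      (colimit.w (span d₁ d₂) (WidePushoutShape.Hom.init WalkingPair.left)).symm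
    rw [← h]
    exact (congrArg (fun f => f xi) e).symm
  | some WalkingPair.left, xi, h => exact Or.inl ⟨xi, h⟩
  | some WalkingPair.right, xi, h => exact Or.inr ⟨xi, h⟩

theorem pushout_eq_iff (x : U₁) (y : U₂) :
    pushout.inl d₁ d₂ x = pushout.inr d₁ d₂ y ↔ ∃ z : D, d₁ z = x ∧ d₂ z = y := by
  constructor
  · intro h
    obtain ⟨k, fi, fj, z, h1, h2⟩ := (Scheme.IsLocallyDirected.ι_eq_ι_iff (span d₁ d₂)
      (i := WalkingSpan.left) (j := WalkingSpan.right)).mp h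
    match k, fi, fj, z, h1, h2 with
    | none, WidePushoutShape.Hom.init _, WidePushoutShape.Hom.init _, z, h1, h2 =>
      exact ⟨z, h1, h2⟩
  · rintro ⟨z, rfl, rfl⟩
    have := pushout.condition (f := d₁) (g := d₂)
    exact congrArg (fun f => f z) this

end

/-- The valuative condition for a chart. -/
def ValCondition {R A : Type} [CommRing R] [CommRing A] (ρ : R →+* A) (x : A) : Prop :=
  ∀ (V K : Type) [CommRing V] [IsDomain V] [ValuationRing V] [Field K] [Algebra V K]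
    [IsFractionRing V K] (θ : A →+* K), (∀ r, θ (ρ r) ∈ Set.range (algebraMap V K)) →
    θ x ∈ Set.range (algebraMap V K) → ∀ a, θ a ∈ Set.range (algebraMap V K)

/-- A scheme with two affine charts glued along principal opens. -/
structure TwoCharts (R A₁ A₂ B : Type) [CommRing R] [CommRing A₁] [CommRing A₂] [CommRing B] where
  T : Scheme.{0}
  f : T ⟶ Spec (.of R)
  ρ₁ : R →+* A₁
  ρ₂ : R →+* A₂
  ι₁ : A₁ →+* B
  ι₂ : A₂ →+* B
  x₁ : A₁
  x₂ : A₂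
  inc₁ : Spec (.of A₁) ⟶ T
  inc₂ : Spec (.of A₂) ⟶ T
  open₁ : IsOpenImmersion inc₁
  open₂ : IsOpenImmersion inc₂
  fac₁ : inc₁ ≫ f = Spec.map (CommRingCat.ofHom ρ₁)
  fac₂ : inc₂ ≫ f = Spec.map (CommRingCat.ofHom ρ₂)
  glue : Spec.map (CommRingCat.ofHom ι₁) ≫ inc₁ = Spec.map (CommRingCat.ofHom ι₂) ≫ inc₂
  surj : ∀ x : T, (∃ y, inc₁ y = x) ∨ ∃ y, inc₂ y = x
  inter : ∀ x y, inc₁ x = inc₂ y → ∃ z : Spec (.of B),
    Spec.map (CommRingCat.ofHom ι₁) z = x ∧ Spec.map (CommRingCat.ofHom ι₂) z = y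
  loc₁ : @IsLocalization.Away A₁ _ x₁ B _ ι₁.toAlgebra
  loc₂ : @IsLocalization.Away A₂ _ x₂ B _ ι₂.toAlgebra
  hx : ι₁ x₁ * ι₂ x₂ = 1
  val₁ : ValCondition ρ₁ x₁
  val₂ : ValCondition ρ₂ x₂

namespace TwoCharts

variable {R A₁ A₂ B : Type} [CommRing R] [CommRing A₁] [CommRing A₂] [CommRing B]

/-- Exchange the two charts. -/
def swap (𝒯 : TwoCharts R A₁ A₂ B) : TwoCharts R A₂ A₁ B where
  T := 𝒯.T
  f := 𝒯.f
  ρ₁ := 𝒯.ρ₂
  ρ₂ := 𝒯.ρ₁
  ι₁ := 𝒯.ι₂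
  ι₂ := 𝒯.ι₁
  x₁ := 𝒯.x₂
  x₂ := 𝒯.x₁
  inc₁ := 𝒯.inc₂
  inc₂ := 𝒯.inc₁
  open₁ := 𝒯.open₂
  open₂ := 𝒯.open₁
  fac₁ := 𝒯.fac₂
  fac₂ := 𝒯.fac₁
  glue := 𝒯.glue.symm
  surj := fun x => (𝒯.surj x).symm
  inter := fun x y h => by
    obtain ⟨z, h1, h2⟩ := 𝒯.inter y x h.symm
    exact ⟨z, h2, h1⟩
  loc₁ := 𝒯.loc₂
  loc₂ := 𝒯.loc₁
  hx := by rw [mul_comm]; exact 𝒯.hx
  val₁ := 𝒯.val₂
  val₂ := 𝒯.val₁

theorem exists_lift_of_chart (𝒯 : TwoCharts R A₁ A₂ B) (S : ValuativeCommSq 𝒯.f)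
    (θ : A₁ →+* S.K) (hθ : Spec.map (CommRingCat.ofHom θ) ≫ 𝒯.inc₁ = S.i₁)
    (hx : θ 𝒯.x₁ ∈ Set.range (algebraMap S.R S.K)) : S.commSq.HasLift := by
  obtain ⟨γ, hγ⟩ : ∃ γ : R →+* S.R, Spec.map (CommRingCat.ofHom γ) = S.i₂ :=
    ⟨(Spec.preimage S.i₂).hom, Spec.map_preimage S.i₂⟩
  have hinj : Function.Injective (algebraMap S.R S.K) := IsFractionRing.injective _ _
  have h1 : θ.comp 𝒯.ρ₁ = (algebraMap S.R S.K).comp γ := by
    have h2 := S.commSq.w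
    rw [← hθ, Category.assoc, 𝒯.fac₁, ← hγ, ← Spec.map_comp, ← Spec.map_comp,
      ← CommRingCat.ofHom_comp, ← CommRingCat.ofHom_comp] at h2
    exact congrArg CommRingCat.Hom.hom (Spec.map_injective h2)
  have h3 := 𝒯.val₁ S.R S.K θ (fun r => ⟨γ r, (congrArg (fun g => g r) h1).symm⟩) hx
  choose θ' hθ' using h3
  let θ'' : A₁ →+* S.R :=
    { toFun := θ'
      map_one' := hinj (by rw [hθ', map_one, map_one])
      map_zero' := hinj (by rw [hθ', map_zero, map_zero])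
      map_add' := fun a b => hinj (by rw [hθ', map_add, map_add, hθ', hθ'])
      map_mul' := fun a b => hinj (by rw [hθ', map_mul, map_mul, hθ', hθ']) }
  have h4 : (algebraMap S.R S.K).comp θ'' = θ := RingHom.ext hθ'
  refine ⟨⟨{ l := Spec.map (CommRingCat.ofHom θ'') ≫ 𝒯.inc₁, fac_left := ?_, fac_right := ?_ }⟩⟩
  · rw [← Category.assoc, ← Spec.map_comp, ← CommRingCat.ofHom_comp, h4, hθ]
  · rw [Category.assoc, 𝒯.fac₁, ← hγ, ← Spec.map_comp, ← CommRingCat.ofHom_comp]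
    congr 2
    ext r
    apply hinj
    have := congrArg (fun g => g r) h1
    change algebraMap S.R S.K (θ' (𝒯.ρ₁ r)) = algebraMap S.R S.K (γ r)
    rw [hθ']
    exact this

theorem exists_lift_inl (𝒯 : TwoCharts R A₁ A₂ B) (S : ValuativeCommSq 𝒯.f)
    (h : Set.range S.i₁ ⊆ Set.range 𝒯.inc₁) : S.commSq.HasLift := by
  have := 𝒯.open₁
  obtain ⟨θ, hθ⟩ : ∃ θ : A₁ →+* S.K, Spec.map (CommRingCat.ofHom θ) ≫ 𝒯.inc₁ = S.i₁ := by
    refine ⟨(Spec.preimage (IsOpenImmersion.lift 𝒯.inc₁ S.i₁ h)).hom, ?_⟩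
    rw [CommRingCat.ofHom_hom, Spec.map_preimage, IsOpenImmersion.lift_fac]
  by_cases h1 : θ 𝒯.x₁ ∈ Set.range (algebraMap S.R S.K)
  · exact 𝒯.exists_lift_of_chart S θ hθ h1
  · have h2 : θ 𝒯.x₁ ≠ 0 := by
      intro h0
      exact h1 ⟨0, by rw [h0, map_zero]⟩
    have h3 : (θ 𝒯.x₁)⁻¹ ∈ Set.range (algebraMap S.R S.K) := by
      rcases ValuationRing.isInteger_or_isInteger S.R (θ 𝒯.x₁) with h | h
      · exact absurd h h1
      · exact h
    letI := 𝒯.ι₁.toAlgebra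
    have hloc : IsLocalization.Away 𝒯.x₁ B := 𝒯.loc₁
    let β : B →+* S.K := IsLocalization.Away.lift 𝒯.x₁ (g := θ) (IsUnit.mk0 _ h2)
    have hβ : β.comp 𝒯.ι₁ = θ := IsLocalization.Away.lift_comp 𝒯.x₁ _
    refine 𝒯.swap.exists_lift_of_chart S (β.comp 𝒯.ι₂) ?_ ?_
    · change Spec.map (CommRingCat.ofHom (β.comp 𝒯.ι₂)) ≫ 𝒯.inc₂ = S.i₁
      rw [CommRingCat.ofHom_comp, Spec.map_comp, Category.assoc, ← 𝒯.glue, ← Category.assoc,
        ← Spec.map_comp, ← CommRingCat.ofHom_comp, hβ, hθ]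
    · change β (𝒯.ι₂ 𝒯.x₂) ∈ _
      have h4 : θ 𝒯.x₁ * β (𝒯.ι₂ 𝒯.x₂) = 1 := by
        rw [← hβ, RingHom.comp_apply, ← map_mul, 𝒯.hx, map_one]
      rw [eq_inv_of_mul_eq_one_right h4]
      exact h3

theorem existence (𝒯 : TwoCharts R A₁ A₂ B) : ValuativeCriterion.Existence 𝒯.f := by
  intro S
  let pt : Spec (.of S.K) := IsLocalRing.closedPoint S.K
  have hsub : Subsingleton (Spec (.of S.K) : Scheme.{0}) :=
    inferInstanceAs (Subsingleton (PrimeSpectrum S.K))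
  rcases 𝒯.surj (S.i₁ pt) with ⟨y, hy⟩ | ⟨y, hy⟩
  · apply 𝒯.exists_lift_inl S
    rintro _ ⟨z, rfl⟩
    rw [Subsingleton.elim z pt]
    exact ⟨y, hy⟩
  · apply 𝒯.swap.exists_lift_inl S
    rintro _ ⟨z, rfl⟩
    rw [Subsingleton.elim z pt]
    exact ⟨y, hy⟩

theorem eq_of_same_chart (𝒯 : TwoCharts R A₁ A₂ B) {V K : Type} [CommRing V] [Field K]
    [Algebra V K] (hinj : Function.Injective (algebraMap V K)) (φ φ' : A₁ →+* V)
    (h : Spec.map (CommRingCat.ofHom (algebraMap V K)) ≫ Spec.map (CommRingCat.ofHom φ) ≫ 𝒯.inc₁ =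
      Spec.map (CommRingCat.ofHom (algebraMap V K)) ≫ Spec.map (CommRingCat.ofHom φ') ≫ 𝒯.inc₁) :
    φ = φ' := by
  have := 𝒯.open₁
  rw [← Category.assoc, ← Category.assoc, cancel_mono, ← Spec.map_comp, ← Spec.map_comp,
    ← CommRingCat.ofHom_comp, ← CommRingCat.ofHom_comp] at h
  have h1 := congrArg CommRingCat.Hom.hom (Spec.map_injective h)
  ext a
  exact hinj (congrArg (fun g => g a) h1)

theorem eq_of_diff_chart (𝒯 : TwoCharts R A₁ A₂ B) {V K : Type} [CommRing V] [Field K]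
    [Algebra V K] (hinj : Function.Injective (algebraMap V K)) (φ₁ : A₁ →+* V) (φ₂ : A₂ →+* V)
    (h : Spec.map (CommRingCat.ofHom (algebraMap V K)) ≫ Spec.map (CommRingCat.ofHom φ₁) ≫ 𝒯.inc₁ =
      Spec.map (CommRingCat.ofHom (algebraMap V K)) ≫ Spec.map (CommRingCat.ofHom φ₂) ≫ 𝒯.inc₂) :
    Spec.map (CommRingCat.ofHom φ₁) ≫ 𝒯.inc₁ = Spec.map (CommRingCat.ofHom φ₂) ≫ 𝒯.inc₂ := by
  have := 𝒯.open₁
  have := 𝒯.open₂
  let k₁ : A₁ →+* K := (algebraMap V K).comp φ₁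
  let k₂ : A₂ →+* K := (algebraMap V K).comp φ₂
  have hk : Spec.map (CommRingCat.ofHom k₁) ≫ 𝒯.inc₁ = Spec.map (CommRingCat.ofHom k₂) ≫ 𝒯.inc₂ := by
    rw [CommRingCat.ofHom_comp, CommRingCat.ofHom_comp, Spec.map_comp, Spec.map_comp,
      Category.assoc, Category.assoc, h]
  letI := 𝒯.ι₁.toAlgebra
  have hloc : IsLocalization.Away 𝒯.x₁ B := 𝒯.loc₁
  have hk₁ : k₁ 𝒯.x₁ ≠ 0 := by
    intro h0
    let pt : Spec (.of K) := IsLocalRing.closedPoint K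
    obtain ⟨z, hz, -⟩ := 𝒯.inter (Spec.map (CommRingCat.ofHom k₁) pt)
      (Spec.map (CommRingCat.ofHom k₂) pt) (congrArg (fun f => f pt) hk)
    have h1 : 𝒯.x₁ ∈ (Spec.map (CommRingCat.ofHom k₁) pt).asIdeal := by
      change k₁ 𝒯.x₁ ∈ IsLocalRing.maximalIdeal K
      rw [h0]; exact Ideal.zero_mem _
    rw [← hz] at h1
    change 𝒯.ι₁ 𝒯.x₁ ∈ z.asIdeal at h1
    apply z.2.ne_top
    exact Ideal.eq_top_of_isUnit_mem _ h1 (IsLocalization.Away.algebraMap_isUnit 𝒯.x₁)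
  let β : B →+* K := IsLocalization.Away.lift 𝒯.x₁ (g := k₁) (IsUnit.mk0 _ hk₁)
  have hβ : β.comp 𝒯.ι₁ = k₁ := IsLocalization.Away.lift_comp 𝒯.x₁ _
  have hβ₂ : β.comp 𝒯.ι₂ = k₂ := by
    have h1 : Spec.map (CommRingCat.ofHom (β.comp 𝒯.ι₂)) ≫ 𝒯.inc₂ =
        Spec.map (CommRingCat.ofHom k₂) ≫ 𝒯.inc₂ := by
      rw [← hk, CommRingCat.ofHom_comp, Spec.map_comp, Category.assoc, ← 𝒯.glue,
        ← Category.assoc, ← Spec.map_comp, ← CommRingCat.ofHom_comp, hβ]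
    rw [cancel_mono] at h1
    exact congrArg CommRingCat.Hom.hom (Spec.map_injective h1)
  have hunit : φ₁ 𝒯.x₁ * φ₂ 𝒯.x₂ = 1 := by
    apply hinj
    rw [map_mul, map_one]
    change k₁ 𝒯.x₁ * k₂ 𝒯.x₂ = 1
    rw [← hβ, ← hβ₂, RingHom.comp_apply, RingHom.comp_apply, ← map_mul, 𝒯.hx, map_one]
  let β' : B →+* V := IsLocalization.Away.lift 𝒯.x₁ (g := φ₁) (IsUnit.of_mul_eq_one _ hunit)
  have hβ' : β'.comp 𝒯.ι₁ = φ₁ := IsLocalization.Away.lift_comp 𝒯.x₁ _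
  have hβ'' : (algebraMap V K).comp β' = β := by
    apply IsLocalization.ringHom_ext (Submonoid.powers 𝒯.x₁)
    change ((algebraMap V K).comp β').comp 𝒯.ι₁ = β.comp 𝒯.ι₁
    rw [RingHom.comp_assoc, hβ', hβ]
  have hβ₂' : β'.comp 𝒯.ι₂ = φ₂ := by
    ext a
    apply hinj
    have h1 : ((algebraMap V K).comp β').comp 𝒯.ι₂ = (algebraMap V K).comp φ₂ := by
      rw [hβ'', hβ₂]
    exact congrArg (fun g => g a) h1
  rw [← hβ', ← hβ₂', CommRingCat.ofHom_comp, CommRingCat.ofHom_comp, Spec.map_comp,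
    Spec.map_comp, Category.assoc, Category.assoc, 𝒯.glue]

theorem factor_chart (𝒯 : TwoCharts R A₁ A₂ B) {V : Type} [CommRing V] [IsLocalRing V]
    (l : Spec (.of V) ⟶ 𝒯.T) (h : ∃ y, 𝒯.inc₁ y = l (IsLocalRing.closedPoint V)) :
    ∃ φ : A₁ →+* V, l = Spec.map (CommRingCat.ofHom φ) ≫ 𝒯.inc₁ := by
  have := 𝒯.open₁
  have hr : Set.range l ⊆ Set.range 𝒯.inc₁ := by
    rintro _ ⟨z, rfl⟩
    have h1 : z ⤳ IsLocalRing.closedPoint V := IsLocalRing.specializes_closedPoint z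
    have h2 : l z ⤳ l (IsLocalRing.closedPoint V) := h1.map l.continuous
    exact h2.mem_open 𝒯.inc₁.isOpenEmbedding.isOpen_range h
  refine ⟨(Spec.preimage (IsOpenImmersion.lift 𝒯.inc₁ l hr)).hom, ?_⟩
  rw [CommRingCat.ofHom_hom, Spec.map_preimage, IsOpenImmersion.lift_fac]

theorem uniqueness (𝒯 : TwoCharts R A₁ A₂ B) : ValuativeCriterion.Uniqueness 𝒯.f := by
  intro S
  constructor
  rintro ⟨l₁, hl₁, hl₁'⟩ ⟨l₂, hl₂, hl₂'⟩
  have hinj : Function.Injective (algebraMap S.R S.K) := IsFractionRing.injective _ _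
  have hl : Spec.map (CommRingCat.ofHom (algebraMap S.R S.K)) ≫ l₁ =
      Spec.map (CommRingCat.ofHom (algebraMap S.R S.K)) ≫ l₂ := hl₁.trans hl₂.symm
  have key : l₁ = l₂ := by
    rcases 𝒯.surj (l₁ (IsLocalRing.closedPoint S.R)) with h1 | h1 <;>
    rcases 𝒯.surj (l₂ (IsLocalRing.closedPoint S.R)) with h2 | h2
    · obtain ⟨φ, rfl⟩ := 𝒯.factor_chart l₁ h1
      obtain ⟨φ', rfl⟩ := 𝒯.factor_chart l₂ h2
      rw [𝒯.eq_of_same_chart hinj φ φ' hl]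
    · obtain ⟨φ, rfl⟩ := 𝒯.factor_chart l₁ h1
      obtain ⟨φ', rfl⟩ := 𝒯.swap.factor_chart l₂ h2
      exact 𝒯.eq_of_diff_chart hinj φ φ' hl
    · obtain ⟨φ, rfl⟩ := 𝒯.swap.factor_chart l₁ h1
      obtain ⟨φ', rfl⟩ := 𝒯.factor_chart l₂ h2
      exact 𝒯.swap.eq_of_diff_chart hinj φ φ' hl
    · obtain ⟨φ, rfl⟩ := 𝒯.swap.factor_chart l₁ h1
      obtain ⟨φ', rfl⟩ := 𝒯.swap.factor_chart l₂ h2
      have h3 := 𝒯.swap.eq_of_same_chart hinj φ φ' hl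
      rw [h3]
  subst key
  rfl

/-- The open cover by the two charts. -/
noncomputable def cover (𝒯 : TwoCharts R A₁ A₂ B) : 𝒯.T.OpenCover :=
  Scheme.Cover.mkOfCovers Bool
    (fun b => match b with
      | true => Spec (.of A₁)
      | false => Spec (.of A₂))
    (fun b => match b with
      | true => 𝒯.inc₁
      | false => 𝒯.inc₂)
    (fun x => by
      rcases 𝒯.surj x with ⟨y, hy⟩ | ⟨y, hy⟩
      · exact ⟨true, y, hy⟩
      · exact ⟨false, y, hy⟩)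
    (fun b => match b with
      | true => 𝒯.open₁
      | false => 𝒯.open₂)

theorem local_at_source (𝒯 : TwoCharts R A₁ A₂ B) (P : MorphismProperty Scheme.{0})
    [IsZariskiLocalAtSource P] {Z : Scheme.{0}} (g : 𝒯.T ⟶ Z) (h₁ : P (𝒯.inc₁ ≫ g))
    (h₂ : P (𝒯.inc₂ ≫ g)) : P g := by
  rw [IsZariskiLocalAtSource.iff_of_openCover (P := P) 𝒯.cover]
  intro b
  match b with
  | true => exact h₁
  | false => exact h₂

theorem compactSpace (𝒯 : TwoCharts R A₁ A₂ B) : CompactSpace 𝒯.T := by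
  rw [← isCompact_univ_iff]
  have h : (Set.univ : Set 𝒯.T) = Set.range 𝒯.inc₁ ∪ Set.range 𝒯.inc₂ := by
    ext x
    simp only [Set.mem_univ, true_iff]
    exact 𝒯.surj x
  rw [h]
  exact (isCompact_range 𝒯.inc₁.continuous).union (isCompact_range 𝒯.inc₂.continuous)

theorem locallyOfFiniteType (𝒯 : TwoCharts R A₁ A₂ B) (h₁ : 𝒯.ρ₁.FiniteType)
    (h₂ : 𝒯.ρ₂.FiniteType) : LocallyOfFiniteType 𝒯.f := by
  have : IsZariskiLocalAtSource (P := (@LocallyOfFiniteType : MorphismProperty Scheme.{0})) :=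
    HasRingHomProperty.instIsZariskiLocalAtSource
  apply 𝒯.local_at_source @LocallyOfFiniteType
  · rw [𝒯.fac₁, HasRingHomProperty.Spec_iff (P := @LocallyOfFiniteType)]
    exact h₁
  · rw [𝒯.fac₂, HasRingHomProperty.Spec_iff (P := @LocallyOfFiniteType)]
    exact h₂

set_option backward.isDefEq.respectTransparency.types false in
theorem isProper [IsNoetherianRing R] (𝒯 : TwoCharts R A₁ A₂ B) (h₁ : 𝒯.ρ₁.FiniteType)
    (h₂ : 𝒯.ρ₂.FiniteType) : IsProper 𝒯.f := by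
  have hft := 𝒯.locallyOfFiniteType h₁ h₂
  have hcpt := 𝒯.compactSpace
  have hln : IsLocallyNoetherian 𝒯.T := LocallyOfFiniteType.isLocallyNoetherian 𝒯.f
  have hqc : QuasiCompact 𝒯.f := by
    rw [HasAffineProperty.iff_of_isAffine (P := @QuasiCompact)]
    exact hcpt
  have hqs : QuasiSeparated 𝒯.f := inferInstance
  exact IsProper.of_valuativeCriterion _ (ValuativeCriterion.iff.mpr ⟨𝒯.existence, 𝒯.uniqueness⟩)

end TwoCharts

end Pool.Agent.Helper395
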