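import Pool.Agent.Helper395.Present

open AlgebraicGeometry CategoryTheory CategoryTheory.Limits UniqueFactorizationMonoid Polynomial

set_option linter.style.haveILetI false

namespace Pool.Agent.Helper395

/-! ### The affine line over a field as a regular curve -/

section

variable (κ : Type) [Field κ]

set_option backward.isDefEq.respectTransparency.types false in
theorem regCurve_line : RegCurve (Spec (.of κ[X])) := by
  intro x hx
  let R : CommRingCat.{0} := .of κ[X]
  letI : Algebra R ((Spec R).presheaf.stalk x) := StructureSheaf.stalkAlgebra R x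
  have hloc : IsLocalization.AtPrime ((Spec R).presheaf.stalk x) x.asIdeal :=
    StructureSheaf.IsLocalization.to_stalk R x
  have hne : x.asIdeal ≠ ⊥ := by
    intro h
    apply hx
    rw [genericPoint_eq_bot_of_affine]
    exact PrimeSpectrum.ext h
  have : IsDedekindDomain R := inferInstanceAs (IsDedekindDomain κ[X])
  exact IsLocalization.AtPrime.isDiscreteValuationRing_of_dedekind_domain R hne _

theorem secEval_id_mem_primeIdealOf {A : Type} [CommRing A] (x : Spec (.of A)) (f : A) :
    secEval (𝟙 (Spec (.of A))) ⊤ f ∈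
      ((isAffineOpen_top (Spec (.of A))).primeIdealOf ⟨x, trivial⟩).asIdeal ↔ f ∈ x.asIdeal := by
  let Y : Scheme.{0} := Spec (.of A)
  have hT : IsAffineOpen (⊤ : Y.Opens) := isAffineOpen_top Y
  let g : Γ(Y, ⊤) := secEval (𝟙 Y) ⊤ f
  have h1 : g ∉ (hT.primeIdealOf ⟨x, trivial⟩).asIdeal ↔ x ∈ Y.basicOpen g := by
    have h2 := hT.fromSpec_preimage_basicOpen g
    have h3 : hT.primeIdealOf ⟨x, trivial⟩ ∈ (hT.fromSpec ⁻¹ᵁ Y.basicOpen g) ↔
        hT.primeIdealOf ⟨x, trivial⟩ ∈ PrimeSpectrum.basicOpen g := by rw [h2]; exact Iff.rfl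
    have h4 := hT.fromSpec_primeIdealOf ⟨x, trivial⟩
    have h5 : hT.primeIdealOf ⟨x, trivial⟩ ∈ (hT.fromSpec ⁻¹ᵁ Y.basicOpen g) ↔
        x ∈ Y.basicOpen g := by
      change hT.fromSpec (hT.primeIdealOf ⟨x, trivial⟩) ∈ Y.basicOpen g ↔ _
      rw [h4]
    rw [← h5, h3]
    exact Iff.rfl
  have h6 : x ∈ Y.basicOpen g ↔ ptEval (𝟙 Y) x f ≠ 0 := by
    rw [← Scheme.evaluation_ne_zero_iff_mem_basicOpen (X := Y) (U := ⊤) x trivial g,
      ← evaluation_secEval (𝟙 Y) ⊤ x trivial]
    exact Iff.rfl
  have h7 : ptEval (𝟙 Y) x f ≠ 0 ↔ f ∉ x.asIdeal := by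
    rw [← mem_preimage_basicOpen (𝟙 Y) f x]
    exact Iff.rfl
  rw [← not_iff_not, ← h7, ← h6]
  exact h1

instance nonempty_top_line : Nonempty ((⊤ : (Spec (.of κ[X])).Opens) : Scheme.{0}) :=
  ⟨⟨(⊥ : PrimeSpectrum κ[X]), trivial⟩⟩

open Classical in
theorem ord_line (f : κ[X]) (hf : Prime f) (x : Spec (.of κ[X])) :
    Scheme.ord ((Spec (.of κ[X])).germToFunctionField ⊤ (secEval (𝟙 _) ⊤ f)) x =
      if f ∈ x.asIdeal then 1 else 0 := by
  let Y : Scheme.{0} := Spec (.of κ[X])
  have hC : RegCurve Y := regCurve_line κ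
  have hT : IsAffineOpen (⊤ : Y.Opens) := isAffineOpen_top Y
  have hded : IsDedekindDomain Γ(Y, ⊤) := hC.isDedekindDomain ⊤ hT
  let g : Γ(Y, ⊤) := secEval (𝟙 Y) ⊤ f
  let e : κ[X] ≃+* Γ(Y, ⊤) := RingEquiv.ofBijective (secEval (𝟙 Y) ⊤)
    (secEval_id_top_bijective κ[X])
  have hg : Prime g := (MulEquiv.prime_iff e.toMulEquiv).mpr hf
  have hg0 : g ≠ 0 := hg.ne_zero
  have hspan : Prime (Ideal.span {g} : Ideal Γ(Y, ⊤)) :=
    Ideal.prime_of_isPrime (by simpa using hg0) ((Ideal.span_singleton_prime hg0).mpr hg)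
  have hnf : normalizedFactors (Ideal.span {g} : Ideal Γ(Y, ⊤)) = {Ideal.span {g}} := by
    rw [normalizedFactors_irreducible hspan.irreducible, normalize_eq]
  have hmem := secEval_id_mem_primeIdealOf x f
  by_cases hx : x = genericPoint Y
  · have h0 : Scheme.ord (Y.germToFunctionField ⊤ g) x = 0 := by
      apply Scheme.ord_eq_zero_of_coheight_neq_one
      rw [hx, coheight_genericPoint]; exact zero_ne_one
    rw [if_neg]
    · exact h0
    · intro hfx
      rw [hx, genericPoint_eq_bot_of_affine] at hfx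
      exact hf.ne_zero hfx
  · rw [hC.ord_eq ⊤ hT g hg0 ⟨x, trivial⟩ hx, hnf, Multiset.count_singleton]
    by_cases hfx : f ∈ x.asIdeal
    · have h1 : g ∈ (hT.primeIdealOf ⟨x, trivial⟩).asIdeal := hmem.mpr hfx
      have h2 : Ideal.span {g} = (hT.primeIdealOf ⟨x, trivial⟩).asIdeal := by
        have hmax : (Ideal.span {g}).IsMaximal :=
          ((Ideal.span_singleton_prime hg0).mpr hg).isMaximal (by simpa using hg0)
        exact hmax.eq_of_le (hT.primeIdealOf ⟨x, trivial⟩).2.ne_top
          ((Ideal.span_singleton_le_iff_mem _).mpr h1)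
      rw [if_pos h2.symm, if_pos hfx]; rfl
    · have h2 : (hT.primeIdealOf ⟨x, trivial⟩).asIdeal ≠ Ideal.span {g} := by
        intro h3
        apply hfx
        rw [← hmem, h3]
        exact Ideal.mem_span_singleton_self g
      rw [if_neg h2, if_neg hfx]; rfl

end

theorem residueDegree_eq_one {U V W : Scheme.{0}} (f : U ⟶ V) (g : V ⟶ W)
    [IsClosedImmersion (f ≫ g)] (u : U) : g.residueDegree (f u) = 1 := by
  have h1 : Function.Surjective ((f ≫ g).residueFieldMap u).hom := by
    intro y
    obtain ⟨y', rfl⟩ := IsLocalRing.residue_surjective y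
    obtain ⟨x, rfl⟩ := (f ≫ g).stalkMap_surjective u y'
    refine ⟨W.residue _ x, ?_⟩
    have := Scheme.residue_residueFieldMap (f ≫ g) u
    exact congrArg (fun h => h.hom x) this
  have h2 : Function.Surjective (g.residueFieldMap (f u)).hom := by
    intro y
    obtain ⟨x, hx⟩ := h1 ((f.residueFieldMap u).hom y)
    refine ⟨x, ?_⟩
    apply (f.residueFieldMap u).hom.injective
    rw [← hx, Scheme.residueFieldMap_comp]
    rfl
  have h3 : Function.Bijective (g.residueFieldMap (f u)).hom :=
    ⟨RingHom.injective _, h2⟩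
  letI := (g.residueFieldMap (f u)).hom.toAlgebra
  change Module.finrank (W.residueField (g (f u))) (V.residueField (f u)) = 1
  have e : W.residueField (g (f u)) ≃ₐ[W.residueField (g (f u))] V.residueField (f u) :=
    AlgEquiv.ofBijective (Algebra.ofId _ _) h3
  rw [← e.toLinearEquiv.finrank_eq, Module.finrank_self]

theorem pushforward_single {X Y : Scheme.{0}} (f : X ⟶ Y) [UniversallyClosed f] (x : ClosedPt X)
    (n : ℤ) : pushforward f (Finsupp.single x n) =
      Finsupp.single (pushPt f x) ((f.residueDegree x.1 : ℤ) * n) := by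
  rw [pushforward, Finsupp.liftAddHom_apply_single]
  rfl

/-- Zero-cycles on a product with the affine line are rationally equivalent to zero. -/
theorem rat_eq_top {F : Type} [Field F] {T W : Scheme.{0}} (s : T ⟶ Spec (.of F))
    [IsSeparated s] [LocallyOfFiniteType s] (sT : T ⟶ Spec (.of ℂ)) (p : W ⟶ T)
    (b : W ⟶ Spec (.of ℂ[X]))
    (h : IsPullback p b sT (Spec.map (CommRingCat.ofHom (algebraMap ℂ ℂ[X])))) :
    Rat W = ⊤ := by
  suffices hmain : ∀ c : ClosedPt W, Finsupp.single c 1 ∈ Rat W by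
    rw [eq_top_iff]
    rintro z -
    induction z using Finsupp.induction_linear with
    | zero => exact AddSubgroup.zero_mem _
    | add x y hx hy => exact AddSubgroup.add_mem _ hx hy
    | single c n =>
      have : (Finsupp.single c n : ZeroCycle W) = n • Finsupp.single c 1 := by
        rw [Finsupp.smul_single, smul_eq_mul, mul_one]
      rw [this]
      exact AddSubgroup.zsmul_mem _ (hmain c) n
  intro c
  let κ : Type := W.residueField c.1
  let ic : Spec (.of κ) ⟶ W := W.fromSpecResidueField c.1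
  have hic : IsClosedImmersion ic := isClosed_singleton_iff_isClosedImmersion.mp c.2
  let q : Spec (.of κ) ⟶ T := ic ≫ p
  have hp : LocallyOfFiniteType p := by
    have h1 : LocallyOfFiniteType (Spec.map (CommRingCat.ofHom (algebraMap ℂ ℂ[X]))) := by
      rw [HasRingHomProperty.Spec_iff (P := @LocallyOfFiniteType)]
      exact RingHom.finiteType_algebraMap.mpr inferInstance
    exact MorphismProperty.of_isPullback h.flip h1
  have hq : IsFinite q := by
    have h1 : IsFinite (q ≫ s) := by
      have : Subsingleton (Spec (.of κ) : Scheme.{0}) :=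
        inferInstanceAs (Subsingleton (PrimeSpectrum κ))
      rw [isFinite_iff_locallyOfFiniteType_of_jacobsonSpace]
      infer_instance
    exact IsFinite.of_comp q s
  let φ : ℂ →+* κ := ptEval (p ≫ sT) c.1
  have hφ : Spec.map (CommRingCat.ofHom φ) = q ≫ sT := by
    rw [Category.assoc]
    exact spec_ptEval (p ≫ sT) c.1
  letI : Algebra ℂ κ := φ.toAlgebra
  letI : Algebra ℂ[X] κ[X] := Polynomial.algebra ℂ κ
  let L : Scheme.{0} := Spec (.of κ[X])
  let cst : L ⟶ Spec (.of κ) := Spec.map (CommRingCat.ofHom (algebraMap κ κ[X]))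
  have hpb : IsPullback (Spec.map (CommRingCat.ofHom (algebraMap ℂ[X] κ[X]))) cst
      (Spec.map (CommRingCat.ofHom (algebraMap ℂ ℂ[X]))) (Spec.map (CommRingCat.ofHom φ)) :=
    isPullback_SpecMap_of_isPushout _ _ _ _
      (CommRingCat.isPushout_of_isPushout ℂ ℂ[X] κ κ[X])
  let π : L ⟶ W := h.lift (cst ≫ q) (Spec.map (CommRingCat.ofHom (algebraMap ℂ[X] κ[X]))) (by
    rw [Category.assoc, ← hφ]; exact hpb.w.symm)
  have hπp : π ≫ p = cst ≫ q := h.lift_fst _ _ _
  have hπb : π ≫ b = Spec.map (CommRingCat.ofHom (algebraMap ℂ[X] κ[X])) := h.lift_snd _ _ _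
  have hsq : IsPullback π cst p q := by
    refine IsPullback.of_right (h₁₂ := b) (h₂₂ := sT)
      (v₁₃ := Spec.map (CommRingCat.ofHom (algebraMap ℂ ℂ[X]))) ?_ hπp h.flip
    rw [hπb, ← hφ]
    exact hpb
  have hπ : IsFinite π := MorphismProperty.of_isPullback hsq.flip hq
  let β : κ := ptEval b c.1 X
  let f : κ[X] := X - C β
  have hf : Prime f := prime_X_sub_C β
  let i : Spec (.of κ) ⟶ L := Spec.map (CommRingCat.ofHom (evalRingHom β))
  have hi : i ≫ cst = 𝟙 _ := by
    rw [← Spec.map_comp, ← CommRingCat.ofHom_comp, ← Spec.map_id]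
    congr 2
    ext x
    simp
  have hiπ : i ≫ π = ic := by
    apply h.hom_ext
    · rw [Category.assoc, hπp, ← Category.assoc, hi, Category.id_comp]
    · have h1 : ic ≫ b = Spec.map (CommRingCat.ofHom (ptEval b c.1)) := (spec_ptEval b c.1).symm
      rw [Category.assoc, hπb, h1, ← Spec.map_comp, ← CommRingCat.ofHom_comp]
      congr 2
      apply Polynomial.ringHom_ext
      · intro z
        have h2 := ptEval_map (algebraMap ℂ ℂ[X]) b c.1
        rw [← h.w] at h2
        have h3 : φ z = ptEval b c.1 (C z) := congrArg (fun g => g z) h2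
        rw [← h3]
        simp [RingHom.algebraMap_toAlgebra]
      · simp [Polynomial.algebraMap_def, β]
  let pt : Spec (.of κ) := IsLocalRing.closedPoint κ
  have hpt : ic pt = c.1 := Scheme.fromSpecResidueField_apply c.1 _
  let ξ : L := i pt
  have hfξ : f ∈ ξ.asIdeal := by
    change evalRingHom β f ∈ IsLocalRing.maximalIdeal κ
    have : evalRingHom β f = 0 := by simp [f]
    rw [this]
    exact Ideal.zero_mem _
  have hmem : ∀ x : L, f ∈ x.asIdeal ↔ x = ξ := by
    have hmax : (Ideal.span {f}).IsMaximal :=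
      ((Ideal.span_singleton_prime hf.ne_zero).mpr hf).isMaximal (by simpa using hf.ne_zero)
    have h1 : ∀ x : L, f ∈ x.asIdeal → Ideal.span {f} = x.asIdeal := fun x hx =>
      hmax.eq_of_le x.2.ne_top ((Ideal.span_singleton_le_iff_mem _).mpr hx)
    intro x
    constructor
    · intro hx
      exact PrimeSpectrum.ext ((h1 x hx).symm.trans (h1 ξ hfξ))
    · rintro rfl; exact hfξ
  have hξgen : ξ ≠ genericPoint L := by
    intro h0
    rw [h0, genericPoint_eq_bot_of_affine] at hfξ
    exact hf.ne_zero hfξ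
  let ξ' : ClosedPt L := ⟨ξ, (regCurve_line κ).isClosed ξ hξgen⟩
  have h1 : pushPt π ξ' = c := by
    apply Subtype.ext
    have h2 : π (i pt) = ic pt := by
      rw [← hiπ]; rfl
    exact h2.trans hpt
  have h2 : π.residueDegree ξ'.1 = 1 := by
    have : IsClosedImmersion (i ≫ π) := by rw [hiπ]; exact hic
    exact residueDegree_eq_one i π pt
  apply AddSubgroup.subset_closure
  refine ⟨L, inferInstance, inferInstance, π, hπ,
    L.germToFunctionField ⊤ (secEval (𝟙 _) ⊤ f), Finsupp.single ξ' 1, regCurve_line κ,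
    ?_, ?_, ?_⟩
  · intro h0
    have h1 := L.germToFunctionField_injective ⊤ (h0.trans (map_zero _).symm)
    have h2 := (secEval_id_top_bijective κ[X]).1 (h1.trans (map_zero _).symm)
    exact hf.ne_zero h2
  · intro c'
    have h1 := ord_line κ f hf c'.1
    rw [hmem c'.1] at h1
    refine Eq.trans ?_ h1.symm
    by_cases hc' : c'.1 = ξ
    · have h2 : c' = ξ' := Subtype.ext hc'
      rw [if_pos hc', h2, Finsupp.single_eq_same]
    · rw [if_neg hc', Finsupp.single_eq_of_ne]
      intro h2
      exact hc' (congrArg Subtype.val h2)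
  · rw [pushforward_single, h1, h2]
    simp

end Pool.Agent.Helper395
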