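import Pool.Agent.Helper395.ClaimB

open AlgebraicGeometry CategoryTheory CategoryTheory.Limits Polynomial TensorProduct

set_option linter.style.haveILetI false

namespace Pool.Agent.Helper395

section

variable {A : Type} [CommRing A] [Algebra ℂ A] (F : Type) [Field F] [Algebra ℂ F]

/-- The structure morphism of the affine scheme of a `ℂ`-algebra. -/
noncomputable abbrev str (A : Type) [CommRing A] [Algebra ℂ A] : Spec (.of A) ⟶ Spec (.of ℂ) :=
  Spec.map (CommRingCat.ofHom (algebraMap ℂ A))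

/-- The inclusion of the base change of an open subscheme of `Spec A`. -/
noncomputable def jmap (U : (Spec (.of A)).Opens) :
    baseChange (U.ι ≫ str A) F ⟶ Spec (.of (A ⊗[ℂ] F)) :=
  baseChangeMap U.ι (str A) F ≫ (pullbackSpecIso ℂ A F).hom

instance (U : (Spec (.of A)).Opens) : IsOpenImmersion (jmap F U) := by
  have : IsOpenImmersion (baseChangeMap U.ι (str A) F) :=
    MorphismProperty.of_isPullback (isPullback_baseChangeMap U.ι (str A) F).flip inferInstance
  rw [jmap]
  infer_instance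

theorem jmap_fst (U : (Spec (.of A)).Opens) :
    jmap F U ≫ Spec.map (CommRingCat.ofHom (Algebra.TensorProduct.includeLeftRingHom :
      A →+* A ⊗[ℂ] F)) = pullback.fst _ _ ≫ U.ι := by
  rw [jmap, Category.assoc, pullbackSpecIso_hom_fst, baseChangeMap_fst]

theorem jmap_snd (U : (Spec (.of A)).Opens) :
    jmap F U ≫ Spec.map (CommRingCat.ofHom (Algebra.TensorProduct.includeRight :
      F →ₐ[ℂ] A ⊗[ℂ] F).toRingHom) = pullback.snd _ _ := by
  rw [jmap, Category.assoc, ← baseChangeMap_snd, ← pullbackSpecIso_hom_snd ℂ A F]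
  rfl

theorem le_opensRange_jmap (U : (Spec (.of A)).Opens) (ψ : A)
    (hψ : PrimeSpectrum.basicOpen ψ ≤ U) :
    PrimeSpectrum.basicOpen (Algebra.TensorProduct.includeLeftRingHom ψ : A ⊗[ℂ] F) ≤
      (jmap F U).opensRange := by
  intro x hx
  let x' := (pullbackSpecIso ℂ A F).inv x
  have hx' : (pullbackSpecIso ℂ A F).hom x' = x := by
    change ((pullbackSpecIso ℂ A F).inv ≫ (pullbackSpecIso ℂ A F).hom) x = x
    rw [Iso.inv_hom_id]; rfl
  have h1 : pullback.fst (str A) (Spec.map (CommRingCat.ofHom (algebraMap ℂ F))) x' ∈ U := by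
    apply hψ
    have h2 : pullback.fst (str A) (Spec.map (CommRingCat.ofHom (algebraMap ℂ F))) x' =
        Spec.map (CommRingCat.ofHom (Algebra.TensorProduct.includeLeftRingHom :
          A →+* A ⊗[ℂ] F)) x := by
      rw [← pullbackSpecIso_inv_fst]; rfl
    rw [h2]
    exact hx
  have hpb := isPullback_baseChangeMap U.ι (str A) F
  obtain ⟨z, hz1, hz2⟩ := Scheme.Pullback.exists_preimage_pullback
    (f := pullback.fst (str A) (Spec.map (CommRingCat.ofHom (algebraMap ℂ F)))) (g := U.ι)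
    x' (⟨_, h1⟩ : U) rfl
  refine ⟨hpb.isoPullback.inv z, ?_⟩
  rw [jmap]
  change (hpb.isoPullback.inv ≫ baseChangeMap U.ι (str A) F ≫ (pullbackSpecIso ℂ A F).hom) z = x
  rw [hpb.isoPullback_inv_fst_assoc]
  exact (congrArg (pullbackSpecIso ℂ A F).hom hz1).trans hx'

theorem tensor_mem_closure (x : A ⊗[ℂ] F) :
    x ∈ Subring.closure (Set.range (Algebra.TensorProduct.includeLeftRingHom : A →+* A ⊗[ℂ] F) ∪
      Set.range (Algebra.TensorProduct.includeRight : F →ₐ[ℂ] A ⊗[ℂ] F).toRingHom) := by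
  induction x using TensorProduct.induction_on with
  | zero => exact Subring.zero_mem _
  | tmul a f =>
    have : (a ⊗ₜ f : A ⊗[ℂ] F) = (Algebra.TensorProduct.includeLeftRingHom : A →+* A ⊗[ℂ] F) a *
        (Algebra.TensorProduct.includeRight : F →ₐ[ℂ] A ⊗[ℂ] F).toRingHom f := by
      simp
    rw [this]
    exact Subring.mul_mem _ (Subring.subset_closure (Or.inl ⟨a, rfl⟩))
      (Subring.subset_closure (Or.inr ⟨f, rfl⟩))
  | add x y hx hy => exact Subring.add_mem _ hx hy

/-- Values of the functional on cycles rationally equivalent to zero. -/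
theorem isSquare_phi_of_mem_Rat (G : ℂ[X]) (hG : G ≠ 0) (hXG : X ∣ G) (t r ψ χ : A)
    (S : Set A) (hgen : ∀ x : A, ∃ p ∈ Algebra.adjoin ℂ ({t, r} : Set A), x - p ∈ Ideal.span S)
    (htr : t ^ 2 - r ^ 2 * t = 1) (hψ : ψ * χ - aeval t G ∈ Ideal.span S)
    (hsq : SquareProperty t S) (U : (Spec (.of A)).Opens)
    (hψU : PrimeSpectrum.basicOpen ψ ≤ U)
    (z : ZeroCycle (baseChange (U.ι ≫ str A) F)) (hz : z ∈ Rat (baseChange (U.ι ≫ str A) F)) :
    IsSquare (phi (pullback.fst _ _ ≫ U.ι) (pullback.snd _ _) t (ψ * aeval t G) S z) := by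
  rw [← jmap_fst, ← jmap_snd]
  induction hz using AddSubgroup.closure_induction with
  | mem ξ hξ =>
    obtain ⟨C, hC1, hC2, π, hπ, h, z, hreg, hh, hz, rfl⟩ := hξ
    refine claimA G hG hXG t r ψ χ S hgen htr hψ hsq _ _ ?_ (tensor_mem_closure F) (jmap F U)
      (le_opensRange_jmap F U ψ hψU) hreg π h hh z hz
    ext c
    change algebraMap ℂ A c ⊗ₜ[ℂ] (1 : F) = (1 : A) ⊗ₜ[ℂ] algebraMap ℂ F c
    rw [Algebra.algebraMap_eq_smul_one, Algebra.algebraMap_eq_smul_one,
      TensorProduct.smul_tmul]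
  | zero => rw [phi_zero]; exact IsSquare.one
  | add x y _ _ hx hy => rw [phi_add]; exact hx.mul hy
  | neg x _ hx => rw [phi_neg]; exact hx.inv

variable {F}

theorem surjective_of_isClosedImmersion_SpecMap {R R' : CommRingCat.{0}} (φ : R ⟶ R')
    [IsClosedImmersion (Spec.map φ)] : Function.Surjective φ.hom := by
  have h1 := (IsClosedImmersion.isAffine_surjective_of_isAffine (Spec.map φ)).2
  have h2 : φ = (Scheme.ΓSpecIso R).inv ≫ (Spec.map φ).appTop ≫ (Scheme.ΓSpecIso R').hom := by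
    rw [Scheme.ΓSpecIso_naturality, Iso.inv_hom_id_assoc]
  intro y
  obtain ⟨x, hx⟩ := h1 ((Scheme.ΓSpecIso R').inv y)
  refine ⟨(Scheme.ΓSpecIso R).hom x, ?_⟩
  have h3 := congrArg (fun f => f.hom x) (Scheme.ΓSpecIso_naturality φ)
  have h4 : (Scheme.ΓSpecIso R').hom ((Spec.map φ).appTop x) = φ ((Scheme.ΓSpecIso R).hom x) := h3
  change φ ((Scheme.ΓSpecIso R).hom x) = y
  rw [← h4, hx]
  exact congrArg (fun f => f.hom y) (Scheme.ΓSpecIso R').inv_hom_id

/-- The main obstruction. -/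
theorem not_propertyU (t r : A) (S : Set A) (hS : S.Finite)
    (hgen : ∀ x : A, ∃ p ∈ Algebra.adjoin ℂ ({t, r} : Set A), x - p ∈ Ideal.span S)
    (htr : t ^ 2 - r ^ 2 * t = 1) (hsq : SquareProperty t S)
    (hnd : ∀ (𝔭 : Ideal A) (x : A), 𝔭.IsPrime → x ∉ 𝔭 → ¬ ∀ j ∈ S, x * j = 0)
    (ε : A →+* F) (hεC : ε.comp (algebraMap ℂ A) = algebraMap ℂ F) (hεS : ∀ j ∈ S, ε j = 0)
    (hεt : ¬ IsSquare (ε t))
    (hG : ∀ ψ : A, ε ψ ≠ 0 → ∃ (χ : A) (G : ℂ[X]), G ≠ 0 ∧ X ∣ G ∧ ε (aeval t G) ≠ 0 ∧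
      ψ * χ - aeval t G ∈ Ideal.span S)
    (y : Spec (.of A)) (hy : RingHom.ker ε ≤ y.asIdeal) :
    ¬ PropertyU (str A) y := by
  rintro ⟨U, hyU, V, f, hf, hsm, hbir, hCH⟩
  obtain ⟨_, ⟨ψ, rfl⟩, hyψ, hψU⟩ :=
    PrimeSpectrum.isTopologicalBasis_basic_opens.exists_subset_of_mem_open hyU U.2
  have hψ0 : ε ψ ≠ 0 := fun h => hyψ (hy h)
  obtain ⟨χ, G, hG0, hXG, hεG, hψG⟩ := hG ψ hψ0
  let b := ψ * aeval t G
  have hεb : ε b ≠ 0 := by
    rw [map_mul]; exact mul_ne_zero hψ0 hεG
  have htu : t * (t - r ^ 2) = 1 := by linear_combination htr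
  have hεt0 : ε t ≠ 0 := by
    intro h0
    have h1 := congrArg ε htu
    rw [map_mul, h0, zero_mul, map_one] at h1
    exact zero_ne_one h1
  let W := baseChange (U.ι ≫ str A) F
  let a : W ⟶ Spec (.of A) := pullback.fst _ _ ≫ U.ι
  let s : W ⟶ Spec (.of F) := pullback.snd _ _
  -- the section
  let pt : Spec (.of F) := IsLocalRing.closedPoint F
  have hrange : Set.range (Spec.map (CommRingCat.ofHom ε)) ⊆ Set.range U.ι := by
    rintro _ ⟨x, rfl⟩
    rw [Scheme.Opens.range_ι]
    apply hψU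
    change ¬ (ε ψ ∈ x.asIdeal)
    rw [Ideal.eq_bot_of_prime x.asIdeal (h := x.2)]
    exact hψ0
  let g : Spec (.of F) ⟶ U := IsOpenImmersion.lift U.ι (Spec.map (CommRingCat.ofHom ε)) hrange
  have hg : g ≫ U.ι = Spec.map (CommRingCat.ofHom ε) := IsOpenImmersion.lift_fac _ _ _
  let σ : Spec (.of F) ⟶ W := pullback.lift g (𝟙 _) (by
    rw [← Category.assoc, hg, Category.id_comp, ← Spec.map_comp, ← CommRingCat.ofHom_comp, hεC])
  have hσ1 : σ ≫ a = Spec.map (CommRingCat.ofHom ε) := by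
    rw [← hg, ← Category.assoc]
    congr 1
    exact pullback.lift_fst _ _ _
  have hσ2 : σ ≫ s = 𝟙 _ := pullback.lift_snd _ _ _
  have hsub : Subsingleton (Spec (.of F) : Scheme.{0}) :=
    inferInstanceAs (Subsingleton (PrimeSpectrum F))
  have hσ : IsClosedImmersion σ := isClosedImmersion_of_comp_eq_id s σ hσ2
  let η : ClosedPt W := ⟨σ pt, by
    have h1 : ({σ pt} : Set W) = Set.range σ := by
      ext w
      constructor
      · rintro rfl; exact ⟨pt, rfl⟩
      · rintro ⟨x, rfl⟩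
        rw [Subsingleton.elim x pt]; rfl
    rw [h1]
    exact σ.isClosedEmbedding.isClosed_range⟩
  -- the value at the section
  have hval : ¬ IsSquare (locFactor a s t b S η.1) := by
    intro hcon
    have h1 : IsSquare (locFactor (σ ≫ a) (σ ≫ s) t b S pt) := by
      rw [locFactor_comp]; exact hcon.pow _
    rw [hσ1, hσ2] at h1
    have h2 : ptEval (Spec.map (CommRingCat.ofHom ε)) pt =
        (ptEval (𝟙 (Spec (.of F))) pt).comp ε := by
      have := ptEval_map ε (𝟙 (Spec (.of F))) pt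
      rwa [Category.id_comp] at this
    have hptc : IsClosed ({pt} : Set (Spec (.of F) : Scheme.{0})) := by
      have : ({pt} : Set (Spec (.of F) : Scheme.{0})) = Set.univ :=
        Set.eq_univ_of_forall fun x => Subsingleton.elim x pt
      rw [this]; exact isClosed_univ
    have h3 : Function.Bijective (ptEval (𝟙 (Spec (.of F))) pt) := by
      refine ⟨RingHom.injective _, ?_⟩
      have h4 := isClosed_singleton_iff_isClosedImmersion.mp hptc
      have h5 : Spec.map (CommRingCat.ofHom (ptEval (𝟙 (Spec (.of F))) pt)) =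
          (Spec (.of F)).fromSpecResidueField pt := by
        rw [spec_ptEval, Category.comp_id]
      have h6 : IsClosedImmersion
          (Spec.map (CommRingCat.ofHom (ptEval (𝟙 (Spec (.of F))) pt))) := by
        rw [h5]; exact h4
      exact surjective_of_isClosedImmersion_SpecMap
        (CommRingCat.ofHom (ptEval (𝟙 (Spec (.of F))) pt))
    have hinj := h3.1
    have h7 : (locFactor (Spec.map (CommRingCat.ofHom ε)) (𝟙 _) t b S pt : F) = ε t := by
      rw [locFactor_of_pos, h2]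
      · exact fieldNorm_id _ h3 _
      · intro j hj
        rw [h2, RingHom.comp_apply, hεS j hj, map_zero]
      · rw [h2, RingHom.comp_apply]
        exact (map_ne_zero_iff _ hinj).mpr hεb
      · rw [h2, RingHom.comp_apply]
        exact (map_ne_zero_iff _ hinj).mpr hεt0
    obtain ⟨v, hv⟩ := h1
    apply hεt
    rw [← h7, hv]
    exact ⟨v, Units.val_mul v v⟩
  -- contradiction
  apply hval
  obtain ⟨z, hz⟩ := (hCH F).2 (Finsupp.single η 1)
  have h1 := isSquare_phi_of_mem_Rat F G hG0 hXG t r ψ χ S hgen htr hψG hsq U hψU _ hz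
  have h2 : IsSquare (phi a s t b S (pushforward (baseChangeMap f (U.ι ≫ str A) F) z)) := by
    rw [phi_pushforward]
    apply isSquare_phi_of_locFactor
    intro c _
    have e1 : baseChangeMap f (U.ι ≫ str A) F ≫ a = pullback.fst _ _ ≫ f ≫ U.ι := by
      have h3 := congrArg (· ≫ U.ι) (baseChangeMap_fst f (U.ι ≫ str A) F)
      simp only [Category.assoc] at h3
      exact h3
    have e2 : baseChangeMap f (U.ι ≫ str A) F ≫ s = pullback.snd _ _ := baseChangeMap_snd _ _ _
    rw [e1, e2]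
    have : Flat (Spec.map (CommRingCat.ofHom (algebraMap ℂ F))) := by
      rw [HasRingHomProperty.Spec_iff (P := @Flat)]
      exact RingHom.flat_algebraMap_iff.mpr inferInstance
    exact claimB S hS hnd t b hsq U f hbir (pullback.fst _ _) (pullback.snd _ _) c.1
  have h3 := h1.mul h2
  rw [← phi_add, sub_add_cancel, phi_single, zpow_one] at h3
  exact h3

end

end Pool.Agent.Helper395
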