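import Pool.Agent.Helper395.Defs

open AlgebraicGeometry CategoryTheory CategoryTheory.Limits

set_option linter.style.haveILetI false

namespace Pool.Agent.Helper395

/-- Norm along a homomorphism of fields. -/
noncomputable def fieldNorm {F K : Type*} [Field F] [Field K] (i : F →+* K) (x : K) : F :=
  letI := i.toAlgebra
  Algebra.norm F x

theorem fieldNorm_ne_zero {F K : Type*} [Field F] [Field K] (i : F →+* K) {x : K} (hx : x ≠ 0) :
    fieldNorm i x ≠ 0 := by
  letI := i.toAlgebra
  exact ((IsUnit.mk0 x hx).map (Algebra.norm F : K →* F)).ne_zero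

theorem isSquare_fieldNorm {F K : Type*} [Field F] [Field K] (i : F →+* K) {x : K}
    (hx : IsSquare x) : IsSquare (fieldNorm i x) := by
  letI := i.toAlgebra
  exact hx.map (Algebra.norm F : K →* F)

theorem fieldNorm_comp {F K K' : Type*} [Field F] [Field K] [Field K'] (i : F →+* K)
    (e : K →+* K') (x : K) :
    fieldNorm (e.comp i) (e x) =
      fieldNorm i x ^ (letI := e.toAlgebra; Module.finrank K K') := by
  letI := i.toAlgebra
  letI := e.toAlgebra
  letI : Algebra F K' := (e.comp i).toAlgebra
  haveI : IsScalarTower F K K' := IsScalarTower.of_algebraMap_eq fun _ => rfl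
  change Algebra.norm F (algebraMap K K' x) = (Algebra.norm F x) ^ Module.finrank K K'
  rw [← Algebra.norm_norm (S := K), Algebra.norm_algebraMap, map_pow]

theorem fieldNorm_id {F K : Type*} [Field F] [Field K] (i : F →+* K) (hi : Function.Bijective i)
    (x : F) : fieldNorm i (i x) = x := by
  letI := i.toAlgebra
  change Algebra.norm F (algebraMap F K x) = x
  rw [Algebra.norm_algebraMap]
  have : Module.finrank F K = 1 := by
    have e : F ≃ₐ[F] K := AlgEquiv.ofBijective (Algebra.ofId F K) hi
    rw [← e.toLinearEquiv.finrank_eq, Module.finrank_self]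
  rw [this, pow_one]

section

variable {A : Type} [CommRing A] {W W' : Scheme.{0}}

/-- The homomorphism from `A` to the local ring at `w` given by a morphism to `Spec A`. -/
noncomputable def stalkEval (a : W ⟶ Spec (.of A)) (w : W) : A →+* W.presheaf.stalk w :=
  (Spec.preimage (W.fromSpecStalk w ≫ a)).hom

/-- The homomorphism from `A` to the residue field at `w` given by a morphism to `Spec A`. -/
noncomputable def ptEval (a : W ⟶ Spec (.of A)) (w : W) : A →+* W.residueField w :=
  (W.residue w).hom.comp (stalkEval a w)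

theorem stalkEval_naturality (g : W' ⟶ W) (a : W ⟶ Spec (.of A)) (w : W') :
    ((g.stalkMap w).hom).comp (stalkEval a (g w)) = stalkEval (g ≫ a) w := by
  have : Spec.preimage (W.fromSpecStalk (g w) ≫ a) ≫ g.stalkMap w =
      Spec.preimage (W'.fromSpecStalk w ≫ g ≫ a) := by
    apply Spec.map_injective
    rw [Spec.map_comp, Spec.map_preimage, Spec.map_preimage,
      Scheme.SpecMap_stalkMap_fromSpecStalk_assoc]
  exact congrArg CommRingCat.Hom.hom this

theorem ptEval_naturality (g : W' ⟶ W) (a : W ⟶ Spec (.of A)) (w : W') :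
    ((g.residueFieldMap w).hom).comp (ptEval a (g w)) = ptEval (g ≫ a) w := by
  ext x
  simp only [ptEval, RingHom.comp_apply]
  rw [← stalkEval_naturality]
  have := Scheme.residue_residueFieldMap g w
  exact congrArg (fun h => h.hom (stalkEval a (g w) x)) this

theorem spec_ptEval (a : W ⟶ Spec (.of A)) (w : W) :
    Spec.map (CommRingCat.ofHom (ptEval a w)) = W.fromSpecResidueField w ≫ a := by
  have : CommRingCat.ofHom (ptEval a w) = Spec.preimage (W.fromSpecStalk w ≫ a) ≫ W.residue w :=
    rfl
  rw [this, Spec.map_comp, Spec.map_preimage, Scheme.fromSpecResidueField, Category.assoc]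

theorem ptEval_map {B : Type} [CommRing B] (φ : B →+* A) (a : W ⟶ Spec (.of A)) (w : W) :
    ptEval (a ≫ Spec.map (CommRingCat.ofHom φ)) w = (ptEval a w).comp φ := by
  have : CommRingCat.ofHom (ptEval (a ≫ Spec.map (CommRingCat.ofHom φ)) w) =
      CommRingCat.ofHom ((ptEval a w).comp φ) := by
    apply Spec.map_injective
    rw [spec_ptEval, CommRingCat.ofHom_comp, Spec.map_comp, spec_ptEval, Category.assoc]
  exact congrArg CommRingCat.Hom.hom this

theorem stalkEval_map {B : Type} [CommRing B] (φ : B →+* A) (a : W ⟶ Spec (.of A)) (w : W) :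
    stalkEval (a ≫ Spec.map (CommRingCat.ofHom φ)) w = (stalkEval a w).comp φ := by
  have : CommRingCat.ofHom (stalkEval (a ≫ Spec.map (CommRingCat.ofHom φ)) w) =
      CommRingCat.ofHom ((stalkEval a w).comp φ) := by
    apply Spec.map_injective
    change Spec.map (Spec.preimage _) = _
    rw [Spec.map_preimage, CommRingCat.ofHom_comp, Spec.map_comp]
    change _ = Spec.map (Spec.preimage _) ≫ _
    rw [Spec.map_preimage, Category.assoc]
  exact congrArg CommRingCat.Hom.hom this

/-- The homomorphism from `A` to the sections over `U` given by a morphism to `Spec A`. -/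
noncomputable def secEval (a : W ⟶ Spec (.of A)) (U : W.Opens) : A →+* Γ(W, U) :=
  ((Scheme.ΓSpecIso (.of A)).inv ≫ a.appLE ⊤ U le_top).hom

theorem germ_secEval (a : W ⟶ Spec (.of A)) (U : W.Opens) (w : W) (hw : w ∈ U) :
    (W.presheaf.germ U w hw).hom.comp (secEval a U) = stalkEval a w := by
  have : (Scheme.ΓSpecIso (.of A)).inv ≫ a.appLE ⊤ U le_top ≫ W.presheaf.germ U w hw =
      Spec.preimage (W.fromSpecStalk w ≫ a) := by
    apply Spec.map_injective
    have h1 : a = W.toSpecΓ ≫ Spec.map ((Scheme.ΓSpecIso (.of A)).inv ≫ a.appTop) := by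
      rw [Spec.map_comp, ← Scheme.toSpecΓ_naturality_assoc, ← SpecMap_ΓSpecIso_hom,
        ← Spec.map_comp, Iso.inv_hom_id, Spec.map_id, Category.comp_id]
    have h2 : a.appLE ⊤ U le_top ≫ W.presheaf.germ U w hw =
        a.appTop ≫ W.presheaf.germ ⊤ w trivial := by
      simp only [Scheme.Hom.appLE, Category.assoc]
      erw [W.presheaf.germ_res]
      rfl
    rw [Spec.map_preimage, h2]
    conv_rhs => rw [h1]
    rw [Scheme.fromSpecStalk_toSpecΓ_assoc, ← Spec.map_comp, Category.assoc]
  exact congrArg CommRingCat.Hom.hom this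

theorem evaluation_secEval (a : W ⟶ Spec (.of A)) (U : W.Opens) (w : W) (hw : w ∈ U) :
    (W.evaluation U w hw).hom.comp (secEval a U) = ptEval a w := by
  rw [ptEval, ← germ_secEval a U w hw]
  rfl

end

end Pool.Agent.Helper395
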