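import Pool.Agent.Helper395.NotU
import Pool.Agent.Helper395.GermDefs

open AlgebraicGeometry CategoryTheory CategoryTheory.Limits

set_option linter.style.haveILetI false

namespace Pool.Agent.Helper395

theorem secEval_id_top_bijective (A : Type) [CommRing A] :
    Function.Bijective (secEval (𝟙 (Spec (.of A))) ⊤) := by
  have h8 : (𝟙 (Spec (.of A)) : Spec (.of A) ⟶ Spec (.of A)).appLE ⊤ ⊤ le_top = 𝟙 _ := by
    simp [Scheme.Hom.appLE]
  have h9 : (Scheme.ΓSpecIso (.of A)).inv ≫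
      (𝟙 (Spec (.of A)) : Spec (.of A) ⟶ Spec (.of A)).appLE ⊤ ⊤ le_top =
      (Scheme.ΓSpecIso (.of A)).inv := by rw [h8]; exact Category.comp_id _
  change Function.Bijective ((Scheme.ΓSpecIso (.of A)).inv ≫
    (𝟙 (Spec (.of A)) : Spec (.of A) ⟶ Spec (.of A)).appLE ⊤ ⊤ le_top).hom
  rw [h9]
  exact ConcreteCategory.bijective_of_isIso (Scheme.ΓSpecIso (.of A)).inv

variable {n : ℕ} (I : Ideal (MvPolynomial (Fin n) ℂ))

/-- The tautological presentation of the spectrum of a quotient of a polynomial ring. -/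
noncomputable def tautPresentation (x : Spec (.of (MvPolynomial (Fin n) ℂ ⧸ I)))
    (hx : ∀ i, Ideal.Quotient.mk I (MvPolynomial.X i) ∈ x.asIdeal) :
    LocalPresentation (str (MvPolynomial (Fin n) ℂ ⧸ I)) x n where
  I := I
  j := 𝟙 (Spec (.of (MvPolynomial (Fin n) ℂ ⧸ I)))
  isOpenImmersion := inferInstanceAs (IsOpenImmersion (𝟙 (Spec (.of (MvPolynomial (Fin n) ℂ ⧸ I)))))
  comp_str := Category.id_comp (str (MvPolynomial (Fin n) ℂ ⧸ I))
  pt := x
  isOrigin := hx
  map_pt := rfl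

end Pool.Agent.Helper395
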