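import Pool.Agent.Helper395.Line

open AlgebraicGeometry CategoryTheory CategoryTheory.Limits Polynomial

set_option linter.style.haveILetI false

namespace Pool.Agent.Helper395

/-- The zero-cycles on the base changes of a product with the affine line. -/
theorem rat_baseChange_eq_top {Z Y : Scheme.{0}} (sZ : Z ⟶ Spec (.of ℂ)) [IsSeparated sZ]
    [LocallyOfFiniteType sZ] (p : Y ⟶ Z) (b : Y ⟶ Spec (.of ℂ[X]))
    (h : IsPullback p b sZ (str ℂ[X])) (F : Type) [Field F] [Algebra ℂ F] :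
    Rat (baseChange (p ≫ sZ) F) = ⊤ := by
  have h1 := (isPullback_baseChangeMap p sZ F).paste_vert h
  exact rat_eq_top (pullback.snd sZ (Spec.map (CommRingCat.ofHom (algebraMap ℂ F)))) _ _ _ h1

theorem inducesCH0Iso_of_eq_top {X Y : Scheme.{0}} (f : X ⟶ Y) [UniversallyClosed f]
    (hX : Rat X = ⊤) (hY : Rat Y = ⊤) : InducesCH0Iso f := by
  rw [InducesCH0Iso, hX, hY]
  exact ⟨fun z => by simp, fun w => ⟨0, AddSubgroup.mem_top _⟩⟩

instance smooth_str_polynomial : Smooth (str ℂ[X]) := by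
  rw [HasRingHomProperty.Spec_iff (P := @Smooth)]
  exact RingHom.smooth_algebraMap.mpr (⟨inferInstance, inferInstance⟩ : Algebra.Smooth ℂ ℂ[X])

/-- Resolutions of products with the affine line. -/
theorem hasResolution_of_product {S T Y : Scheme.{0}} (sS : S ⟶ Spec (.of ℂ)) [IsSeparated sS]
    [LocallyOfFiniteType sS] (f : T ⟶ S) [IsProper f] (hsm : Smooth (f ≫ sS))
    (hbir : IsBirationalMorphism f) (p : Y ⟶ S) (b : Y ⟶ Spec (.of ℂ[X]))
    (h : IsPullback p b sS (str ℂ[X])) : HasCH0TrivialResolution (p ≫ sS) := by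
  have hp : Smooth p := MorphismProperty.of_isPullback h.flip smooth_str_polynomial
  have hcond : pullback.snd f p ≫ p ≫ sS = pullback.fst f p ≫ f ≫ sS := by
    rw [← Category.assoc, ← pullback.condition, Category.assoc]
  refine ⟨pullback f p, pullback.snd f p, inferInstance, ?_, ?_, ?_⟩
  · rw [hcond]
    infer_instance
  · obtain ⟨V₀, hV₀, hV₀', hiso⟩ := hbir
    have hopen : IsOpenMap p := p.isOpenMap
    have hopen' : IsOpenMap (pullback.fst f p) := (pullback.fst f p).isOpenMap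
    refine ⟨p ⁻¹ᵁ V₀, hV₀.preimage hopen, ?_, ?_⟩
    · let Z : Scheme.{0} := pullback f p
      have h1 : ((pullback.snd f p ⁻¹ᵁ (p ⁻¹ᵁ V₀) : Z.Opens) : Set Z) =
          (pullback.fst f p) ⁻¹' ((f ⁻¹ᵁ V₀ : T.Opens) : Set T) := by
        have h2 : (pullback.snd f p ≫ p) ⁻¹ᵁ V₀ = (pullback.fst f p ≫ f) ⁻¹ᵁ V₀ := by
          rw [pullback.condition]
        exact congrArg (fun V : Z.Opens => (V : Set Z)) h2
      rw [h1]
      exact hV₀'.preimage hopen'
    · have P1 := isPullback_morphismRestrict (pullback.snd f p) (p ⁻¹ᵁ V₀)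
      have P2 := IsPullback.of_hasPullback f p
      have P3 := isPullback_morphismRestrict f V₀
      have P4 := P1.flip.paste_horiz P2
      have e1 : p ∣_ V₀ ≫ V₀.ι = (p ⁻¹ᵁ V₀).ι ≫ p := morphismRestrict_ι p V₀
      have e2 : ((pullback.snd f p ⁻¹ᵁ (p ⁻¹ᵁ V₀)).ι ≫ pullback.fst f p) ≫ f =
          ((pullback.snd f p ∣_ (p ⁻¹ᵁ V₀)) ≫ (p ∣_ V₀)) ≫ V₀.ι := by
        rw [P4.w, Category.assoc, e1]
      have P5 := IsPullback.of_right (h₁₁ := P3.flip.lift _ _ e2) (h₂₁ := p ∣_ V₀) (by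
        rw [P3.flip.lift_fst, e1]
        exact P4) (P3.flip.lift_snd _ _ e2) P3.flip
      exact MorphismProperty.of_isPullback (P := MorphismProperty.isomorphisms _) P5 hiso
  · intro F _ _
    apply inducesCH0Iso_of_eq_top
    · have e := rat_baseChange_eq_top (f ≫ sS) (pullback.fst f p) (pullback.snd f p ≫ b)
        ((IsPullback.of_hasPullback f p).paste_vert h) F
      rw [← hcond] at e
      exact e
    · exact rat_baseChange_eq_top sS p b h F

end Pool.Agent.Helper395
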