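import Pool.Agent.Helper395.ResolS

open AlgebraicGeometry CategoryTheory CategoryTheory.Limits

set_option linter.style.haveILetI false

namespace Pool.Agent.Helper395

/-- The inverse of `q'` on the overlap. -/
noncomputable def qinv : B12 := IsLocalization.Away.invSelf (MvPolynomial.X 0 : A1)

theorem q_mul_qinv : algebraMap A1 B12 (MvPolynomial.X 0) * qinv = 1 :=
  IsLocalization.Away.mul_invSelf _

theorem relU : (Ideal.Quotient.mk (Ideal.span {eqU}) (MvPolynomial.X 2)) ^ 2 -
    ((Ideal.Quotient.mk (Ideal.span {eqU}) (MvPolynomial.X 0)) ^ 2 - 1) ^ 2 -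
    (Ideal.Quotient.mk (Ideal.span {eqU}) (MvPolynomial.X 0)) ^ 5 *
      Ideal.Quotient.mk (Ideal.span {eqU}) (MvPolynomial.X 1) = 0 := by
  have hrel : Ideal.Quotient.mk (Ideal.span {eqU}) eqU = 0 :=
    Ideal.Quotient.eq_zero_iff_mem.mpr (Ideal.mem_span_singleton_self _)
  have hrel' := hrel
  conv at hrel' =>
    lhs
    arg 2
    rw [eqU]
  simpa only [map_sub, map_mul, map_pow, map_one] using hrel'

theorem exists_iota2 : ∃ ι : A2 →ₐ[ℂ] B12,
    ι (Ideal.Quotient.mk _ (MvPolynomial.X 0)) = qinv ∧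
    ι (Ideal.Quotient.mk _ (MvPolynomial.X 1)) = algebraMap A1 B12 (MvPolynomial.X 0 * P1) ∧
    ι (Ideal.Quotient.mk _ (MvPolynomial.X 2)) =
      algebraMap A1 B12 (MvPolynomial.X 1) * qinv ^ 2 := by
  obtain ⟨ψ, hψ⟩ := exists_lift_quot eqU
    (![qinv, algebraMap A1 B12 (MvPolynomial.X 0 * P1),
      algebraMap A1 B12 (MvPolynomial.X 1) * qinv ^ 2] : Fin 3 → B12) (by
      have h := q_mul_qinv
      simp only [eqU, P1, map_sub, map_mul, map_pow, map_one, MvPolynomial.aeval_X,
        Matrix.cons_val_zero, Matrix.cons_val_one, Matrix.cons_val]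
      generalize qinv = s at *
      generalize algebraMap A1 B12 (MvPolynomial.X 0) = q at *
      generalize algebraMap A1 B12 (MvPolynomial.X 1) = w at *
      have h2 : s ^ 5 * (q * (w ^ 2 - (1 - q ^ 2) ^ 2)) = s ^ 4 * (w ^ 2 - (1 - q ^ 2) ^ 2) := by
        linear_combination s ^ 4 * (w ^ 2 - (1 - q ^ 2) ^ 2) * h
      rw [h2]
      have h3 : s ^ 4 * (1 - q ^ 2) ^ 2 = (s ^ 2 - 1) ^ 2 := by
        have h4 : s ^ 2 * (1 - q ^ 2) = s ^ 2 - 1 := by
          linear_combination (-1 - q * s) * h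
        calc s ^ 4 * (1 - q ^ 2) ^ 2 = (s ^ 2 * (1 - q ^ 2)) ^ 2 := by ring
          _ = _ := by rw [h4]
      linear_combination h3)
  exact ⟨ψ, hψ 0, hψ 1, hψ 2⟩

/-- The map `ρ₁`. -/
noncomputable def rho1 : OS →ₐ[ℂ] A1 := exists_rho1.choose

theorem rho1_p : rho1 (Ideal.Quotient.mk _ (MvPolynomial.X 0)) = P1 :=
  exists_rho1.choose_spec.1

theorem rho1_q : rho1 (Ideal.Quotient.mk _ (MvPolynomial.X 1)) = MvPolynomial.X 0 * P1 :=
  exists_rho1.choose_spec.2.1

theorem rho1_w : rho1 (Ideal.Quotient.mk _ (MvPolynomial.X 2)) = MvPolynomial.X 1 * P1 ^ 2 :=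
  exists_rho1.choose_spec.2.2

/-- The map `ρ₂`. -/
noncomputable def rho2 : OS →ₐ[ℂ] A2 := exists_rho2.choose

theorem rho2_p : rho2 (Ideal.Quotient.mk _ (MvPolynomial.X 0)) =
      Ideal.Quotient.mk _ (MvPolynomial.X 0) * Ideal.Quotient.mk _ (MvPolynomial.X 1) :=
  exists_rho2.choose_spec.1

theorem rho2_q : rho2 (Ideal.Quotient.mk _ (MvPolynomial.X 1)) =
    Ideal.Quotient.mk _ (MvPolynomial.X 1) :=
  exists_rho2.choose_spec.2.1

theorem rho2_w : rho2 (Ideal.Quotient.mk _ (MvPolynomial.X 2)) =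
      Ideal.Quotient.mk _ (MvPolynomial.X 2) * Ideal.Quotient.mk _ (MvPolynomial.X 1) ^ 2 :=
  exists_rho2.choose_spec.2.2

/-- The inclusion of the first chart ring. -/
noncomputable def iota1 : A1 →ₐ[ℂ] B12 := IsScalarTower.toAlgHom ℂ A1 B12

/-- The inclusion of the second chart ring. -/
noncomputable def iota2 : A2 →ₐ[ℂ] B12 := exists_iota2.choose

theorem iota2_p : iota2 (Ideal.Quotient.mk _ (MvPolynomial.X 0)) = qinv :=
  exists_iota2.choose_spec.1

theorem iota2_q : iota2 (Ideal.Quotient.mk _ (MvPolynomial.X 1)) =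
    algebraMap A1 B12 (MvPolynomial.X 0 * P1) :=
  exists_iota2.choose_spec.2.1

theorem iota2_w : iota2 (Ideal.Quotient.mk _ (MvPolynomial.X 2)) =
      algebraMap A1 B12 (MvPolynomial.X 1) * qinv ^ 2 :=
  exists_iota2.choose_spec.2.2

theorem iota1_apply (a : A1) : iota1 a = algebraMap A1 B12 a := rfl

theorem iota_comp_rho : iota1.comp rho1 = iota2.comp rho2 := by
  apply algHom_ext_quot
  intro i
  have h := q_mul_qinv
  fin_cases i
  · change iota1 (rho1 (Ideal.Quotient.mk _ (MvPolynomial.X 0))) =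
      iota2 (rho2 (Ideal.Quotient.mk _ (MvPolynomial.X 0)))
    rw [rho1_p, rho2_p, map_mul, iota2_p, iota2_q, iota1_apply, map_mul]
    linear_combination (-algebraMap A1 B12 P1) * h
  · change iota1 (rho1 (Ideal.Quotient.mk _ (MvPolynomial.X 1))) =
      iota2 (rho2 (Ideal.Quotient.mk _ (MvPolynomial.X 1)))
    rw [rho1_q, rho2_q, iota2_q, iota1_apply]
  · change iota1 (rho1 (Ideal.Quotient.mk _ (MvPolynomial.X 2))) =
      iota2 (rho2 (Ideal.Quotient.mk _ (MvPolynomial.X 2)))
    rw [rho1_w, rho2_w, map_mul iota2, map_pow iota2, iota2_w, iota2_q, iota1_apply, map_mul,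
      map_mul, map_pow]
    generalize algebraMap A1 B12 (MvPolynomial.X 0) = q at *
    generalize qinv = s at *
    linear_combination (-algebraMap A1 B12 (MvPolynomial.X 1) * (algebraMap A1 B12 P1) ^ 2 *
      (1 + q * s)) * h

theorem iota_x : iota1 (MvPolynomial.X 0) *
    iota2 (Ideal.Quotient.mk _ (MvPolynomial.X 0)) = 1 := by
  rw [iota2_p]
  exact q_mul_qinv

theorem val_of_sq {V K : Type} [CommRing V] [IsDomain V] [ValuationRing V] [Field K]
    [Algebra V K] [IsFractionRing V K] (a : K) (h : a ^ 2 ∈ Set.range (algebraMap V K)) :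
    a ∈ Set.range (algebraMap V K) := by
  obtain ⟨v, hv⟩ := h
  have hint : IsIntegral V (a ^ 2) := hv ▸ isIntegral_algebraMap
  exact IsIntegrallyClosed.isIntegral_iff.mp (hint.of_pow (by norm_num))

theorem range_mem_of_generators {V K : Type} [CommRing V] [Field K] [Algebra V K] {n : ℕ}
    (θ : MvPolynomial (Fin n) ℂ →+* K)
    (hC : ∀ c : ℂ, θ (MvPolynomial.C c) ∈ Set.range (algebraMap V K))
    (hX : ∀ i, θ (MvPolynomial.X i) ∈ Set.range (algebraMap V K)) (a : MvPolynomial (Fin n) ℂ) :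
    θ a ∈ Set.range (algebraMap V K) := by
  change θ a ∈ (algebraMap V K).range
  induction a using MvPolynomial.induction_on with
  | C c => exact hC c
  | add p q hp hq => rw [map_add]; exact add_mem hp hq
  | mul_X p i hp => rw [map_mul]; exact mul_mem hp (hX i)

theorem val1 : ValCondition (rho1 : OS →+* A1) (MvPolynomial.X 0) := by
  intro V K _ _ _ _ _ _ θ hρ hx a
  have hp : θ P1 ∈ (algebraMap V K).range := by
    have := hρ (Ideal.Quotient.mk _ (MvPolynomial.X 0))
    change θ (rho1 _) ∈ _ at this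
    rw [rho1_p] at this
    exact this
  have hx' : θ (MvPolynomial.X 0) ∈ (algebraMap V K).range := hx
  refine range_mem_of_generators θ ?_ ?_ a
  · intro c
    have := hρ (algebraMap ℂ OS c)
    change θ (rho1 _) ∈ _ at this
    rw [AlgHom.commutes] at this
    exact this
  · intro i
    fin_cases i
    · exact hx
    · change θ (MvPolynomial.X 1) ∈ _
      apply val_of_sq
      change _ ∈ (algebraMap V K).range
      have h : θ (MvPolynomial.X 1) ^ 2 = θ P1 + (1 - θ (MvPolynomial.X 0) ^ 2) ^ 2 := by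
        rw [P1, map_sub, map_pow, map_pow, map_sub, map_one, map_pow]
        ring
      rw [h]
      exact add_mem hp (pow_mem (sub_mem (one_mem _) (pow_mem hx' _)) _)

theorem val2 : ValCondition (rho2 : OS →+* A2) (Ideal.Quotient.mk _ (MvPolynomial.X 0)) := by
  intro V K _ _ _ _ _ _ θ hρ hx a
  have hq : θ (Ideal.Quotient.mk _ (MvPolynomial.X 1)) ∈ (algebraMap V K).range := by
    have := hρ (Ideal.Quotient.mk _ (MvPolynomial.X 1))
    change θ (rho2 _) ∈ _ at this
    rw [rho2_q] at this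
    exact this
  have hx' : θ (Ideal.Quotient.mk _ (MvPolynomial.X 0)) ∈ (algebraMap V K).range := hx
  obtain ⟨a, rfl⟩ := Ideal.Quotient.mk_surjective a
  refine range_mem_of_generators (θ.comp (Ideal.Quotient.mk _)) ?_ ?_ a
  · intro c
    have := hρ (algebraMap ℂ OS c)
    change θ (rho2 _) ∈ _ at this
    rw [AlgHom.commutes] at this
    exact this
  · intro i
    fin_cases i
    · exact hx
    · exact hq
    · change θ (Ideal.Quotient.mk _ (MvPolynomial.X 2)) ∈ _
      apply val_of_sq
      change _ ∈ (algebraMap V K).range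
      have h := congrArg θ relU
      rw [map_zero, map_sub, map_sub, map_mul, map_pow, map_pow, map_pow, map_sub, map_pow,
        map_one] at h
      have h2 : θ (Ideal.Quotient.mk _ (MvPolynomial.X 2)) ^ 2 =
          (θ (Ideal.Quotient.mk _ (MvPolynomial.X 0)) ^ 2 - 1) ^ 2 +
          θ (Ideal.Quotient.mk _ (MvPolynomial.X 0)) ^ 5 *
            θ (Ideal.Quotient.mk _ (MvPolynomial.X 1)) := by
        linear_combination h
      rw [h2]
      exact add_mem (pow_mem (sub_mem (pow_mem hx' _) (one_mem _)) _)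
        (mul_mem (pow_mem hx' _) hq)

theorem overlap_identity {R : Type} [CommRing R] (p q w s : R) (hs : p * s = 1)
    (hrel : w ^ 2 - (p ^ 2 - 1) ^ 2 - p ^ 5 * q = 0) :
    s * ((w * s ^ 2) ^ 2 - (1 - s ^ 2) ^ 2) = q := by
  have h5 : p ^ 5 * s ^ 5 = 1 := by
    rw [← mul_pow, hs, one_pow]
  have h4 : s ^ 4 * (p ^ 2 - 1) ^ 2 = (1 - s ^ 2) ^ 2 := by
    have h4 : s ^ 2 * (p ^ 2 - 1) = 1 - s ^ 2 := by
      linear_combination (p * s + 1) * hs
    calc s ^ 4 * (p ^ 2 - 1) ^ 2 = (s ^ 2 * (p ^ 2 - 1)) ^ 2 := by ring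
      _ = _ := by rw [h4]
  linear_combination s ^ 5 * hrel + s * h4 + q * h5

theorem loc2 : @IsLocalization.Away A2 _ (Ideal.Quotient.mk (Ideal.span {eqU}) (MvPolynomial.X 0))
    B12 _ (iota2 : A2 →+* B12).toAlgebra := by
  set L := Localization.Away (Ideal.Quotient.mk (Ideal.span {eqU}) (MvPolynomial.X 0)) with hL
  let p' : A2 := Ideal.Quotient.mk (Ideal.span {eqU}) (MvPolynomial.X 0)
  let s : L := IsLocalization.Away.invSelf p'
  have hs : algebraMap A2 L p' * s = 1 := IsLocalization.Away.mul_invSelf _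
  let w'' : A2 := Ideal.Quotient.mk (Ideal.span {eqU}) (MvPolynomial.X 2)
  let q'' : A2 := Ideal.Quotient.mk (Ideal.span {eqU}) (MvPolynomial.X 1)
  let σ₀ : A1 →ₐ[ℂ] L := MvPolynomial.aeval ![s, algebraMap A2 L w'' * s ^ 2]
  have hσ0 : σ₀ (MvPolynomial.X 0) = s := by simp [σ₀]
  have hσ1 : σ₀ (MvPolynomial.X 1) = algebraMap A2 L w'' * s ^ 2 := by simp [σ₀]
  let σ : B12 →ₐ[ℂ] L := IsLocalization.liftAlgHom (M := Submonoid.powers (MvPolynomial.X 0 : A1))
    (f := σ₀) (by
      rintro ⟨y, n, rfl⟩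
      change IsUnit (σ₀ (MvPolynomial.X 0 ^ n))
      rw [map_pow, hσ0]
      exact (IsUnit.of_mul_eq_one (algebraMap A2 L p') (by rw [mul_comm]; exact hs)).pow n)
  have hσ : ∀ a, σ (iota1 a) = σ₀ a := fun a => by
    exact IsLocalization.lift_eq _ a
  have hσq : σ qinv = algebraMap A2 L p' := by
    have h1 : σ (iota1 (MvPolynomial.X 0)) * σ qinv = 1 := by
      rw [← map_mul, iota1_apply, q_mul_qinv, map_one]
    rw [hσ, hσ0] at h1
    calc σ qinv = (algebraMap A2 L p' * s) * σ qinv := by rw [hs, one_mul]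
      _ = algebraMap A2 L p' * (s * σ qinv) := by ring
      _ = _ := by rw [h1, mul_one]
  have hrel : algebraMap A2 L w'' ^ 2 - (algebraMap A2 L p' ^ 2 - 1) ^ 2 -
      algebraMap A2 L p' ^ 5 * algebraMap A2 L q'' = 0 := by
    have h := congrArg (algebraMap A2 L) relU
    simpa only [map_sub, map_mul, map_pow, map_one, map_zero] using h
  have key : ∀ a, σ (iota2 a) = algebraMap A2 L a := by
    have : σ.comp iota2 = IsScalarTower.toAlgHom ℂ A2 L := by
      apply algHom_ext_quot
      intro i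
      fin_cases i
      · change σ (iota2 (Ideal.Quotient.mk _ (MvPolynomial.X 0))) = algebraMap A2 L p'
        rw [iota2_p, hσq]
      · change σ (iota2 (Ideal.Quotient.mk _ (MvPolynomial.X 1))) = algebraMap A2 L q''
        rw [iota2_q, ← iota1_apply, hσ, P1]
        simp only [map_sub, map_mul, map_pow, map_one]
        rw [hσ0, hσ1]
        exact overlap_identity _ _ _ _ hs hrel
      · change σ (iota2 (Ideal.Quotient.mk _ (MvPolynomial.X 2))) = algebraMap A2 L w''
        rw [iota2_w, map_mul, map_pow, ← iota1_apply, hσ, hσ1, hσq]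
        linear_combination algebraMap A2 L w'' * (1 + algebraMap A2 L p' * s) * hs
    intro a
    exact congrArg (fun g => g a) this
  let τ : L →ₐ[ℂ] B12 := IsLocalization.liftAlgHom (M := Submonoid.powers p')
    (f := iota2) (by
      rintro ⟨y, n, rfl⟩
      change IsUnit (iota2 (p' ^ n))
      rw [map_pow]
      refine (IsUnit.of_mul_eq_one (iota1 (MvPolynomial.X 0)) ?_).pow n
      rw [mul_comm]; exact iota_x)
  have hτ : ∀ a, τ (algebraMap A2 L a) = iota2 a := fun a => by
    exact IsLocalization.lift_eq _ a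
  have hστ : ∀ l, σ (τ l) = l := by
    have : ((σ : B12 →+* L).comp (τ : L →+* B12)) = RingHom.id L := by
      apply IsLocalization.ringHom_ext (Submonoid.powers p')
      refine RingHom.ext fun a => ?_
      change σ (τ (algebraMap A2 L a)) = algebraMap A2 L a
      rw [hτ, key]
    intro l
    exact congrArg (fun g => g l) this
  have hτs : τ s = iota1 (MvPolynomial.X 0) := by
    have h1 : τ (algebraMap A2 L p') * τ s = 1 := by
      rw [← map_mul, hs, map_one]
    rw [hτ] at h1
    calc τ s = (iota1 (MvPolynomial.X 0) * iota2 p') * τ s := by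
          rw [show iota1 (MvPolynomial.X 0) * iota2 p' = 1 from iota_x, one_mul]
      _ = iota1 (MvPolynomial.X 0) * (iota2 p' * τ s) := by ring
      _ = _ := by rw [h1, mul_one]
  have hτσ : ∀ b, τ (σ b) = b := by
    have : ((τ : L →+* B12).comp (σ : B12 →+* L)) = RingHom.id B12 := by
      apply IsLocalization.ringHom_ext (Submonoid.powers (MvPolynomial.X 0 : A1))
      have h2 : (τ.comp σ).comp iota1 = iota1 := by
        apply MvPolynomial.algHom_ext
        intro i
        fin_cases i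
        · change τ (σ (iota1 (MvPolynomial.X 0))) = iota1 (MvPolynomial.X 0)
          rw [hσ, hσ0, hτs]
        · change τ (σ (iota1 (MvPolynomial.X 1))) = iota1 (MvPolynomial.X 1)
          rw [hσ, hσ1, map_mul, map_pow, hτ, hτs]
          change iota2 (Ideal.Quotient.mk _ (MvPolynomial.X 2)) * _ = _
          rw [iota2_w, iota1_apply, iota1_apply]
          linear_combination algebraMap A1 B12 (MvPolynomial.X 1) *
            (1 + algebraMap A1 B12 (MvPolynomial.X 0) * qinv) * q_mul_qinv
      refine RingHom.ext fun a => ?_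
      exact congrArg (fun g => g a) h2
    intro b
    exact congrArg (fun g => g b) this
  letI := (iota2 : A2 →+* B12).toAlgebra
  let e : L ≃ₐ[A2] B12 :=
    { toFun := τ
      invFun := σ
      left_inv := hστ
      right_inv := hτσ
      map_mul' := map_mul τ
      map_add' := map_add τ
      commutes' := hτ }
  exact IsLocalization.isLocalization_of_algEquiv (Submonoid.powers p') e

theorem loc1 : @IsLocalization.Away A1 _ (MvPolynomial.X 0) B12 _
    (iota1 : A1 →+* B12).toAlgebra := by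
  have h : (iota1 : A1 →+* B12).toAlgebra = (inferInstance : Algebra A1 B12) := by
    apply Algebra.algebra_ext
    intro r
    rfl
  rw [h]
  infer_instance

end Pool.Agent.Helper395
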