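import Pool.Agent.Helper395.ResolSm

open AlgebraicGeometry CategoryTheory CategoryTheory.Limits

set_option linter.style.haveILetI false

namespace Pool.Agent.Helper395

theorem awayMap_bijective {R S : Type} [CommRing R] [CommRing S] (f : R →+* S) (r : R)
    (g : S →+* Localization.Away r) (h1 : g.comp f = algebraMap R _)
    (h2 : (Localization.awayMap f r).comp g = algebraMap S _) :
    Function.Bijective (Localization.awayMap f r) := by
  have hu : IsUnit (g (f r)) := by
    have : g (f r) = algebraMap R _ r := congrArg (fun φ => φ r) h1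
    rw [this]
    exact IsLocalization.Away.algebraMap_isUnit r
  let g' : Localization.Away (f r) →+* Localization.Away r := IsLocalization.Away.lift (f r) hu
  have hg' : g'.comp (algebraMap S _) = g := IsLocalization.Away.lift_comp (f r) hu
  have hm : (Localization.awayMap f r).comp (algebraMap R _) = (algebraMap S _).comp f := by
    refine RingHom.ext fun a => ?_
    simp [Localization.awayMap, IsLocalization.Away.map]
  have e1 : g'.comp (Localization.awayMap f r) = RingHom.id _ := by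
    apply IsLocalization.ringHom_ext (Submonoid.powers r)
    rw [RingHom.comp_assoc, hm, ← RingHom.comp_assoc, hg', h1]
    rfl
  have e2 : (Localization.awayMap f r).comp g' = RingHom.id _ := by
    apply IsLocalization.ringHom_ext (Submonoid.powers (f r))
    rw [RingHom.comp_assoc, hg', h2]
    rfl
  constructor
  · intro a b hab
    have ha := congrArg (fun φ => φ a) e1
    have hb := congrArg (fun φ => φ b) e1
    simp only [RingHom.comp_apply, RingHom.id_apply] at ha hb
    rw [← ha, ← hb, hab]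
  · intro a
    exact ⟨g' a, congrArg (fun φ => φ a) e2⟩

theorem isIso_restrict_basicOpen {R S : Type} [CommRing R] [CommRing S] (f : R →+* S) (r : R)
    (h : Function.Bijective (Localization.awayMap f r)) :
    IsIso (Spec.map (CommRingCat.ofHom f) ∣_ (PrimeSpectrum.basicOpen r)) := by
  have e := SpecMapRestrictBasicOpenIso (CommRingCat.ofHom f) r
  have h1 : IsIso (Spec.map (CommRingCat.ofHom (Localization.awayMap f r))) := by
    have : IsIso (CommRingCat.ofHom (Localization.awayMap f r)) :=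
      (ConcreteCategory.isIso_iff_bijective _).mpr h
    infer_instance
  exact (MorphismProperty.arrow_mk_iso_iff (MorphismProperty.isomorphisms Scheme.{0}) e).mpr h1

theorem dense_basicOpen {R : Type} [CommRing R] (x : R) (hx : x ∈ nonZeroDivisors R) :
    Dense ((PrimeSpectrum.basicOpen x : TopologicalSpace.Opens (PrimeSpectrum R)) :
      Set (PrimeSpectrum R)) := by
  rw [PrimeSpectrum.isTopologicalBasis_basic_opens.dense_iff]
  rintro _ ⟨g, rfl⟩ hne
  by_contra hcon
  rw [Set.not_nonempty_iff_eq_empty, ← TopologicalSpace.Opens.coe_inf,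
    ← PrimeSpectrum.basicOpen_mul, TopologicalSpace.Opens.coe_eq_empty,
    PrimeSpectrum.basicOpen_eq_bot_iff] at hcon
  obtain ⟨n, hn⟩ := hcon
  rw [mul_pow] at hn
  have h2 : g ^ n = 0 := (mem_nonZeroDivisors_iff.mp (pow_mem hx n)).2 _ hn
  have h3 : PrimeSpectrum.basicOpen g = ⊥ := (PrimeSpectrum.basicOpen_eq_bot_iff _).mpr ⟨n, h2⟩
  change ((PrimeSpectrum.basicOpen g : TopologicalSpace.Opens (PrimeSpectrum R)) :
      Set (PrimeSpectrum R)).Nonempty at hne
  rw [h3] at hne
  exact Set.not_nonempty_empty hne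

theorem mk_mem_nonZeroDivisors (P F : MvPolynomial (Fin 3) ℂ) (hP : Prime P) (hF : ¬ P ∣ F) :
    Ideal.Quotient.mk (Ideal.span {F}) P ∈
      nonZeroDivisors (MvPolynomial (Fin 3) ℂ ⧸ Ideal.span {F}) := by
  rw [mem_nonZeroDivisors_iff_right]
  intro a ha
  obtain ⟨a, rfl⟩ := Ideal.Quotient.mk_surjective a
  rw [← map_mul, Ideal.Quotient.eq_zero_iff_mem, Ideal.mem_span_singleton] at ha
  obtain ⟨b, hb⟩ := ha
  have h1 : P ∣ F * b := hb ▸ Dvd.intro_left a rfl
  rcases hP.dvd_or_dvd h1 with h2 | ⟨c, rfl⟩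
  · exact absurd h2 hF
  · rw [Ideal.Quotient.eq_zero_iff_mem, Ideal.mem_span_singleton]
    refine ⟨c, mul_right_cancel₀ hP.ne_zero ?_⟩
    rw [hb]; ring

theorem prime_X (i : Fin 3) : Prime (MvPolynomial.X i : MvPolynomial (Fin 3) ℂ) :=
  MvPolynomial.X_prime

theorem not_X0_dvd_eqS : ¬ (MvPolynomial.X 0 : MvPolynomial (Fin 3) ℂ) ∣ eqS := by
  rintro ⟨c, hc⟩
  have := congrArg (MvPolynomial.eval ![0, 0, 1]) hc
  simp [eqS] at this

theorem not_X0_dvd_eqU : ¬ (MvPolynomial.X 0 : MvPolynomial (Fin 3) ℂ) ∣ eqU := by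
  rintro ⟨c, hc⟩
  have := congrArg (MvPolynomial.eval ![0, 0, 0]) hc
  simp [eqU] at this

theorem not_X1_dvd_eqU : ¬ (MvPolynomial.X 1 : MvPolynomial (Fin 3) ℂ) ∣ eqU := by
  rintro ⟨c, hc⟩
  have := congrArg (MvPolynomial.eval ![0, 0, 0]) hc
  simp [eqU] at this

theorem P1_ne_zero : P1 ≠ 0 := by
  intro h
  have := congrArg (MvPolynomial.eval ![0, 0]) h
  simp [P1] at this

theorem TwoCharts.dense_of_charts {R A₁ A₂ B : Type} [CommRing R] [CommRing A₁] [CommRing A₂]
    [CommRing B] (𝒯 : TwoCharts R A₁ A₂ B) (W : Set 𝒯.T) (h1 : Dense (𝒯.inc₁ ⁻¹' W))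
    (h2 : Dense (𝒯.inc₂ ⁻¹' W)) : Dense W := by
  have := 𝒯.open₁
  have := 𝒯.open₂
  rw [dense_iff_inter_open]
  rintro U hU ⟨x, hx⟩
  rcases 𝒯.surj x with ⟨y, rfl⟩ | ⟨y, rfl⟩
  · obtain ⟨z, hz, hz'⟩ := dense_iff_inter_open.mp h1 (𝒯.inc₁ ⁻¹' U)
      (hU.preimage 𝒯.inc₁.continuous) ⟨y, hx⟩
    exact ⟨𝒯.inc₁ z, hz, hz'⟩
  · obtain ⟨z, hz, hz'⟩ := dense_iff_inter_open.mp h2 (𝒯.inc₂ ⁻¹' U)
      (hU.preimage 𝒯.inc₂.continuous) ⟨y, hx⟩
    exact ⟨𝒯.inc₂ z, hz, hz'⟩

/-- The locus `p ≠ 0` in `Spec OS`. -/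
noncomputable def V0 : (Spec (.of OS)).Opens :=
  PrimeSpectrum.basicOpen (Ideal.Quotient.mk (Ideal.span {eqS}) (MvPolynomial.X 0))

theorem dense_V0 : Dense (V0 : Set (Spec (.of OS))) :=
  dense_basicOpen _ (mk_mem_nonZeroDivisors _ _ (prime_X 0) not_X0_dvd_eqS)

theorem inc1_preimage : resol.inc₁ ⁻¹' ((resol.f ⁻¹ᵁ V0 : resol.T.Opens) : Set resol.T) =
    ((PrimeSpectrum.basicOpen P1 : TopologicalSpace.Opens (PrimeSpectrum A1)) :
      Set (PrimeSpectrum A1)) := by
  have h := resol.fac₁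
  ext x
  change resol.f (resol.inc₁ x) ∈ V0 ↔ P1 ∉ x.asIdeal
  have h2 : resol.f (resol.inc₁ x) = Spec.map (CommRingCat.ofHom (rho1 : OS →+* A1)) x :=
    congrArg (fun g => g x) h
  rw [h2]
  change rho1 (Ideal.Quotient.mk (Ideal.span {eqS}) (MvPolynomial.X 0)) ∉ x.asIdeal ↔ _
  rw [rho1_p]

theorem inc2_preimage : resol.inc₂ ⁻¹' ((resol.f ⁻¹ᵁ V0 : resol.T.Opens) : Set resol.T) =
    ((PrimeSpectrum.basicOpen (Ideal.Quotient.mk (Ideal.span {eqU}) (MvPolynomial.X 0) *
      Ideal.Quotient.mk (Ideal.span {eqU}) (MvPolynomial.X 1)) :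
      TopologicalSpace.Opens (PrimeSpectrum A2)) : Set (PrimeSpectrum A2)) := by
  have h := resol.fac₂
  ext x
  change resol.f (resol.inc₂ x) ∈ V0 ↔ (Ideal.Quotient.mk (Ideal.span {eqU}) (MvPolynomial.X 0) *
      Ideal.Quotient.mk (Ideal.span {eqU}) (MvPolynomial.X 1)) ∉ x.asIdeal
  have h2 : resol.f (resol.inc₂ x) = Spec.map (CommRingCat.ofHom (rho2 : OS →+* A2)) x :=
    congrArg (fun g => g x) h
  rw [h2]
  change rho2 (Ideal.Quotient.mk (Ideal.span {eqS}) (MvPolynomial.X 0)) ∉ x.asIdeal ↔ _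
  rw [rho2_p]

theorem dense_preimage_V0 : Dense ((resol.f ⁻¹ᵁ V0 : resol.T.Opens) : Set resol.T) := by
  apply resol.dense_of_charts
  · rw [inc1_preimage]
    exact dense_basicOpen _ (mem_nonZeroDivisors_of_ne_zero P1_ne_zero)
  · rw [inc2_preimage]
    exact dense_basicOpen _ (mul_mem
      (mk_mem_nonZeroDivisors _ _ (prime_X 0) not_X0_dvd_eqU)
      (mk_mem_nonZeroDivisors _ _ (prime_X 1) not_X1_dvd_eqU))

theorem preimage_V0_le (x : resol.T) (hx : x ∈ resol.f ⁻¹ᵁ V0) : ∃ y, resol.inc₁ y = x := by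
  rcases resol.surj x with h | ⟨y, rfl⟩
  · exact h
  · have h1 : y ∈ resol.inc₂ ⁻¹' ((resol.f ⁻¹ᵁ V0 : resol.T.Opens) : Set resol.T) := hx
    rw [inc2_preimage] at h1
    have h2 : Ideal.Quotient.mk (Ideal.span {eqU}) (MvPolynomial.X 0) ∉ y.asIdeal := by
      intro h
      exact h1 (Ideal.mul_mem_right _ _ h)
    letI := (iota2 : A2 →+* B12).toAlgebra
    have hloc : IsLocalization.Away (Ideal.Quotient.mk (Ideal.span {eqU}) (MvPolynomial.X 0) : A2)
      B12 := loc2
    have h3 : y ∈ Set.range (PrimeSpectrum.comap (algebraMap A2 B12)) := by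
      rw [PrimeSpectrum.localization_away_comap_range B12
        (Ideal.Quotient.mk (Ideal.span {eqU}) (MvPolynomial.X 0) : A2)]
      exact h2
    obtain ⟨z, hz⟩ := h3
    refine ⟨Spec.map (CommRingCat.ofHom (iota1 : A1 →+* B12)) z, ?_⟩
    have h4 := resol.glue
    have h5 : resol.inc₁ (Spec.map (CommRingCat.ofHom (iota1 : A1 →+* B12)) z) =
        resol.inc₂ (Spec.map (CommRingCat.ofHom (iota2 : A2 →+* B12)) z) :=
      congrArg (fun g => g z) h4
    rw [h5, ← hz]
    rfl

theorem relS : (Ideal.Quotient.mk (Ideal.span {eqS}) (MvPolynomial.X 2)) ^ 2 -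
    ((Ideal.Quotient.mk (Ideal.span {eqS}) (MvPolynomial.X 0)) ^ 2 -
      (Ideal.Quotient.mk (Ideal.span {eqS}) (MvPolynomial.X 1)) ^ 2) ^ 2 -
    (Ideal.Quotient.mk (Ideal.span {eqS}) (MvPolynomial.X 0)) ^ 5 = 0 := by
  have hrel : Ideal.Quotient.mk (Ideal.span {eqS}) eqS = 0 :=
    Ideal.Quotient.eq_zero_iff_mem.mpr (Ideal.mem_span_singleton_self _)
  have hrel' := hrel
  conv at hrel' =>
    lhs
    arg 2
    rw [eqS]
  simpa only [map_sub, map_mul, map_pow, map_one] using hrel'

theorem back_identity {R : Type} [CommRing R] (p q w s : R) (hs : p * s = 1)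
    (hrel : w ^ 2 - (p ^ 2 - q ^ 2) ^ 2 - p ^ 5 = 0) :
    (w * s ^ 2) ^ 2 - (1 - (q * s) ^ 2) ^ 2 = p := by
  have h4 : p ^ 4 * s ^ 4 = 1 := by
    rw [← mul_pow, hs, one_pow]
  have h5 : s ^ 4 * (p ^ 2 - q ^ 2) ^ 2 = (1 - (q * s) ^ 2) ^ 2 := by
    have h6 : s ^ 2 * (p ^ 2 - q ^ 2) = 1 - (q * s) ^ 2 := by
      linear_combination (p * s + 1) * hs
    calc s ^ 4 * (p ^ 2 - q ^ 2) ^ 2 = (s ^ 2 * (p ^ 2 - q ^ 2)) ^ 2 := by ring
      _ = _ := by rw [h6]
  linear_combination s ^ 4 * hrel + h5 + p * h4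

theorem awayMap_algebraMap {R S : Type} [CommRing R] [CommRing S] (f : R →+* S) (r a : R) :
    Localization.awayMap f r (algebraMap R _ a) =
      algebraMap S (Localization.Away (f r)) (f a) := by
  simp [Localization.awayMap, IsLocalization.Away.map]

theorem awayMap_inv {R S : Type} [CommRing R] [CommRing S] (f : R →+* S) (r : R)
    (s : Localization.Away r) (hs : algebraMap R _ r * s = 1) (a b : Localization.Away (f r))
    (h : a * algebraMap S _ (f r) = b) : b * Localization.awayMap f r s = a := by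
  have h1 : algebraMap S (Localization.Away (f r)) (f r) * Localization.awayMap f r s = 1 := by
    rw [← awayMap_algebraMap, ← map_mul, hs, map_one]
  rw [← h]
  linear_combination a * h1

/-- The inverse map. -/
theorem exists_back : ∃ g : A1 →+* Localization.Away
      (Ideal.Quotient.mk (Ideal.span {eqS}) (MvPolynomial.X 0)),
    g.comp (rho1 : OS →+* A1) = algebraMap OS _ ∧
    (Localization.awayMap (rho1 : OS →+* A1)
      (Ideal.Quotient.mk (Ideal.span {eqS}) (MvPolynomial.X 0))).comp g = algebraMap A1 _ := by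
  let p : OS := Ideal.Quotient.mk (Ideal.span {eqS}) (MvPolynomial.X 0)
  let q : OS := Ideal.Quotient.mk (Ideal.span {eqS}) (MvPolynomial.X 1)
  let w : OS := Ideal.Quotient.mk (Ideal.span {eqS}) (MvPolynomial.X 2)
  let L := Localization.Away p
  let s : L := IsLocalization.Away.invSelf p
  have hs : algebraMap OS L p * s = 1 := IsLocalization.Away.mul_invSelf _
  have hrel : algebraMap OS L w ^ 2 - (algebraMap OS L p ^ 2 - algebraMap OS L q ^ 2) ^ 2 -
      algebraMap OS L p ^ 5 = 0 := by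
    have h := congrArg (algebraMap OS L) relS
    simpa only [map_sub, map_mul, map_pow, map_one, map_zero] using h
  let g : A1 →ₐ[ℂ] L := MvPolynomial.aeval ![algebraMap OS L q * s, algebraMap OS L w * s ^ 2]
  have hg0 : g (MvPolynomial.X 0) = algebraMap OS L q * s := by simp [g]
  have hg1 : g (MvPolynomial.X 1) = algebraMap OS L w * s ^ 2 := by simp [g]
  have hgP : g P1 = algebraMap OS L p := by
    rw [P1]
    simp only [map_sub, map_pow, map_one]
    rw [hg0, hg1]
    exact back_identity _ _ _ _ hs hrel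
  refine ⟨g, ?_, ?_⟩
  · have : g.comp rho1 = IsScalarTower.toAlgHom ℂ OS L := by
      apply algHom_ext_quot
      intro i
      fin_cases i
      · change g (rho1 (Ideal.Quotient.mk _ (MvPolynomial.X 0))) = algebraMap OS L p
        rw [rho1_p, hgP]
      · change g (rho1 (Ideal.Quotient.mk _ (MvPolynomial.X 1))) = algebraMap OS L q
        rw [rho1_q, map_mul, hg0, hgP]
        linear_combination algebraMap OS L q * hs
      · change g (rho1 (Ideal.Quotient.mk _ (MvPolynomial.X 2))) = algebraMap OS L w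
        rw [rho1_w, map_mul, map_pow, hg1, hgP]
        linear_combination algebraMap OS L w * (1 + algebraMap OS L p * s) * hs
    refine RingHom.ext fun a => ?_
    exact congrArg (fun g => g a) this
  · let f : OS →+* A1 := rho1
    have hinv : ∀ a b : Localization.Away (f p), a * algebraMap A1 _ P1 = b →
        b * Localization.awayMap f p s = a := by
      intro a b h
      apply awayMap_inv f p s hs a b
      have hP : f p = P1 := rho1_p
      exact (congrArg (fun c => a * algebraMap A1 (Localization.Away (f p)) c) hP).trans h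
    change (Localization.awayMap f p).comp (g : A1 →+* L) = algebraMap A1 (Localization.Away (f p))
    apply MvPolynomial.ringHom_ext
    · intro c
      change Localization.awayMap f p (g (MvPolynomial.C c)) =
        algebraMap A1 _ (MvPolynomial.C c)
      have h1 : g (MvPolynomial.C c) = algebraMap OS L (algebraMap ℂ OS c) := g.commutes c
      have h2 : f (algebraMap ℂ OS c) = MvPolynomial.C c := rho1.commutes c
      rw [h1, awayMap_algebraMap, h2]
    · intro i
      fin_cases i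
      · change Localization.awayMap f p (g (MvPolynomial.X 0)) =
          algebraMap A1 _ (MvPolynomial.X 0)
        rw [hg0, map_mul, awayMap_algebraMap]
        apply hinv
        rw [← map_mul]
        exact congrArg _ rho1_q.symm
      · change Localization.awayMap f p (g (MvPolynomial.X 1)) =
          algebraMap A1 _ (MvPolynomial.X 1)
        rw [hg1, map_mul, awayMap_algebraMap, pow_two, map_mul, ← mul_assoc]
        apply hinv
        symm
        apply hinv
        rw [← map_mul, ← map_mul]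
        refine congrArg _ ?_
        change _ = rho1 (Ideal.Quotient.mk _ (MvPolynomial.X 2))
        rw [rho1_w]
        ring

theorem isIso_resol_restrict : IsIso (resol.f ∣_ V0) := by
  have hopen := resol.open₁
  have h1 : IsIso (resol.inc₁ ∣_ (resol.f ⁻¹ᵁ V0)) := by
    have : Surjective (resol.inc₁ ∣_ (resol.f ⁻¹ᵁ V0)) := by
      constructor
      rintro ⟨x, hx⟩
      obtain ⟨y, rfl⟩ := preimage_V0_le x hx
      refine ⟨⟨y, hx⟩, ?_⟩
      apply Subtype.ext
      exact congrArg (fun g => g ⟨y, hx⟩) (morphismRestrict_ι resol.inc₁ (resol.f ⁻¹ᵁ V0))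
    exact (isIso_iff_isOpenImmersion_and_surjective _).mpr ⟨inferInstance, this⟩
  have h2 : IsIso ((resol.inc₁ ≫ resol.f) ∣_ V0) := by
    rw [resol.fac₁]
    obtain ⟨g, hg1, hg2⟩ := exists_back
    exact isIso_restrict_basicOpen _ _ (awayMap_bijective _ _ g hg1 hg2)
  have h3 : (resol.inc₁ ≫ resol.f) ∣_ V0 = resol.inc₁ ∣_ (resol.f ⁻¹ᵁ V0) ≫ resol.f ∣_ V0 :=
    morphismRestrict_comp _ _ _
  have h4 : IsIso (resol.inc₁ ∣_ (resol.f ⁻¹ᵁ V0) ≫ resol.f ∣_ V0) := h3 ▸ h2
  exact IsIso.of_isIso_comp_left (resol.inc₁ ∣_ (resol.f ⁻¹ᵁ V0)) _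

theorem birational_resol : IsBirationalMorphism resol.f :=
  ⟨V0, dense_V0, dense_preimage_V0, isIso_resol_restrict⟩

end Pool.Agent.Helper395
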