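import Pool.Agent.Helper395.GlueTwo
import Pool.Agent.Helper395.Product

open AlgebraicGeometry CategoryTheory CategoryTheory.Limits

set_option linter.style.haveILetI false

namespace Pool.Agent.Helper395

open MvPolynomial in
/-- The equation of the surface `S` in the variables `p, q, w`. -/
noncomputable def eqS : MvPolynomial (Fin 3) ℂ :=
  X 2 ^ 2 - (X 0 ^ 2 - X 1 ^ 2) ^ 2 - X 0 ^ 5

open MvPolynomial in
/-- The equation of the second chart in the variables `p', q, w''`. -/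
noncomputable def eqU : MvPolynomial (Fin 3) ℂ :=
  X 2 ^ 2 - (X 0 ^ 2 - 1) ^ 2 - X 0 ^ 5 * X 1

/-- The coordinate ring of `S`. -/
abbrev OS : Type := MvPolynomial (Fin 3) ℂ ⧸ Ideal.span {eqS}

/-- The coordinate ring of the first chart. -/
abbrev A1 : Type := MvPolynomial (Fin 2) ℂ

/-- The coordinate ring of the second chart. -/
abbrev A2 : Type := MvPolynomial (Fin 3) ℂ ⧸ Ideal.span {eqU}

/-- The overlap. -/
abbrev B12 : Type := Localization.Away (MvPolynomial.X 0 : A1)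

theorem exists_lift_quot {R : Type} [CommRing R] [Algebra ℂ R] (g : MvPolynomial (Fin 3) ℂ)
    (v : Fin 3 → R) (h : MvPolynomial.aeval v g = 0) :
    ∃ ψ : (MvPolynomial (Fin 3) ℂ ⧸ Ideal.span {g}) →ₐ[ℂ] R,
      ∀ i, ψ (Ideal.Quotient.mk _ (MvPolynomial.X i)) = v i := by
  refine ⟨Ideal.Quotient.liftₐ _ (MvPolynomial.aeval v) ?_, ?_⟩
  · intro a ha
    have : Ideal.span {g} ≤ RingHom.ker (MvPolynomial.aeval v : MvPolynomial (Fin 3) ℂ →ₐ[ℂ] R) := by
      rw [Ideal.span_le, Set.singleton_subset_iff]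
      exact h
    exact this ha
  · intro i
    exact MvPolynomial.aeval_X v i

theorem algHom_ext_quot {R : Type} [CommRing R] [Algebra ℂ R] (g : MvPolynomial (Fin 3) ℂ)
    (ψ ψ' : (MvPolynomial (Fin 3) ℂ ⧸ Ideal.span {g}) →ₐ[ℂ] R)
    (h : ∀ i, ψ (Ideal.Quotient.mk _ (MvPolynomial.X i)) =
      ψ' (Ideal.Quotient.mk _ (MvPolynomial.X i))) : ψ = ψ' := by
  apply Ideal.Quotient.algHom_ext
  exact MvPolynomial.algHom_ext h

/-- The function `p` on the first chart. -/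
noncomputable def P1 : A1 :=
  MvPolynomial.X 1 ^ 2 - (1 - MvPolynomial.X 0 ^ 2) ^ 2

theorem exists_rho1 : ∃ ρ : OS →ₐ[ℂ] A1,
    ρ (Ideal.Quotient.mk _ (MvPolynomial.X 0)) = P1 ∧
    ρ (Ideal.Quotient.mk _ (MvPolynomial.X 1)) = MvPolynomial.X 0 * P1 ∧
    ρ (Ideal.Quotient.mk _ (MvPolynomial.X 2)) = MvPolynomial.X 1 * P1 ^ 2 := by
  obtain ⟨ψ, hψ⟩ := exists_lift_quot eqS
    (![P1, MvPolynomial.X 0 * P1, MvPolynomial.X 1 * P1 ^ 2] : Fin 3 → A1) (by
      simp [eqS, P1]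
      ring)
  exact ⟨ψ, hψ 0, hψ 1, hψ 2⟩

theorem exists_rho2 : ∃ ρ : OS →ₐ[ℂ] A2,
    ρ (Ideal.Quotient.mk _ (MvPolynomial.X 0)) =
      Ideal.Quotient.mk _ (MvPolynomial.X 0) * Ideal.Quotient.mk _ (MvPolynomial.X 1) ∧
    ρ (Ideal.Quotient.mk _ (MvPolynomial.X 1)) = Ideal.Quotient.mk _ (MvPolynomial.X 1) ∧
    ρ (Ideal.Quotient.mk _ (MvPolynomial.X 2)) =
      Ideal.Quotient.mk _ (MvPolynomial.X 2) * Ideal.Quotient.mk _ (MvPolynomial.X 1) ^ 2 := by
  have hrel : Ideal.Quotient.mk (Ideal.span {eqU}) eqU = 0 :=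
    Ideal.Quotient.eq_zero_iff_mem.mpr (Ideal.mem_span_singleton_self _)
  have hrel' := hrel
  conv at hrel' =>
    lhs
    arg 2
    rw [eqU]
  simp only [map_sub, map_mul, map_pow, map_one] at hrel'
  obtain ⟨ψ, hψ⟩ := exists_lift_quot eqS
    (![Ideal.Quotient.mk _ (MvPolynomial.X 0) * Ideal.Quotient.mk _ (MvPolynomial.X 1),
      Ideal.Quotient.mk _ (MvPolynomial.X 1),
      Ideal.Quotient.mk _ (MvPolynomial.X 2) * Ideal.Quotient.mk _ (MvPolynomial.X 1) ^ 2] :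
      Fin 3 → A2) (by
      simp [eqS]
      linear_combination (Ideal.Quotient.mk (Ideal.span {eqU}) (MvPolynomial.X 1)) ^ 4 * hrel')
  exact ⟨ψ, hψ 0, hψ 1, hψ 2⟩

end Pool.Agent.Helper395
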