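import Pool.Agent.Helper395.ResolT

open AlgebraicGeometry CategoryTheory CategoryTheory.Limits

set_option linter.style.haveILetI false

namespace Pool.Agent.Helper395

theorem lift_identity {B : Type} [CommRing B] [Algebra ℂ B] (I : Ideal B) (hI : I ^ 2 = ⊥)
    (p q w : B) (h : w ^ 2 - (p ^ 2 - 1) ^ 2 - p ^ 5 * q ∈ I) :
    ∃ b ∈ I, ∃ c ∈ I, (w + c) ^ 2 - (p ^ 2 - 1) ^ 2 - p ^ 5 * (q + b) = 0 := by
  set ε := w ^ 2 - (p ^ 2 - 1) ^ 2 - p ^ 5 * q with hε
  have hε2 : ε * ε = 0 := by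
    have : ε * ε ∈ I ^ 2 := by rw [pow_two]; exact Ideal.mul_mem_mul h h
    rw [hI] at this
    exact this
  set v := 3 * w - 3 * w ^ 3 + w ^ 5 with hv
  set u := 2 - p ^ 2 - p ^ 3 * q with hu
  obtain ⟨t, ht⟩ : ∃ t : B, 2 * t = 1 := by
    refine ⟨algebraMap ℂ B (1 / 2), ?_⟩
    rw [show (2 : B) = algebraMap ℂ B 2 by rw [map_ofNat], ← map_mul]
    norm_num
  refine ⟨ε * (p * u ^ 3), I.mul_mem_right _ h, -ε * v * t, ?_, ?_⟩
  · exact I.mul_mem_right _ (I.mul_mem_right _ (I.neg_mem h))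
  · have h1 : w ^ 2 = 1 - p ^ 2 * u + ε := by
      rw [hε, hu]; ring
    have h2 : w * v = 1 - (p ^ 2 * u) ^ 3 + ε * (3 * (p ^ 2 * u) ^ 2) := by
      have h3 : w * v = 1 - (1 - w ^ 2) ^ 3 := by rw [hv]; ring
      rw [h3, h1]
      linear_combination (-3 * (p ^ 2 * u) + ε) * hε2
    have h4 : (w + -ε * v * t) ^ 2 - (p ^ 2 - 1) ^ 2 - p ^ 5 * (q + ε * (p * u ^ 3)) =
        ε - ε * (w * v) * (2 * t) + (ε * ε) * (v * t) ^ 2 - ε * (p ^ 6 * u ^ 3) := by
      rw [hε]; ring
    rw [h4, ht, hε2, h2]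
    linear_combination (-3 * (p ^ 2 * u) ^ 2) * hε2

instance formallySmooth_A2 : Algebra.FormallySmooth ℂ A2 := by
  refine .of_comp_surjective fun B _ _ I hI f ↦ ?_
  obtain ⟨p, hp⟩ := Ideal.Quotient.mk_surjective (f (Ideal.Quotient.mk _ (MvPolynomial.X 0)))
  obtain ⟨q, hq⟩ := Ideal.Quotient.mk_surjective (f (Ideal.Quotient.mk _ (MvPolynomial.X 1)))
  obtain ⟨w, hw⟩ := Ideal.Quotient.mk_surjective (f (Ideal.Quotient.mk _ (MvPolynomial.X 2)))
  have hmem : w ^ 2 - (p ^ 2 - 1) ^ 2 - p ^ 5 * q ∈ I := by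
    rw [← Ideal.Quotient.eq_zero_iff_mem]
    simp only [map_sub, map_mul, map_pow, map_one]
    rw [hp, hq, hw]
    have h := congrArg f relU
    simpa only [map_sub, map_mul, map_pow, map_one, map_zero] using h
  obtain ⟨b, hb, c, hc, hbc⟩ := lift_identity I hI p q w hmem
  obtain ⟨ψ, hψ⟩ := exists_lift_quot eqU (![p, q + b, w + c] : Fin 3 → B) (by
    simp only [eqU, map_sub, map_mul, map_pow, map_one, MvPolynomial.aeval_X,
        Matrix.cons_val_zero, Matrix.cons_val_one, Matrix.cons_val]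
    exact hbc)
  refine ⟨ψ, ?_⟩
  apply algHom_ext_quot
  intro i
  have hb0 : Ideal.Quotient.mk I b = 0 := Ideal.Quotient.eq_zero_iff_mem.mpr hb
  have hc0 : Ideal.Quotient.mk I c = 0 := Ideal.Quotient.eq_zero_iff_mem.mpr hc
  fin_cases i
  · change Ideal.Quotient.mk I (ψ (Ideal.Quotient.mk _ (MvPolynomial.X 0))) =
      f (Ideal.Quotient.mk _ (MvPolynomial.X 0))
    rw [hψ 0, ← hp]
    rfl
  · change Ideal.Quotient.mk I (ψ (Ideal.Quotient.mk _ (MvPolynomial.X 1))) =
      f (Ideal.Quotient.mk _ (MvPolynomial.X 1))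
    rw [hψ 1, ← hq]
    change Ideal.Quotient.mk I (q + b) = _
    rw [map_add, hb0, add_zero]
  · change Ideal.Quotient.mk I (ψ (Ideal.Quotient.mk _ (MvPolynomial.X 2))) =
      f (Ideal.Quotient.mk _ (MvPolynomial.X 2))
    rw [hψ 2, ← hw]
    change Ideal.Quotient.mk I (w + c) = _
    rw [map_add, hc0, add_zero]

instance finitePresentation_A2 : Algebra.FinitePresentation ℂ A2 := by
  exact Algebra.FinitePresentation.quotient (Submodule.fg_span_singleton _)

instance smooth_str_A2 : Smooth (str A2) := by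
  rw [HasRingHomProperty.Spec_iff (P := @Smooth)]
  exact RingHom.smooth_algebraMap.mpr (⟨inferInstance, inferInstance⟩ : Algebra.Smooth ℂ A2)

instance smooth_str_A1 : Smooth (str A1) := by
  rw [HasRingHomProperty.Spec_iff (P := @Smooth)]
  exact RingHom.smooth_algebraMap.mpr (⟨inferInstance, inferInstance⟩ : Algebra.Smooth ℂ A1)

theorem smooth_resol : Smooth (resol.f ≫ str OS) := by
  have : IsZariskiLocalAtSource (P := (@Smooth : MorphismProperty Scheme.{0})) :=
    HasRingHomProperty.instIsZariskiLocalAtSource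
  apply resol.local_at_source @Smooth
  · have h : resol.inc₁ ≫ resol.f ≫ str OS = str A1 := by
      rw [← Category.assoc, resol.fac₁]
      change Spec.map _ ≫ Spec.map _ = _
      rw [← Spec.map_comp, ← CommRingCat.ofHom_comp]
      congr 2
      exact rho1.comp_algebraMap
    rw [h]
    infer_instance
  · have h : resol.inc₂ ≫ resol.f ≫ str OS = str A2 := by
      rw [← Category.assoc, resol.fac₂]
      change Spec.map _ ≫ Spec.map _ = _
      rw [← Spec.map_comp, ← CommRingCat.ofHom_comp]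
      congr 2
      exact rho2.comp_algebraMap
    rw [h]
    infer_instance

end Pool.Agent.Helper395
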