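import Pool.Agent.Helper395.ResolAlg

open AlgebraicGeometry CategoryTheory CategoryTheory.Limits

set_option linter.style.haveILetI false

namespace Pool.Agent.Helper395

theorem isOpenImmersion_of_away {A B : Type} [CommRing A] [CommRing B] (ι : A →+* B) (x : A)
    (h : @IsLocalization.Away A _ x B _ ι.toAlgebra) :
    IsOpenImmersion (Spec.map (CommRingCat.ofHom ι)) := by
  letI := ι.toAlgebra
  have : IsLocalization.Away x B := h
  exact IsOpenImmersion.of_isLocalization (R := A) (S := B) x

instance openImmersion_iota1 :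
    IsOpenImmersion (Spec.map (CommRingCat.ofHom (iota1 : A1 →+* B12))) :=
  isOpenImmersion_of_away _ _ loc1

instance openImmersion_iota2 :
    IsOpenImmersion (Spec.map (CommRingCat.ofHom (iota2 : A2 →+* B12))) :=
  isOpenImmersion_of_away _ _ loc2

/-- The resolution of `Spec OS`. -/
noncomputable def resol : TwoCharts OS A1 A2 B12 where
  T := pushout (Spec.map (CommRingCat.ofHom (iota1 : A1 →+* B12)))
    (Spec.map (CommRingCat.ofHom (iota2 : A2 →+* B12)))
  f := pushout.desc (Spec.map (CommRingCat.ofHom (rho1 : OS →+* A1)))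
    (Spec.map (CommRingCat.ofHom (rho2 : OS →+* A2))) (by
      rw [← Spec.map_comp, ← Spec.map_comp, ← CommRingCat.ofHom_comp, ← CommRingCat.ofHom_comp]
      have h : (iota1 : A1 →+* B12).comp (rho1 : OS →+* A1) =
          (iota2 : A2 →+* B12).comp (rho2 : OS →+* A2) :=
        RingHom.ext fun a => congrArg (fun g => g a) iota_comp_rho
      rw [h])
  ρ₁ := rho1
  ρ₂ := rho2
  ι₁ := iota1
  ι₂ := iota2
  x₁ := MvPolynomial.X 0
  x₂ := Ideal.Quotient.mk _ (MvPolynomial.X 0)
  inc₁ := pushout.inl _ _
  inc₂ := pushout.inr _ _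
  open₁ := inferInstance
  open₂ := inferInstance
  fac₁ := pushout.inl_desc _ _ _
  fac₂ := pushout.inr_desc _ _ _
  glue := pushout.condition
  surj := pushout_jointly_surjective _ _
  inter := fun x y h => (pushout_eq_iff _ _ x y).mp h
  loc₁ := loc1
  loc₂ := loc2
  hx := iota_x
  val₁ := val1
  val₂ := val2

theorem finiteType_of_algHom {A B : Type} [CommRing A] [CommRing B] [Algebra ℂ A] [Algebra ℂ B]
    [Algebra.FiniteType ℂ B] (ρ : A →ₐ[ℂ] B) : (ρ : A →+* B).FiniteType := by
  apply RingHom.FiniteType.of_comp_finiteType (f := algebraMap ℂ A)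
  have h : (ρ : A →+* B).comp (algebraMap ℂ A) = algebraMap ℂ B := ρ.comp_algebraMap
  rw [h]
  exact RingHom.finiteType_algebraMap.mpr inferInstance

instance isProper_resol : IsProper resol.f := by
  refine resol.isProper ?_ ?_
  · exact finiteType_of_algHom rho1
  · exact finiteType_of_algHom rho2

end Pool.Agent.Helper395
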