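import Pool.Agent.Helper395.ResolBir
import Pool.Agent.Helper395.ExGerm

open AlgebraicGeometry CategoryTheory CategoryTheory.Limits

set_option linter.style.haveILetI false

namespace Pool.Agent.Helper395

theorem relX (i : Fin 2) : Ideal.Quotient.mk (Ideal.span (Set.range eqX)) (eqX i) = 0 :=
  Ideal.Quotient.eq_zero_iff_mem.mpr (Ideal.subset_span (Set.mem_range_self i))

theorem relX1 : (Ideal.Quotient.mk (Ideal.span (Set.range eqX)) (MvPolynomial.X 4)) ^ 2 -
    ((Ideal.Quotient.mk (Ideal.span (Set.range eqX)) (MvPolynomial.X 2)) ^ 2 -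
      (Ideal.Quotient.mk (Ideal.span (Set.range eqX)) (MvPolynomial.X 3)) ^ 2) ^ 2 -
    (Ideal.Quotient.mk (Ideal.span (Set.range eqX)) (MvPolynomial.X 2)) ^ 5 = 0 := by
  have hrel : Ideal.Quotient.mk (Ideal.span (Set.range eqX)) (MvPolynomial.X 4 ^ 2 -
    (MvPolynomial.X 2 ^ 2 - MvPolynomial.X 3 ^ 2) ^ 2 - MvPolynomial.X 2 ^ 5) = 0 := relX 1
  simpa only [map_sub, map_mul, map_pow, map_one] using hrel

theorem relX0 : Ideal.Quotient.mk (Ideal.span (Set.range eqX)) (MvPolynomial.X 0) = 0 := relX 0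

theorem exists_iotaS : ∃ ψ : OS →ₐ[ℂ] AX,
    ψ (Ideal.Quotient.mk _ (MvPolynomial.X 0)) = Ideal.Quotient.mk _ (MvPolynomial.X 2) ∧
    ψ (Ideal.Quotient.mk _ (MvPolynomial.X 1)) = Ideal.Quotient.mk _ (MvPolynomial.X 3) ∧
    ψ (Ideal.Quotient.mk _ (MvPolynomial.X 2)) = Ideal.Quotient.mk _ (MvPolynomial.X 4) := by
  obtain ⟨ψ, hψ⟩ := exists_lift_quot eqS
    (![Ideal.Quotient.mk _ (MvPolynomial.X 2), Ideal.Quotient.mk _ (MvPolynomial.X 3),
      Ideal.Quotient.mk _ (MvPolynomial.X 4)] : Fin 3 → AX) (by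
      simp only [eqS, map_sub, map_pow, MvPolynomial.aeval_X,
        Matrix.cons_val_zero, Matrix.cons_val_one, Matrix.cons_val]
      exact relX1)
  exact ⟨ψ, hψ 0, hψ 1, hψ 2⟩

/-- The inclusion of the coordinate ring of `S` in that of `X`. -/
noncomputable def iotaS : OS →ₐ[ℂ] AX := exists_iotaS.choose

theorem iotaS_0 : iotaS (Ideal.Quotient.mk _ (MvPolynomial.X 0)) =
    Ideal.Quotient.mk _ (MvPolynomial.X 2) := exists_iotaS.choose_spec.1

theorem iotaS_1 : iotaS (Ideal.Quotient.mk _ (MvPolynomial.X 1)) =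
    Ideal.Quotient.mk _ (MvPolynomial.X 3) := exists_iotaS.choose_spec.2.1

theorem iotaS_2 : iotaS (Ideal.Quotient.mk _ (MvPolynomial.X 2)) =
    Ideal.Quotient.mk _ (MvPolynomial.X 4) := exists_iotaS.choose_spec.2.2

/-- The inclusion of the coordinate ring of the line in that of `X`. -/
noncomputable def iotaL : Polynomial ℂ →ₐ[ℂ] AX :=
  Polynomial.aeval (Ideal.Quotient.mk _ (MvPolynomial.X 1))

theorem iotaL_X : iotaL Polynomial.X = Ideal.Quotient.mk _ (MvPolynomial.X 1) :=
  Polynomial.aeval_X _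

theorem exists_desc {Z : Type} [CommRing Z] (f : OS →+* Z) (g : Polynomial ℂ →+* Z)
    (h : f.comp (algebraMap ℂ OS) = g.comp (algebraMap ℂ (Polynomial ℂ))) :
    ∃ k : AX →+* Z, k.comp (iotaS : OS →+* AX) = f ∧ k.comp (iotaL : Polynomial ℂ →+* AX) = g := by
  letI : Algebra ℂ Z := (f.comp (algebraMap ℂ OS)).toAlgebra
  let f' : OS →ₐ[ℂ] Z := { f with commutes' := fun r => rfl }
  let g' : Polynomial ℂ →ₐ[ℂ] Z :=
    { g with commutes' := fun r => (congrArg (fun φ => φ r) h).symm }
  let v : Fin 5 → Z := ![0, g Polynomial.X, f (Ideal.Quotient.mk _ (MvPolynomial.X 0)),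
    f (Ideal.Quotient.mk _ (MvPolynomial.X 1)), f (Ideal.Quotient.mk _ (MvPolynomial.X 2))]
  have hker : ∀ a ∈ Ideal.span (Set.range eqX), MvPolynomial.aeval v a = (0 : Z) := by
    intro a ha
    have : Ideal.span (Set.range eqX) ≤
        RingHom.ker (MvPolynomial.aeval v : MvPolynomial (Fin 5) ℂ →ₐ[ℂ] Z) := by
      rw [Ideal.span_le]
      rintro _ ⟨i, rfl⟩
      fin_cases i
      · change MvPolynomial.aeval v (MvPolynomial.X 0) = 0
        rw [MvPolynomial.aeval_X]
        rfl
      · change MvPolynomial.aeval v (MvPolynomial.X 4 ^ 2 -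
          (MvPolynomial.X 2 ^ 2 - MvPolynomial.X 3 ^ 2) ^ 2 - MvPolynomial.X 2 ^ 5) = 0
        simp only [map_sub, map_pow, MvPolynomial.aeval_X]
        change f (Ideal.Quotient.mk _ (MvPolynomial.X 2)) ^ 2 -
          (f (Ideal.Quotient.mk _ (MvPolynomial.X 0)) ^ 2 -
            f (Ideal.Quotient.mk _ (MvPolynomial.X 1)) ^ 2) ^ 2 -
          f (Ideal.Quotient.mk _ (MvPolynomial.X 0)) ^ 5 = 0
        have := congrArg f relS
        simpa only [map_sub, map_pow, map_zero] using this
    exact this ha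
  let k : AX →ₐ[ℂ] Z := Ideal.Quotient.liftₐ _ (MvPolynomial.aeval v) hker
  have hk : ∀ i, k (Ideal.Quotient.mk _ (MvPolynomial.X i)) = v i := fun i =>
    MvPolynomial.aeval_X v i
  have h1 : k.comp iotaS = f' := by
    apply algHom_ext_quot
    intro i
    fin_cases i
    · change k (iotaS (Ideal.Quotient.mk _ (MvPolynomial.X 0))) =
        f (Ideal.Quotient.mk _ (MvPolynomial.X 0))
      rw [iotaS_0, hk]; rfl
    · change k (iotaS (Ideal.Quotient.mk _ (MvPolynomial.X 1))) =
        f (Ideal.Quotient.mk _ (MvPolynomial.X 1))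
      rw [iotaS_1, hk]; rfl
    · change k (iotaS (Ideal.Quotient.mk _ (MvPolynomial.X 2))) =
        f (Ideal.Quotient.mk _ (MvPolynomial.X 2))
      rw [iotaS_2, hk]; rfl
  have h2 : k.comp iotaL = g' := by
    apply Polynomial.algHom_ext
    change k (iotaL Polynomial.X) = g Polynomial.X
    rw [iotaL_X, hk]; rfl
  exact ⟨k, RingHom.ext fun a => congrArg (fun φ => φ a) h1,
    RingHom.ext fun a => congrArg (fun φ => φ a) h2⟩

theorem hom_ext_AX {Z : Type} [CommRing Z] (k k' : AX →+* Z)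
    (h1 : k.comp (iotaS : OS →+* AX) = k'.comp (iotaS : OS →+* AX))
    (h2 : k.comp (iotaL : Polynomial ℂ →+* AX) = k'.comp (iotaL : Polynomial ℂ →+* AX)) :
    k = k' := by
  have e1 : ∀ a, k (iotaS a) = k' (iotaS a) := fun a => congrArg (fun φ => φ a) h1
  have e2 : ∀ a, k (iotaL a) = k' (iotaL a) := fun a => congrArg (fun φ => φ a) h2
  apply Ideal.Quotient.ringHom_ext
  apply MvPolynomial.ringHom_ext
  · intro c
    have h := e1 (algebraMap ℂ OS c)
    rw [iotaS.commutes] at h
    exact h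
  · intro i
    change k (Ideal.Quotient.mk _ (MvPolynomial.X i)) = k' (Ideal.Quotient.mk _ (MvPolynomial.X i))
    fin_cases i
    · change k (Ideal.Quotient.mk _ (MvPolynomial.X 0)) =
        k' (Ideal.Quotient.mk _ (MvPolynomial.X 0))
      rw [relX0, map_zero, map_zero]
    · change k (Ideal.Quotient.mk _ (MvPolynomial.X 1)) =
        k' (Ideal.Quotient.mk _ (MvPolynomial.X 1))
      rw [← iotaL_X, e2]
    · change k (Ideal.Quotient.mk _ (MvPolynomial.X 2)) =
        k' (Ideal.Quotient.mk _ (MvPolynomial.X 2))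
      rw [← iotaS_0, e1]
    · change k (Ideal.Quotient.mk _ (MvPolynomial.X 3)) =
        k' (Ideal.Quotient.mk _ (MvPolynomial.X 3))
      rw [← iotaS_1, e1]
    · change k (Ideal.Quotient.mk _ (MvPolynomial.X 4)) =
        k' (Ideal.Quotient.mk _ (MvPolynomial.X 4))
      rw [← iotaS_2, e1]

theorem isPushout_AX : IsPushout (CommRingCat.ofHom (algebraMap ℂ OS))
    (CommRingCat.ofHom (algebraMap ℂ (Polynomial ℂ)))
    (CommRingCat.ofHom (iotaS : OS →+* AX))
    (CommRingCat.ofHom (iotaL : Polynomial ℂ →+* AX)) := by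
  refine ⟨⟨?_⟩, ⟨PushoutCocone.IsColimit.mk _ ?_ ?_ ?_ ?_⟩⟩
  · rw [← CommRingCat.ofHom_comp, ← CommRingCat.ofHom_comp]
    congr 1
    exact iotaS.comp_algebraMap.trans iotaL.comp_algebraMap.symm
  · intro s
    have hs := congrArg CommRingCat.Hom.hom s.condition
    exact CommRingCat.ofHom (exists_desc s.inl.hom s.inr.hom hs).choose
  · intro s
    have hs := congrArg CommRingCat.Hom.hom s.condition
    have := (exists_desc s.inl.hom s.inr.hom hs).choose_spec.1
    rw [← CommRingCat.ofHom_comp, this]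
    rfl
  · intro s
    have hs := congrArg CommRingCat.Hom.hom s.condition
    have := (exists_desc s.inl.hom s.inr.hom hs).choose_spec.2
    rw [← CommRingCat.ofHom_comp, this]
    rfl
  · intro s m hm1 hm2
    have hs := congrArg CommRingCat.Hom.hom s.condition
    have h1 := (exists_desc s.inl.hom s.inr.hom hs).choose_spec.1
    have h2 := (exists_desc s.inl.hom s.inr.hom hs).choose_spec.2
    apply CommRingCat.hom_ext
    apply hom_ext_AX
    · change _ = RingHom.comp (exists_desc s.inl.hom s.inr.hom hs).choose _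
      rw [h1]
      exact congrArg CommRingCat.Hom.hom hm1
    · change _ = RingHom.comp (exists_desc s.inl.hom s.inr.hom hs).choose _
      rw [h2]
      exact congrArg CommRingCat.Hom.hom hm2

theorem isPullback_AX : IsPullback (Spec.map (CommRingCat.ofHom (iotaS : OS →+* AX)))
    (Spec.map (CommRingCat.ofHom (iotaL : Polynomial ℂ →+* AX))) (str OS) (str (Polynomial ℂ)) :=
  isPullback_SpecMap_of_isPushout _ _ _ _ isPushout_AX

theorem locallyOfFiniteType_str (A : Type) [CommRing A] [Algebra ℂ A] [Algebra.FiniteType ℂ A] :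
    LocallyOfFiniteType (str A) := by
  rw [HasRingHomProperty.Spec_iff (P := @LocallyOfFiniteType)]
  exact RingHom.finiteType_algebraMap.mpr inferInstance

theorem hasResolution_AX : HasCH0TrivialResolution (str AX) := by
  have := locallyOfFiniteType_str OS
  have h := hasResolution_of_product (str OS) resol.f smooth_resol birational_resol _ _
    isPullback_AX
  have e : Spec.map (CommRingCat.ofHom (iotaS : OS →+* AX)) ≫ str OS = str AX := by
    change Spec.map _ ≫ Spec.map _ = _
    rw [← Spec.map_comp, ← CommRingCat.ofHom_comp]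
    congr 2
    exact iotaS.comp_algebraMap
  rwa [e] at h

end Pool.Agent.Helper395
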